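import Pool.Agent.Lib.MP_f738c8_an.GC.Spec

section
/-!
# MP_f738c8_an, hive GC: uniform absolute continuity of the images of Lebesgue measure
-/
set_option autoImplicit false

namespace Pool.Agent.Lib.MP_f738c8_an.GC

open MeasureTheory

namespace ACAux

theorem kappa_gt {D eps : ℝ} (he0 : 0 ≤ eps) (hth : 1 < |D| * (1 - eps) / (1 + eps)) :
    1 < |D| * (1 - eps) := by
  have h1 : 0 < 1 + eps := by linarith
  rw [lt_div_iff₀ h1] at hth
  linarith

/-- the good sets for a suitable iterate -/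
theorem goodAll (hSY : SpecSY) (hTR : SpecTR) (hGD : SpecGD) (D : ℤ) (c : UnitAddCircle) (eps : ℝ)
    (N : ℕ) (hN : 1 ≤ N) (he0 : 0 ≤ eps) (he1 : eps < 1)
    (hth : 1 < |(D : ℝ)| * (1 - eps) / (1 + eps)) :
    ∃ (m : ℕ) (C : Finset UnitAddCircle) (L th K : ℝ), 1 ≤ m ∧ 0 < K ∧
      Sys (Fm D c eps N)^[m] (Ai (D : ℝ) eps)^[m] L th C ∧
      ∀ (b : ℕ) (d : ℝ), 0 < d → ∃ Z : Set (X N), MeasurableSet Z ∧ volume.real Z ≤ K * d ∧
        ∀ x, x ∉ Z → Good (Fm D c eps N)^[m] (Ai (D : ℝ) eps)^[m] b d x := by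
  have hk := kappa_gt he0 hth
  obtain ⟨m, hm⟩ := pow_unbounded_of_one_lt (6 * (N : ℝ) ^ 2 + 1) hk
  have hm1 : 1 ≤ m := by
    rcases Nat.eq_zero_or_pos m with h | h
    · subst h
      rw [pow_zero] at hm
      nlinarith [sq_nonneg (N : ℝ)]
    · exact h
  obtain ⟨C, hS⟩ := hSY D c eps N hN he0 he1 hth m hm1
  obtain ⟨K, hK, -, hKb⟩ := hTR _ _ _ _ _ hS
  have hL1 := hS.one_lt_L
  refine ⟨m, C, _, _, 2 * K / ((|(D : ℝ)| * (1 - eps)) ^ m - 1), hm1, ?_, hS, ?_⟩
  · exact div_pos (by linarith) (by linarith)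
  · intro b d hd
    exact hGD _ _ _ _ _ hS K b hK (fun q _ e he => hKb hm.le q e he) d hd

/-- uniform absolute continuity from the good sets -/
theorem uac_of_good (hPF : SpecPF) {N : ℕ} (H : X N → X N) (B : (Fin N → ℝ) → (Fin N → ℝ))
    (hH : Measurable H) (K : ℝ) (hK : 0 < K) (P : ℕ → Prop)
    (hg : ∀ (b : ℕ), P b → ∀ d : ℝ, 0 < d → ∃ Z : Set (X N), MeasurableSet Z ∧ volume.real Z ≤ K * d ∧
        ∀ x, x ∉ Z → Good H B b d x) :
    ∀ e : ℝ, 0 < e → ∃ d : ℝ, 0 < d ∧ ∀ (n : ℕ) (A : Set (X N)), P n → MeasurableSet A →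
      volume.real A ≤ d → volume.real (H^[n] ⁻¹' A) ≤ e := by
  intro e he
  have hd : 0 < e / (2 * K) := by positivity
  obtain ⟨Cd, hCd, h⟩ := hPF N (e / (2 * K)) hd
  refine ⟨e / (2 * Cd), by positivity, fun n A hPn hA hAd => ?_⟩
  obtain ⟨Z, hZ, hZK, hZg⟩ := hg n hPn _ hd
  have h1 := h H B n Z A hH hZ hA hZg
  have h2 : Cd * volume.real A ≤ e / 2 := by
    calc Cd * volume.real A ≤ Cd * (e / (2 * Cd)) := mul_le_mul_of_nonneg_left hAd hCd.le
      _ = e / 2 := by field_simp
  have h3 : K * (e / (2 * K)) = e / 2 := by field_simp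
  linarith

end ACAux

open ACAux

theorem specAC (hSY : SpecSY) (hTR : SpecTR) (hGD : SpecGD) (hPF : SpecPF) : SpecAC := by
  intro D c eps N hN he0 he1 hth
  set F := Fm D c eps N with hF
  -- one step
  obtain ⟨C1, hS1⟩ := hSY D c eps N hN he0 he1 hth 1 le_rfl
  obtain ⟨K1, hK1, hK10, -⟩ := hTR _ _ _ _ _ hS1
  have hL1 := hS1.one_lt_L
  have hmeas : Measurable F := by simpa using hS1.meas
  have h1 : ∀ e : ℝ, 0 < e → ∃ d : ℝ, 0 < d ∧ ∀ A : Set (X N), MeasurableSet A →
      volume.real A ≤ d → volume.real (F ⁻¹' A) ≤ e := by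
    intro e he
    obtain ⟨d, hd, h⟩ := uac_of_good hPF _ _ hS1.meas (2 * K1 / ((|(D : ℝ)| * (1 - eps)) ^ 1 - 1))
      (div_pos (by linarith) (by linarith)) (fun b => b = 1) (by
        rintro b rfl d hd
        refine hGD _ _ _ _ _ hS1 K1 1 hK1 (fun q hq e he => ?_) d hd
        obtain rfl : q = 0 := by omega
        exact hK10 e he) e he
    refine ⟨d, hd, fun A hA hAd => ?_⟩
    have h2 := h 1 A rfl hA hAd
    simpa using h2
  -- finitely many steps
  have h2 : ∀ (m : ℕ) (e : ℝ), 0 < e → ∃ d : ℝ, 0 < d ∧ ∀ (r : ℕ) (A : Set (X N)), r < m →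
      MeasurableSet A → volume.real A ≤ d → volume.real (F^[r] ⁻¹' A) ≤ e := by
    intro m
    induction m with
    | zero => intro e he; exact ⟨1, one_pos, fun r A hr => absurd hr (Nat.not_lt_zero r)⟩
    | succ m ih =>
      intro e he
      obtain ⟨d1, hd1, h1'⟩ := h1 e he
      obtain ⟨d2, hd2, h2'⟩ := ih d1 hd1
      refine ⟨min d2 e, lt_min hd2 he, fun r A hr hA hAd => ?_⟩
      rcases Nat.eq_zero_or_pos r with h | h
      · subst h
        simpa using hAd.trans (min_le_right _ _)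
      · obtain ⟨s, rfl⟩ : ∃ s, r = s + 1 := ⟨r - 1, by omega⟩
        have h3 := h2' s A (by omega) hA (hAd.trans (min_le_left _ _))
        have h4 := h1' (F^[s] ⁻¹' A) ((hmeas.iterate s) hA) h3
        rwa [← Set.preimage_comp, ← Function.iterate_succ] at h4
  -- all steps
  obtain ⟨m, C, L, th, K, hm, hK, hS, hg⟩ := goodAll hSY hTR hGD D c eps N hN he0 he1 hth
  have h3 := uac_of_good hPF _ _ hS.meas K hK (fun _ => True) (fun b _ d hd => hg b d hd)
  intro e he
  obtain ⟨d3, hd3, h3'⟩ := h3 e he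
  obtain ⟨d4, hd4, h4'⟩ := h2 m d3 hd3
  refine ⟨d4, hd4, fun n A hA hAd => ?_⟩
  have h5 := h4' (n % m) A (Nat.mod_lt _ (by omega)) hA hAd
  have h6 := h3' (n / m) (F^[n % m] ⁻¹' A) trivial ((hmeas.iterate _) hA) h5
  rwa [← Set.preimage_comp, ← Function.iterate_mul, ← Function.iterate_add, Nat.mod_add_div] at h6

end Pool.Agent.Lib.MP_f738c8_an.GC
end

section
/-!
# MP_f738c8_an, hive GC: the box step
-/
set_option autoImplicit false

namespace Pool.Agent.Lib.MP_f738c8_an.GC

open MeasureTheory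

theorem specBX : SpecBX := by
  intro D c eps N hD he0 he1 U hU c₀ c₁ r p hr h1 h2 y hy
  have hD' : (D : ℝ) ≠ 0 := by exact_mod_cast hD
  have hDa : 0 < |(D : ℝ)| := abs_pos.mpr hD'
  have h1e : 0 < 1 - eps := by linarith
  rcases Nat.eq_zero_or_pos N with hN | hN
  · -- the torus of dimension zero
    subst hN
    have e1 : y = Fm D c eps 0 c₀ := funext fun i => i.elim0
    rw [e1]
    exact hU c₀ (hr fun i => i.elim0) fun i => i.elim0
  have : Nonempty (Fin N) := ⟨⟨0, hN⟩⟩
  choose w hw1 hw2 hw3 using fun i => exists_rep (y i - Fm D c eps N c₁ i)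
  -- the maximum of the `|w i|`
  obtain ⟨i₀, hi₀⟩ := Finite.exists_max fun i => |w i|
  have hlt : |w i₀| < |(D : ℝ)| * (1 - eps) / (1 + eps) * p := by
    rw [← hw3]; exact hy i₀
  have hv : ∀ i, |Ai (D : ℝ) eps w i| < p := by
    intro i
    refine (Ai_abs hD' he0 he1 w hi₀ i).trans_lt ?_
    have h3 : 0 < (1 + eps) / (|(D : ℝ)| * (1 - eps)) := by positivity
    calc (1 + eps) / (|(D : ℝ)| * (1 - eps)) * |w i₀|
        < (1 + eps) / (|(D : ℝ)| * (1 - eps)) * (|(D : ℝ)| * (1 - eps) / (1 + eps) * p) :=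
          mul_lt_mul_of_pos_left hlt h3
      _ = p := by
          have : 1 + eps ≠ 0 := by positivity
          field_simp
  have h4 : ∀ i j, ‖c₁ i - c₁ j‖ + |Ai (D : ℝ) eps w i - Ai (D : ℝ) eps w j| < 1 / 2 := by
    intro i j
    have h5 := h2 i j
    have h6 : |Ai (D : ℝ) eps w i - Ai (D : ℝ) eps w j| < 2 * p :=
      (abs_sub _ _).trans_lt (by linarith [hv i, hv j])
    linarith
  have h7 : y = Fm D c eps N (c₁ + pr (Ai (D : ℝ) eps w)) := by
    rw [Fm_add c₁ _ fun i j => Or.inr (h4 i j), Al_Ai hD' (by linarith) (by omega)]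
    funext i
    simp only [Pi.add_apply, pr, hw1]
    abel
  rw [h7]
  refine hU _ (hr fun i => ?_) fun i j => ?_
  · have e : (c₁ + pr (Ai (D : ℝ) eps w)) i - c₀ i =
        (c₁ i - c₀ i) + ((Ai (D : ℝ) eps w i : ℝ) : UnitAddCircle) := by
      simp only [Pi.add_apply, pr]; abel
    rw [e]
    refine (norm_add_le _ _).trans_lt ?_
    have h8 := norm_coe_le (Ai (D : ℝ) eps w i)
    linarith [h1 i, hv i]
  · have e : (c₁ + pr (Ai (D : ℝ) eps w)) i - (c₁ + pr (Ai (D : ℝ) eps w)) j =
        (c₁ i - c₁ j) + ((Ai (D : ℝ) eps w i - Ai (D : ℝ) eps w j : ℝ) : UnitAddCircle) := by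
      simp only [Pi.add_apply, pr, AddCircle.coe_sub]; abel
    rw [e]
    exact ((norm_add_le _ _).trans (add_le_add_right (norm_coe_le _) _)).trans_lt (h4 i j)

end Pool.Agent.Lib.MP_f738c8_an.GC
end

section
/-!
# MP_f738c8_an, hive GC, module CS: the cuts of the preimage
-/
set_option autoImplicit false

namespace Pool.Agent.Lib.MP_f738c8_an.GC

open MeasureTheory

namespace CSM

theorem norm_sub_half (u : UnitAddCircle) :
    ‖u - ((1 / 2 : ℝ) : UnitAddCircle)‖ ≤ 1 / 2 - ‖u‖ := by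
  obtain ⟨t, h1, h2, h3⟩ := exists_rep u
  rw [h3, ← h1]
  rcases le_total 0 t with h | h
  · rw [← AddCircle.coe_sub]
    refine (norm_coe_le _).trans ?_
    rw [abs_of_nonneg h] at h2 ⊢
    rw [abs_of_nonpos (by linarith)]
    linarith
  · have e : ((1 / 2 : ℝ) : UnitAddCircle) = ((-(1 / 2) : ℝ) : UnitAddCircle) := by
      have h6 : ((1 / 2 : ℝ) : UnitAddCircle) = ((-(1 / 2) + 1 : ℝ) : UnitAddCircle) := by norm_num
      rw [h6, AddCircle.coe_add, AddCircle.coe_period, add_zero]
    rw [e, ← AddCircle.coe_sub]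
    refine (norm_coe_le _).trans ?_
    rw [abs_of_nonpos h] at h2 ⊢
    rw [abs_of_nonneg (by linarith)]
    linarith

theorem int_of_coe {r : ℝ} (h : (r : UnitAddCircle) = 0) : ∃ n : ℤ, (n : ℝ) = r := by
  rw [AddCircle.coe_eq_zero_iff] at h
  obtain ⟨n, hn⟩ := h
  exact ⟨n, by simpa using hn⟩

/-- the differences of the image -/
theorem diff_eq (D : ℤ) (c : UnitAddCircle) (eps : ℝ) (N : ℕ) (x : X N) (i j : Fin N)
    (h : ‖x i - x j‖ < 1 / 2) :
    ∃ q : ℤ, |(q : ℝ)| ≤ 3 * N ∧ Fm D c eps N x i - Fm D c eps N x j =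
      (((D : ℝ) * (1 - eps) * g (x i - x j) + D * eps * q / (2 * N) : ℝ) : UnitAddCircle) := by
  have hN : N ≠ 0 := by rintro rfl; exact i.elim0
  have hN' : (N : ℝ) ≠ 0 := by exact_mod_cast hN
  have hz := coe_g h
  set z := g (x i - x j) with hzdef
  have h1 : ∀ k : Fin N, ∃ n : ℤ, (n : ℝ) = 2 * (g (x k - x i) - g (x k - x j) + z) := by
    intro k
    refine int_of_coe ?_
    have e : (2 * (g (x k - x i) - g (x k - x j) + z) : ℝ)
        = 2 * g (x k - x i) - 2 * g (x k - x j) + (z + z) := by ring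
    rw [e, AddCircle.coe_add, AddCircle.coe_sub, AddCircle.coe_add, two_g, two_g, hz]
    abel
  choose r hr using h1
  have hrb : ∀ k, |(r k : ℝ)| ≤ 3 := by
    intro k
    rw [hr k]
    have a1 := abs_le.mp (abs_g_le (x k - x i))
    have a2 := abs_le.mp (abs_g_le (x k - x j))
    have a3 := abs_le.mp (abs_g_le (x i - x j))
    rw [abs_le]
    constructor <;> linarith [a1.1, a1.2, a2.1, a2.2, a3.1, a3.2]
  refine ⟨∑ k, r k, ?_, ?_⟩
  · rw [Int.cast_sum]
    calc |∑ k, (r k : ℝ)| ≤ ∑ k, |(r k : ℝ)| := Finset.abs_sum_le_sum_abs _ _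
      _ ≤ ∑ _k : Fin N, (3 : ℝ) := Finset.sum_le_sum fun k _ => hrb k
      _ = 3 * N := by rw [Finset.sum_const, Finset.card_univ, Fintype.card_fin, nsmul_eq_mul]; ring
  · have hs : (∑ k, g (x k - x i)) - ∑ k, g (x k - x j) = ((∑ k, r k : ℤ) : ℝ) / 2 - N * z := by
      rw [Int.cast_sum, ← Finset.sum_sub_distrib, Finset.sum_div]
      have : (N : ℝ) * z = ∑ _k : Fin N, z := by
        rw [Finset.sum_const, Finset.card_univ, Fintype.card_fin, nsmul_eq_mul]
      rw [this, ← Finset.sum_sub_distrib]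
      refine Finset.sum_congr rfl fun k _ => ?_
      rw [hr k]
      ring
    unfold Fm coupled
    have e1 : (D • (x i + ((eps / N * ∑ k, g (x k - x i) : ℝ) : UnitAddCircle)) + c) -
        (D • (x j + ((eps / N * ∑ k, g (x k - x j) : ℝ) : UnitAddCircle)) + c) =
        D • ((x i - x j) + (((eps / N * ∑ k, g (x k - x i) : ℝ) : UnitAddCircle) -
          ((eps / N * ∑ k, g (x k - x j) : ℝ) : UnitAddCircle))) := by
      simp only [smul_add, smul_sub]
      abel
    rw [e1, ← hz, ← AddCircle.coe_sub, ← AddCircle.coe_add, ← AddCircle.coe_zsmul]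
    congr 1
    rw [zsmul_eq_mul, ← mul_sub, hs]
    field_simp
    ring

end CSM

theorem specCS : SpecCS := by
  intro D c eps N hκ C
  classical
  set κ : ℝ := (D : ℝ) * (1 - eps) with hκdef
  let rp : UnitAddCircle → ℝ := fun u => Classical.choose (exists_rep u)
  have hrp : ∀ u, ((rp u : ℝ) : UnitAddCircle) = u ∧ |rp u| ≤ 1 / 2 := fun u =>
    ⟨(Classical.choose_spec (exists_rep u)).1, (Classical.choose_spec (exists_rep u)).2.1⟩
  set M : ℤ := ⌈|κ| + |(D : ℝ) * eps| * 3 + 2⌉ with hM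
  let ff : UnitAddCircle × ℤ × ℤ → UnitAddCircle := fun p =>
    (((rp p.1 + p.2.1 - D * eps * p.2.2 / (2 * N)) / κ : ℝ) : UnitAddCircle)
  refine ⟨insert ((1 / 2 : ℝ) : UnitAddCircle)
    ((C ×ˢ Finset.Icc (-M) M ×ˢ Finset.Icc (-(3 * (N : ℤ))) (3 * N)).image ff), ?_⟩
  intro x w hw
  refine ⟨Fm_add x w ?_, ?_⟩
  · intro i j
    rcases hw i j with h | h
    · exact Or.inl h
    · right
      have h1 := h _ (Finset.mem_insert_self _ _)
      have h2 := CSM.norm_sub_half (x i - x j)
      linarith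
  · intro i j
    rcases hw i j with h | h
    · left
      have := Al_sub (D : ℝ) eps w i j
      rw [h, sub_self, mul_zero] at this
      linarith
    · right
      intro d hd
      have hN : N ≠ 0 := by rintro rfl; exact i.elim0
      have hN1 : (1 : ℝ) ≤ N := by exact_mod_cast Nat.one_le_iff_ne_zero.mpr hN
      have hhalf : ‖x i - x j‖ < 1 / 2 := by
        have h1 := h _ (Finset.mem_insert_self _ _)
        have h2 := CSM.norm_sub_half (x i - x j)
        linarith [abs_nonneg (w i - w j)]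
      obtain ⟨q, hq, hF⟩ := CSM.diff_eq D c eps N x i j hhalf
      have hz := coe_g hhalf
      set z := g (x i - x j) with hzdef
      have hzb : |z| ≤ 1 / 2 := abs_g_le _
      obtain ⟨hd1, hd2⟩ := hrp d
      set y : ℝ := κ * z + D * eps * q / (2 * N) - rp d with hy
      have hyd : Fm D c eps N x i - Fm D c eps N x j - d = ((y : ℝ) : UnitAddCircle) := by
        rw [hF, hy, AddCircle.coe_sub, hd1]
      have hnorm : ‖((y : ℝ) : UnitAddCircle)‖ = |y - round y| := UnitAddCircle.norm_eq (x := y)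
      have hyb : |y| ≤ |κ| + |(D : ℝ) * eps| * 3 + 1 := by
        have b1 : |κ * z| ≤ |κ| * (1 / 2) := by
          rw [abs_mul]; exact mul_le_mul_of_nonneg_left hzb (abs_nonneg _)
        have b2 : |(D : ℝ) * eps * q / (2 * N)| ≤ |(D : ℝ) * eps| * 3 := by
          rw [abs_div, abs_mul, abs_of_pos (by positivity : (0 : ℝ) < 2 * N), div_le_iff₀ (by positivity)]
          calc |(D : ℝ) * eps| * |(q : ℝ)| ≤ |(D : ℝ) * eps| * (3 * N) :=
                mul_le_mul_of_nonneg_left hq (abs_nonneg _)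
            _ ≤ |(D : ℝ) * eps| * 3 * (2 * N) := by
                nlinarith [mul_nonneg (abs_nonneg ((D : ℝ) * eps)) (by linarith : (0 : ℝ) ≤ (N : ℝ))]
        have b3 : |y| ≤ |κ * z| + |(D : ℝ) * eps * q / (2 * N)| + |rp d| := by
          rw [hy]
          exact (abs_sub _ _).trans (by gcongr; exact abs_add_le _ _)
        linarith [abs_nonneg κ]
      have hnb : |((round y : ℤ) : ℝ)| ≤ |κ| + |(D : ℝ) * eps| * 3 + 2 := by
        have := abs_sub_round y
        have e : ((round y : ℤ) : ℝ) = y - (y - round y) := by ring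
        rw [e]
        refine (abs_sub _ _).trans ?_
        linarith
      have hnM : round y ∈ Finset.Icc (-M) M := by
        rw [Finset.mem_Icc, ← abs_le]
        have : (|round y| : ℝ) ≤ (M : ℝ) := hnb.trans (Int.le_ceil _)
        exact_mod_cast this
      have hqM : q ∈ Finset.Icc (-(3 * (N : ℤ))) (3 * N) := by
        rw [Finset.mem_Icc, ← abs_le]
        exact_mod_cast hq
      have hmem : ff (d, round y, q) ∈ insert ((1 / 2 : ℝ) : UnitAddCircle)
          ((C ×ˢ Finset.Icc (-M) M ×ˢ Finset.Icc (-(3 * (N : ℤ))) (3 * N)).image ff) :=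
        Finset.mem_insert_of_mem (Finset.mem_image_of_mem _
          (Finset.mem_product.mpr ⟨hd, Finset.mem_product.mpr ⟨hnM, hqM⟩⟩))
      have hlt := h _ hmem
      set t : ℝ := (rp d + (round y : ℤ) - D * eps * q / (2 * N)) / κ with ht
      have hff : ff (d, round y, q) = ((t : ℝ) : UnitAddCircle) := rfl
      rw [hff, ← hz, ← AddCircle.coe_sub] at hlt
      have hle := norm_coe_le (z - t)
      have hyt : y - round y = κ * (z - t) := by
        rw [ht, hy]
        field_simp
        ring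
      have hAl : |Al (D : ℝ) eps w i - Al (D : ℝ) eps w j| = |κ| * |w i - w j| := by
        rw [Al_sub, abs_mul, hκdef]
      rw [hyd, hnorm, hAl, hyt, abs_mul κ (z - t)]
      exact mul_lt_mul_of_pos_left (hlt.trans_le hle) (abs_pos.mpr hκ)

end Pool.Agent.Lib.MP_f738c8_an.GC
end

section
/-!
# MP_f738c8_an, hive GC: an acim of a map without nontrivial forward invariant sets is equivalent to Lebesgue
-/
set_option autoImplicit false

namespace Pool.Agent.Lib.MP_f738c8_an.GC

open MeasureTheory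

theorem equiv_of_trivial {α : Type} [MeasurableSpace α] (vol : Measure α) [IsProbabilityMeasure vol]
    (F : α → α)
    (h : ∀ S, MeasurableSet S → vol (S \ F ⁻¹' S) = 0 → vol S = 0 ∨ vol Sᶜ = 0)
    (mu : Measure α) (hmu : IsProbabilityMeasure mu) (hac : mu ≪ vol)
    (hinv : ∀ A, MeasurableSet A → mu (F ⁻¹' A) = mu A) : vol ≪ mu := by
  have hd : vol.withDensity (mu.rnDeriv vol) = mu := Measure.withDensity_rnDeriv_eq mu vol hac
  have hm : Measurable (mu.rnDeriv vol) := Measure.measurable_rnDeriv mu vol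
  set S : Set α := {x | mu.rnDeriv vol x ≠ 0} with hSdef
  have hS : MeasurableSet S := (hm (measurableSet_singleton 0)).compl
  have key : ∀ A, mu A = 0 ↔ vol (S ∩ A) = 0 := by
    intro A
    conv_lhs => rw [← hd]
    exact withDensity_apply_eq_zero hm
  have h1 : mu Sᶜ = 0 := by rw [key, Set.inter_compl_self, measure_empty]
  have h2 : vol (S \ F ⁻¹' S) = 0 := by
    have h3 : mu (F ⁻¹' Sᶜ) = 0 := by rw [hinv _ hS.compl, h1]
    rw [key] at h3
    rwa [Set.preimage_compl] at h3
  have h4 : vol Sᶜ = 0 := by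
    rcases h S hS h2 with h5 | h5
    · exfalso
      have h6 : mu S = 0 := hac h5
      have h7 : mu Set.univ = 0 := by
        rw [← Set.union_compl_self S]
        exact measure_union_null h6 h1
      rw [measure_univ] at h7
      exact one_ne_zero h7
    · exact h5
  intro A hA
  rw [key] at hA
  have h8 : A ⊆ (S ∩ A) ∪ Sᶜ := by
    intro x hx
    by_cases hxS : x ∈ S
    · exact Or.inl ⟨hxS, hx⟩
    · exact Or.inr hxS
  exact measure_mono_null h8 (measure_union_null hA h4)

end Pool.Agent.Lib.MP_f738c8_an.GC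
end

section
/-!
# MP_f738c8_an, hive GC: forward invariant sets are null or full
-/
set_option autoImplicit false

namespace Pool.Agent.Lib.MP_f738c8_an.GC

open MeasureTheory

namespace ERAux

theorem box_isOpen {N : ℕ} (x : X N) (r : ℝ) : IsOpen (box x r) := by
  have h : box x r = ⋂ i, {y : X N | ‖y i - x i‖ < r} := by
    ext y; simp [box]
  rw [h]
  refine isOpen_iInter_of_finite fun i => ?_
  exact isOpen_lt (((continuous_apply i).sub continuous_const).norm) continuous_const

theorem mem_box_self {N : ℕ} (x : X N) {r : ℝ} (hr : 0 < r) : x ∈ box x r := by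
  intro i; simpa using hr

theorem box_subset_box {N : ℕ} {x y : X N} {r s : ℝ} (hy : y ∈ box x (r - s)) : box y s ⊆ box x r := by
  intro z hz i
  have h1 := hz i
  have h2 := hy i
  have h3 : z i - x i = (z i - y i) + (y i - x i) := by abel
  rw [h3]
  exact (norm_add_le _ _).trans_lt (by linarith)

theorem card_image_Fm (D : ℤ) (c : UnitAddCircle) (eps : ℝ) (N : ℕ) (x : X N) :
    (Finset.univ.image (Fm D c eps N x)).card ≤ (Finset.univ.image x).card := by
  have h : Finset.univ.image (Fm D c eps N x) = (Finset.univ.image x).image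
      (fun z => D • (z + ((eps / N * ∑ j, g (x j - z) : ℝ) : UnitAddCircle)) + c) := by
    rw [Finset.image_image]
    rfl
  rw [h]
  exact Finset.card_image_le

/-- null sets are pulled back to null sets -/
theorem nonsing {α : Type} [MeasurableSpace α] {vol : Measure α} [IsProbabilityMeasure vol] {F : α → α}
    (h : UAC vol F) {A : Set α} (hA : MeasurableSet A) (h0 : vol A = 0) : vol (F ⁻¹' A) = 0 := by
  by_contra hne
  have hpos : 0 < vol.real (F ⁻¹' A) := by
    rw [measureReal_def]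
    exact ENNReal.toReal_pos hne (measure_ne_top _ _)
  obtain ⟨d, hd, h1⟩ := h (vol.real (F ⁻¹' A) / 2) (by positivity)
  have h2 := h1 1 A hA (by rw [measureReal_def, h0]; simpa using hd.le)
  rw [Function.iterate_one] at h2
  linarith

theorem iter_null {α : Type} [MeasurableSpace α] {vol : Measure α} [IsProbabilityMeasure vol] {F : α → α}
    (hF : Measurable F) (h : UAC vol F) {S : Set α} (hS : MeasurableSet S) (h0 : vol (S \ F ⁻¹' S) = 0)
    (n : ℕ) : vol (S \ F^[n] ⁻¹' S) = 0 := by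
  induction n with
  | zero => simp
  | succ n ih =>
    have h1 : S \ F^[n + 1] ⁻¹' S ⊆ (S \ F ⁻¹' S) ∪ F ⁻¹' (S \ F^[n] ⁻¹' S) := by
      rintro x ⟨hx, hx2⟩
      by_cases h2 : F x ∈ S
      · right
        refine ⟨h2, fun h3 => hx2 ?_⟩
        simpa [Function.iterate_succ] using h3
      · left; exact ⟨hx, h2⟩
    refine measure_mono_null h1 (measure_union_null h0 (nonsing h ?_ ih))
    exact hS.diff ((hF.iterate n) hS)

end ERAux

open ACAux ERAux

theorem specER (hSY : SpecSY) (hTR : SpecTR) (hGD : SpecGD) (hPF : SpecPF) (hOB : SpecOB)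
    (hLOC : SpecLOC) (hBX : SpecBX) (hMG : SpecMG) : SpecER := by
  intro D c eps N hN he0 he1 hth S hS hinv
  have hth1 : 1 < |(D : ℝ)| * (1 - eps) / (1 + eps) := by linarith
  have hD : D ≠ 0 := by
    rintro rfl
    norm_num at hth1
  set F := Fm D c eps N with hF
  by_cases hS0 : volume S = 0
  · exact Or.inl hS0
  right
  obtain ⟨C1, hS1⟩ := hSY D c eps N hN he0 he1 hth1 1 le_rfl
  have hmeas : Measurable F := by simpa using hS1.meas
  have huac : UAC (volume : Measure (X N)) F := specAC hSY hTR hGD hPF D c eps N hN he0 he1 hth1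
  obtain ⟨m, C, L, th, K, hm, hK, hSys, hg⟩ := goodAll hSY hTR hGD D c eps N hN he0 he1 hth1
  have hne : (Full S).Nonempty := by
    refine hOB _ _ L th C hSys K hK hg S hS hS0 fun n => ?_
    rw [← Function.iterate_mul]
    exact iter_null hmeas huac hS hinv (m * n)
  obtain ⟨x, r, hr, hx⟩ := hne
  have hbox : box x (r / 2) ⊆ Full S := by
    intro y hy
    refine ⟨r / 2, by linarith, measure_mono_null ?_ hx⟩
    refine Set.sdiff_subset_sdiff_left (box_subset_box ?_)
    have e : r - r / 2 = r / 2 := by ring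
    rw [e]; exact hy
  have hU : Full S = Set.univ :=
    hMG F _ hth (card_image_Fm D c eps N) (Full S)
      (hBX D c eps N hD he0 he1 (Full S) (hLOC D c eps N hD he0 he1 S hS hinv)) x (r / 2)
      (by linarith) hbox
  refine measure_null_of_locally_null _ fun y _ => ?_
  obtain ⟨s, hs, hy⟩ : y ∈ Full S := by rw [hU]; exact Set.mem_univ y
  refine ⟨box y s \ S, ?_, hy⟩
  rw [Set.sdiff_eq, Set.inter_comm]
  exact inter_mem_nhdsWithin _ ((box_isOpen y s).mem_nhds (mem_box_self y hs))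

end Pool.Agent.Lib.MP_f738c8_an.GC
end

section
/-!
# MP_f738c8_an, hive GC: the theorem from the specs
-/
set_option autoImplicit false

namespace Pool.Agent.Lib.MP_f738c8_an.GC

open MeasureTheory

theorem specMain (hSY : SpecSY) (hTR : SpecTR) (hGD : SpecGD) (hPF : SpecPF) (hOB : SpecOB)
    (hLOC : SpecLOC) (hBX : SpecBX) (hMG : SpecMG) (hUL : SpecUL) (hUQ : SpecUQ) : SpecMain := by
  intro D c eps N hN hD he0 he
  have hD' : (4 : ℝ) ≤ |(D : ℝ)| := by
    rw [← Int.cast_abs]
    exact_mod_cast hD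
  have hDp : 0 < |(D : ℝ)| + 3 := by linarith
  have he' : eps * (|(D : ℝ)| + 3) < |(D : ℝ)| - 3 := by rwa [lt_div_iff₀ hDp] at he
  have he1 : eps < 1 := by
    by_contra h
    push Not at h
    nlinarith
  have hth : 3 < |(D : ℝ)| * (1 - eps) / (1 + eps) := by
    rw [lt_div_iff₀ (by linarith)]
    linarith
  have hth1 : 1 < |(D : ℝ)| * (1 - eps) / (1 + eps) := by linarith
  obtain ⟨C1, hS1⟩ := hSY D c eps N hN he0 he1 hth1 1 le_rfl
  have hmeas : Measurable (Fm D c eps N) := by simpa using hS1.meas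
  obtain ⟨mu, h1, h2, h3⟩ := hUL (volume : Measure (X N)) (Fm D c eps N) hmeas
    (specAC hSY hTR hGD hPF D c eps N hN he0 he1 hth1)
  refine ⟨mu, ⟨h1, h2, h3⟩, ?_⟩
  rintro nu ⟨h4, h5, h6⟩
  exact hUQ (volume : Measure (X N)) (Fm D c eps N) hmeas
    (specER hSY hTR hGD hPF hOB hLOC hBX hMG D c eps N hN he0 he1 hth) nu mu h4 h1 h5 h2 h6 h3

end Pool.Agent.Lib.MP_f738c8_an.GC
end

section
/-!
# MP_f738c8_an, hive GC, module MG: merging on the circle
-/
set_option autoImplicit false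

namespace Pool.Agent.Lib.MP_f738c8_an.GC

open MeasureTheory

namespace MGAux

theorem card_comp {N : ℕ} (x : X N) (f : UnitAddCircle → UnitAddCircle) :
    (Finset.univ.image (fun i => f (x i))).card ≤ (Finset.univ.image x).card := by
  have h : Finset.univ.image (fun i => f (x i)) = (Finset.univ.image x).image f := by
    rw [Finset.image_image]; rfl
  rw [h]
  exact Finset.card_image_le

theorem coe_int (n : ℤ) : ((n : ℝ) : UnitAddCircle) = 0 := by
  rw [AddCircle.coe_eq_zero_iff]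
  exact ⟨n, by simp⟩

theorem norm_frac (k : ℕ) (n n' : ℤ) :
    ‖(((n : ℝ) / (2 * k + 1) : ℝ) : UnitAddCircle) - (((n' : ℝ) / (2 * k + 1) : ℝ) : UnitAddCircle)‖ ≤
      1 / 2 - 1 / (2 * (2 * (k : ℝ) + 1)) := by
  have hM : (0 : ℝ) < 2 * k + 1 := by positivity
  rw [← AddCircle.coe_sub, UnitAddCircle.norm_eq]
  set x : ℝ := (n : ℝ) / (2 * k + 1) - (n' : ℝ) / (2 * k + 1) with hx
  have h1 := abs_sub_round x
  set j : ℤ := round x with hj
  have h2 : x - j = ((n - n' - j * (2 * k + 1) : ℤ) : ℝ) / (2 * k + 1) := by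
    rw [hx]; push_cast; field_simp
  set a : ℤ := n - n' - j * (2 * k + 1) with ha
  rw [h2] at h1 ⊢
  rw [abs_div, abs_of_pos hM, div_le_iff₀ hM] at h1
  have h3 : |a| ≤ (k : ℤ) := by
    have h4 : ((2 * |a| : ℤ) : ℝ) ≤ ((2 * k + 1 : ℤ) : ℝ) := by
      push_cast
      linarith
    have h5 : 2 * |a| ≤ (2 * k + 1 : ℤ) := by exact_mod_cast h4
    omega
  have h6 : |(a : ℝ)| ≤ k := by
    have : ((|a| : ℤ) : ℝ) ≤ ((k : ℤ) : ℝ) := by exact_mod_cast h3
    simpa using this
  rw [abs_div, abs_of_pos hM, div_le_iff₀ hM]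
  have h7 : (1 / 2 - 1 / (2 * (2 * (k : ℝ) + 1))) * (2 * k + 1) = k := by
    field_simp
    ring
  rw [h7]
  exact h6

/-- a chosen representative -/
noncomputable def rep (u : UnitAddCircle) : ℝ := (exists_rep u).choose

theorem coe_rep (u : UnitAddCircle) : ((rep u : ℝ) : UnitAddCircle) = u := (exists_rep u).choose_spec.1

variable {N : ℕ}

/-- the hypothesis on `U` -/
def HU (F : X N → X N) (th : ℝ) (U : Set (X N)) : Prop :=
  ∀ (c₀ c₁ : X N) (r p : ℝ), box c₀ r ⊆ U → (∀ i, ‖c₁ i - c₀ i‖ + p ≤ r) →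
    (∀ i j, ‖c₁ i - c₁ j‖ + 2 * p ≤ 1 / 2) → box (F c₁) (th * p) ⊆ U

/-- step (C) -/
theorem stepC (F : X N → X N) (th : ℝ)
    (hF : ∀ x : X N, (Finset.univ.image (F x)).card ≤ (Finset.univ.image x).card)
    (U : Set (X N)) (hU : HU F th U) (k : ℕ) (c₀ : X N) (r : ℝ) (hr : 3 / (4 * (2 * (k : ℝ) + 1)) ≤ r)
    (hb : box c₀ r ⊆ U) :
    ∃ c : X N, (Finset.univ.image c).card ≤ 2 * k + 1 ∧ box c (th * (1 / (4 * (2 * (k : ℝ) + 1)))) ⊆ U := by
  have hM : (0 : ℝ) < 2 * k + 1 := by positivity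
  set f : UnitAddCircle → UnitAddCircle :=
    fun u => (((round ((2 * (k : ℝ) + 1) * rep u) : ℤ) : ℝ) / (2 * k + 1) : ℝ) with hf
  have hf1 : ∀ u, ‖f u - u‖ ≤ 1 / (2 * (2 * (k : ℝ) + 1)) := by
    intro u
    have e1 : f u - u = (((((round ((2 * (k : ℝ) + 1) * rep u) : ℤ) : ℝ) / (2 * k + 1) - rep u : ℝ)) :
        UnitAddCircle) := by
      rw [AddCircle.coe_sub, coe_rep]
    rw [e1]
    refine (norm_coe_le _).trans ?_
    have e2 : ((round ((2 * (k : ℝ) + 1) * rep u) : ℤ) : ℝ) / (2 * k + 1) - rep u =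
        -(((2 * (k : ℝ) + 1) * rep u - ((round ((2 * (k : ℝ) + 1) * rep u) : ℤ) : ℝ)) / (2 * k + 1)) := by
      field_simp
      ring
    rw [e2, abs_neg, abs_div, abs_of_pos hM, div_le_iff₀ hM]
    refine (abs_sub_round _).trans (le_of_eq ?_)
    field_simp
  have hf2 : ∀ u v, ‖f u - f v‖ ≤ 1 / 2 - 1 / (2 * (2 * (k : ℝ) + 1)) := fun u v => norm_frac k _ _
  have hcard : (Finset.univ.image (fun i => f (c₀ i))).card ≤ 2 * k + 1 := by
    have hsub : Finset.univ.image (fun i => f (c₀ i)) ⊆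
        (Finset.range (2 * k + 1)).image (fun n : ℕ => (((n : ℝ) / (2 * k + 1) : ℝ) : UnitAddCircle)) := by
      intro z hz
      rw [Finset.mem_image] at hz
      obtain ⟨i, -, rfl⟩ := hz
      rw [Finset.mem_image]
      set n : ℤ := round ((2 * (k : ℝ) + 1) * rep (c₀ i)) with hn
      have hm0 : (0 : ℤ) < 2 * k + 1 := by positivity
      have h1 := Int.emod_nonneg n hm0.ne'
      have h2 := Int.emod_lt_of_pos n hm0
      refine ⟨(n % (2 * k + 1)).toNat, ?_, ?_⟩
      · rw [Finset.mem_range]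
        omega
      · have h3 : (((n % (2 * k + 1)).toNat : ℕ) : ℝ) = ((n % (2 * k + 1) : ℤ) : ℝ) := by
          have : (((n % (2 * k + 1)).toNat : ℕ) : ℤ) = n % (2 * k + 1) := Int.toNat_of_nonneg h1
          exact_mod_cast congrArg (fun z : ℤ => (z : ℝ)) this
        have h4 : (n : ℝ) / (2 * k + 1) =
            ((n % (2 * k + 1) : ℤ) : ℝ) / (2 * k + 1) + ((n / (2 * k + 1) : ℤ) : ℝ) := by
          have h5 : n = n % (2 * k + 1) + (2 * k + 1) * (n / (2 * k + 1)) := (Int.emod_add_mul_ediv n _).symm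
          have h6 : (n : ℝ) = ((n % (2 * k + 1) : ℤ) : ℝ) + (2 * k + 1) * ((n / (2 * k + 1) : ℤ) : ℝ) := by
            exact_mod_cast congrArg (fun z : ℤ => (z : ℝ)) h5
          rw [eq_comm, ← sub_eq_zero]
          rw [h6]
          field_simp
          ring
        show (((((n % (2 * k + 1)).toNat : ℕ) : ℝ) / (2 * k + 1) : ℝ) : UnitAddCircle) =
          ((((n : ℝ)) / (2 * k + 1) : ℝ) : UnitAddCircle)
        rw [h4, AddCircle.coe_add, coe_int, add_zero, h3]
    refine (Finset.card_le_card hsub).trans (Finset.card_image_le.trans ?_)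
    rw [Finset.card_range]
  refine ⟨F (fun i => f (c₀ i)), (hF _).trans hcard, ?_⟩
  apply hU c₀ _ r _ hb
  · intro i
    have := hf1 (c₀ i)
    have e : 1 / (2 * (2 * (k : ℝ) + 1)) + 1 / (4 * (2 * (k : ℝ) + 1)) = 3 / (4 * (2 * (k : ℝ) + 1)) := by
      field_simp
      norm_num
    linarith
  · intro i j
    have := hf2 (c₀ i) (c₀ j)
    have e : 2 * (1 / (4 * (2 * (k : ℝ) + 1))) = 1 / (2 * (2 * (k : ℝ) + 1)) := by
      field_simp
      norm_num
    linarith

/-- truncation -/
noncomputable def cl (q x : ℝ) : ℝ := max (-q) (min q x)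

theorem cl_abs {q : ℝ} (hq : 0 ≤ q) (x : ℝ) : |cl q x| ≤ q := by
  unfold cl
  rw [abs_le]
  refine ⟨le_max_left _ _, max_le (by linarith) (min_le_left _ _)⟩

theorem cl_sub {q x t : ℝ} (hq : 0 ≤ q) (ht : 0 ≤ t) (hx : |x| ≤ q + t) : |cl q x - x| ≤ t := by
  unfold cl
  rw [abs_le] at hx ⊢
  rcases le_total q x with h | h
  · rw [min_eq_left h, max_eq_right (by linarith)]
    constructor <;> linarith
  · rw [min_eq_right h]
    rcases le_total (-q) x with h' | h'
    · rw [max_eq_right h']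
      constructor <;> linarith
    · rw [max_eq_left h']
      constructor <;> linarith

/-- step (D) -/
theorem stepD (hPH : SpecPH) (F : X N → X N) (th : ℝ)
    (hF : ∀ x : X N, (Finset.univ.image (F x)).card ≤ (Finset.univ.image x).card)
    (U : Set (X N)) (hU : HU F th U) (k : ℕ) (c₀ : X N) (r : ℝ)
    (hc : (Finset.univ.image c₀).card ≤ 2 * k + 3)
    (hr : 3 / (4 * (2 * (k : ℝ) + 3)) < r) (hr2 : r < 3 / (4 * (2 * (k : ℝ) + 1)))
    (hb : box c₀ r ⊆ U) :
    ∃ c : X N, (Finset.univ.image c).card ≤ 2 * k + 3 ∧ box c (th * (r / 3)) ⊆ U := by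
  have hM : (0 : ℝ) < 2 * k + 1 := by positivity
  have hm : (0 : ℝ) < 2 * k + 3 := by positivity
  rw [div_lt_iff₀ (by positivity)] at hr
  rw [lt_div_iff₀ (by positivity)] at hr2
  have hr0 : 0 < r := by
    by_contra hcon
    push Not at hcon
    have : r * (4 * (2 * (k : ℝ) + 3)) ≤ 0 := mul_nonpos_of_nonpos_of_nonneg hcon (by positivity)
    linarith
  set rho : ℝ := (2 * k + 1) * r / 3 + 1 / 4 with hrho
  have hrho0 : 0 ≤ rho := by positivity
  have h1 : 0 < 1 - 2 * rho := by rw [hrho]; linarith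
  have h2 : (2 * (k : ℝ) + 3) * (1 - 2 * rho) < 1 := by
    have e : (2 * (k : ℝ) + 3) * (1 - 2 * rho) =
        (2 * k + 3) / 2 - (2 * k + 1) / 6 * (r * (4 * (2 * (k : ℝ) + 3))) := by
      rw [hrho]; ring
    rw [e]
    have : (2 * (k : ℝ) + 1) / 6 * 3 < (2 * k + 1) / 6 * (r * (4 * (2 * (k : ℝ) + 3))) :=
      mul_lt_mul_of_pos_left hr (by positivity)
    linarith
  obtain ⟨σ, hσ⟩ := hPH (Finset.univ.image (fun i => (2 * k + 1) • c₀ i)) rho hrho0 (by
    have h3 : ((Finset.univ.image (fun i => (2 * k + 1) • c₀ i)).card : ℝ) ≤ 2 * k + 3 := by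
      exact_mod_cast (card_comp c₀ (fun u => (2 * k + 1) • u)).trans hc
    exact lt_of_le_of_lt (mul_le_mul_of_nonneg_right h3 h1.le) h2)
  have hσ' : ∀ i, ‖(2 * k + 1) • c₀ i - σ‖ ≤ rho := by
    intro i
    exact hσ _ (Finset.mem_image.mpr ⟨i, Finset.mem_univ i, rfl⟩)
  set t : ℝ := rep σ with ht
  set n : UnitAddCircle → ℤ := fun u => round ((2 * (k : ℝ) + 1) * rep u - t) with hn
  set d : UnitAddCircle → ℝ := fun u => (t + n u) / (2 * k + 1) - rep u with hd
  set f : UnitAddCircle → UnitAddCircle := fun u => u + ((cl (2 * (r / 3)) (d u) : ℝ) : UnitAddCircle)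
    with hf
  have hdle : ∀ i, |d (c₀ i)| ≤ 2 * (r / 3) + (1 / (4 * (2 * (k : ℝ) + 1)) - r / 3) := by
    intro i
    have e1 : (2 * k + 1) • c₀ i - σ = (((2 * (k : ℝ) + 1) * rep (c₀ i) - t : ℝ) : UnitAddCircle) := by
      rw [AddCircle.coe_sub, ht, coe_rep]
      congr 1
      have e2 : ((2 * (k : ℝ) + 1) * rep (c₀ i) : ℝ) = (2 * k + 1) • rep (c₀ i) := by
        rw [nsmul_eq_mul]; push_cast; ring
      rw [e2, AddCircle.coe_nsmul, coe_rep]
    have e3 := hσ' i
    rw [e1, UnitAddCircle.norm_eq] at e3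
    have e4 : d (c₀ i) = -(((2 * (k : ℝ) + 1) * rep (c₀ i) - t - n (c₀ i)) / (2 * k + 1)) := by
      simp only [hd]
      field_simp
      ring
    rw [e4, abs_neg, abs_div, abs_of_pos hM, div_le_iff₀ hM]
    refine e3.trans (le_of_eq ?_)
    rw [hrho]
    field_simp
    ring
  have hq : 0 ≤ 1 / (4 * (2 * (k : ℝ) + 1)) - r / 3 := by
    rw [sub_nonneg, le_div_iff₀ (by positivity)]
    linarith
  have hf1 : ∀ i, ‖f (c₀ i) - c₀ i‖ ≤ 2 * (r / 3) := by
    intro i
    have e : f (c₀ i) - c₀ i = ((cl (2 * (r / 3)) (d (c₀ i)) : ℝ) : UnitAddCircle) := by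
      simp only [hf]; abel
    rw [e]
    exact (norm_coe_le _).trans (cl_abs (by positivity) _)
  have hf2 : ∀ i j, ‖f (c₀ i) - f (c₀ j)‖ ≤ 1 / 2 - 2 * (r / 3) := by
    intro i j
    have e : ∀ u, f u = ((t / (2 * k + 1) : ℝ) : UnitAddCircle) +
        (((n u : ℝ) / (2 * k + 1) : ℝ) : UnitAddCircle) +
        ((cl (2 * (r / 3)) (d u) - d u : ℝ) : UnitAddCircle) := by
      intro u
      rw [← AddCircle.coe_add, ← AddCircle.coe_add]
      have e2 : (t / (2 * k + 1) + (n u : ℝ) / (2 * k + 1) + (cl (2 * (r / 3)) (d u) - d u) : ℝ) =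
          rep u + cl (2 * (r / 3)) (d u) := by
        simp only [hd]
        ring
      rw [e2, AddCircle.coe_add, coe_rep]
    have e3 : f (c₀ i) - f (c₀ j) =
        ((((n (c₀ i) : ℝ) / (2 * k + 1) : ℝ) : UnitAddCircle) -
          (((n (c₀ j) : ℝ) / (2 * k + 1) : ℝ) : UnitAddCircle)) +
        (((cl (2 * (r / 3)) (d (c₀ i)) - d (c₀ i) : ℝ) : UnitAddCircle) -
          ((cl (2 * (r / 3)) (d (c₀ j)) - d (c₀ j) : ℝ) : UnitAddCircle)) := by
      rw [e, e]; abel
    rw [e3]
    have h3 := norm_frac k (n (c₀ i)) (n (c₀ j))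
    have h4 : ∀ l, ‖((cl (2 * (r / 3)) (d (c₀ l)) - d (c₀ l) : ℝ) : UnitAddCircle)‖ ≤
        1 / (4 * (2 * (k : ℝ) + 1)) - r / 3 := by
      intro l
      exact (norm_coe_le _).trans (cl_sub (by positivity) hq (hdle l))
    refine (norm_add_le _ _).trans ?_
    have h5 := norm_sub_le (((cl (2 * (r / 3)) (d (c₀ i)) - d (c₀ i) : ℝ)) : UnitAddCircle)
      (((cl (2 * (r / 3)) (d (c₀ j)) - d (c₀ j) : ℝ)) : UnitAddCircle)
    have h6 := h4 i
    have h7 := h4 j
    have h8 : 1 / (2 * (2 * (k : ℝ) + 1)) = 2 * (1 / (4 * (2 * (k : ℝ) + 1))) := by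
      field_simp
      norm_num
    rw [h8] at h3
    linarith
  refine ⟨F (fun i => f (c₀ i)), (hF _).trans ((card_comp c₀ f).trans hc), ?_⟩
  apply hU c₀ _ r _ hb
  · intro i
    have := hf1 i
    linarith
  · intro i j
    have := hf2 i j
    linarith

/-- step (E) -/
theorem stepE (hPH : SpecPH) (F : X N → X N) (th : ℝ) (hth : 3 < th)
    (hF : ∀ x : X N, (Finset.univ.image (F x)).card ≤ (Finset.univ.image x).card)
    (U : Set (X N)) (hU : HU F th U) (k : ℕ) (c₀ : X N) (r : ℝ)
    (hc : (Finset.univ.image c₀).card ≤ 2 * k + 3)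
    (hr : 3 / (4 * (2 * (k : ℝ) + 3)) < r) (hb : box c₀ r ⊆ U) :
    ∃ (c : X N) (r' : ℝ), 3 / (4 * (2 * (k : ℝ) + 1)) ≤ r' ∧ box c r' ⊆ U := by
  by_contra hcon
  push Not at hcon
  have hr0 : 0 < r := lt_trans (by positivity) hr
  have hth1 : 1 < th / 3 := by rw [lt_div_iff₀ (by norm_num)]; linarith
  have key : ∀ n : ℕ, ∃ c : X N, (Finset.univ.image c).card ≤ 2 * k + 3 ∧ box c ((th / 3) ^ n * r) ⊆ U := by
    intro n
    induction n with
    | zero => exact ⟨c₀, hc, by simpa using hb⟩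
    | succ n ih =>
      obtain ⟨c, h1, h2⟩ := ih
      have h3 : (th / 3) ^ n * r < 3 / (4 * (2 * (k : ℝ) + 1)) := by
        by_contra h
        exact hcon c _ (not_lt.mp h) h2
      have h4 : 3 / (4 * (2 * (k : ℝ) + 3)) < (th / 3) ^ n * r := by
        have : 1 ≤ (th / 3) ^ n := one_le_pow₀ hth1.le
        nlinarith
      obtain ⟨c', h5, h6⟩ := stepD hPH F th hF U hU k c _ h1 h4 h3 h2
      refine ⟨c', h5, ?_⟩
      have : (th / 3) ^ (n + 1) * r = th * ((th / 3) ^ n * r / 3) := by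
        rw [pow_succ]; ring
      rw [this]
      exact h6
  obtain ⟨n, hn⟩ := pow_unbounded_of_one_lt (3 / (4 * (2 * (k : ℝ) + 1)) / r) hth1
  obtain ⟨c, -, h2⟩ := key n
  refine hcon c _ ?_ h2
  rw [div_lt_iff₀ hr0] at hn
  exact hn.le

theorem main (hPH : SpecPH) (F : X N → X N) (th : ℝ) (hth : 3 < th)
    (hF : ∀ x : X N, (Finset.univ.image (F x)).card ≤ (Finset.univ.image x).card)
    (U : Set (X N)) (hU : HU F th U) (k : ℕ) :
    ∀ (c₀ : X N) (r : ℝ), (Finset.univ.image c₀).card ≤ 2 * k + 1 →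
      3 / (4 * (2 * (k : ℝ) + 1)) < r → box c₀ r ⊆ U → U = Set.univ := by
  induction k with
  | zero =>
    intro c₀ r _ hr hb
    apply Set.eq_univ_of_univ_subset
    intro y _
    apply hb
    intro i
    have h1 := norm_le_half (y i - c₀ i)
    have h2 : (3 : ℝ) / (4 * (2 * ((0 : ℕ) : ℝ) + 1)) = 3 / 4 := by norm_num
    rw [h2] at hr
    linarith
  | succ k ih =>
    intro c₀ r hc hr hb
    have hM : (0 : ℝ) < 2 * k + 1 := by positivity
    obtain ⟨c, r', h1, h2⟩ := stepE hPH F th hth hF U hU k c₀ r (by omega) (by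
      have e : (2 * ((k + 1 : ℕ) : ℝ) + 1) = 2 * (k : ℝ) + 3 := by push_cast; ring
      rw [e] at hr
      exact hr) hb
    obtain ⟨c', h3, h4⟩ := stepC F th hF U hU k c r' h1 h2
    refine ih c' _ h3 ?_ h4
    rw [mul_one_div]
    exact div_lt_div_of_pos_right hth (by positivity)

end MGAux

open MGAux in
theorem specMG (hPH : SpecPH) : SpecMG := by
  intro N F th hth hF U hU c₀ r hr hb
  obtain ⟨k, hk⟩ := exists_nat_gt (3 / (4 * r))
  have hk' : 3 / (4 * (2 * (k : ℝ) + 1)) ≤ r := by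
    rw [div_lt_iff₀ (by positivity)] at hk
    rw [div_le_iff₀ (by positivity)]
    nlinarith
  obtain ⟨c', h3, h4⟩ := stepC F th hF U hU k c₀ r hk' hb
  refine main hPH F th hth hF U hU k c' _ h3 ?_ h4
  rw [mul_one_div]
  exact div_lt_div_of_pos_right hth (by positivity)

end Pool.Agent.Lib.MP_f738c8_an.GC
end

section
/-!
# MP_f738c8_an, hive GC, module MG2: merging on the circle, with the loss factor 2

Strong induction on the number of distinct coordinates of the centre `c` of a box of radius `r` inside `U`.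
If two distinct coordinates are at distance `< 2 r`, merge them. Otherwise call `u`, `v` partners if
`‖u - v - 1/2‖ < r`: partners are unique; write `u - v - 1/2 = t`, `|t| < r`, and move `u` by
`sgn(t) (r - |t|)/2` and `v` by the opposite. Now all pairs satisfy `‖u' - v' - 1/2‖ ≥ r`, so the half box
is mapped affinely, and `F` of it contains a box of radius `th r / 2`.
-/
set_option autoImplicit false

namespace Pool.Agent.Lib.MP_f738c8_an.GC

open MeasureTheory

/-- as `SpecMG`, with `2 < th` -/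
def SpecMG2 : Prop :=
  ∀ {N : ℕ} (F : X N → X N) (th : ℝ), 2 < th →
    (∀ x : X N, (Finset.univ.image (F x)).card ≤ (Finset.univ.image x).card) →
    ∀ U : Set (X N), (∀ (c₀ c₁ : X N) (r p : ℝ), box c₀ r ⊆ U → (∀ i, ‖c₁ i - c₀ i‖ + p ≤ r) →
        (∀ i j, ‖c₁ i - c₁ j‖ + 2 * p ≤ 1 / 2) → box (F c₁) (th * p) ⊆ U) →
      ∀ (c₀ : X N) (r : ℝ), 0 < r → box c₀ r ⊆ U → U = Set.univ

namespace MG2Aux

open MGAux

/-- rounding to the points `n / M`, `M` odd -/
theorem rounding (δ : ℝ) (hδ : 0 < δ) : ∃ (f : UnitAddCircle → UnitAddCircle) (η : ℝ), 0 < η ∧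
    (∀ u, ‖f u - u‖ ≤ δ) ∧ ∀ u v, ‖f u - f v‖ ≤ 1 / 2 - η := by
  obtain ⟨k, hk⟩ := exists_nat_gt (1 / δ)
  have hM : (0 : ℝ) < 2 * k + 1 := by positivity
  refine ⟨fun u => (((round ((2 * (k : ℝ) + 1) * rep u) : ℤ) : ℝ) / (2 * k + 1) : ℝ),
    1 / (2 * (2 * (k : ℝ) + 1)), by positivity, ?_, fun u v => norm_frac k _ _⟩
  intro u
  have e1 : ((((round ((2 * (k : ℝ) + 1) * rep u) : ℤ) : ℝ) / (2 * k + 1) : ℝ) : UnitAddCircle) - u =
      (((((round ((2 * (k : ℝ) + 1) * rep u) : ℤ) : ℝ) / (2 * k + 1) - rep u : ℝ)) :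
      UnitAddCircle) := by
    rw [AddCircle.coe_sub, coe_rep]
  simp only [e1]
  refine (norm_coe_le _).trans ?_
  have e2 : ((round ((2 * (k : ℝ) + 1) * rep u) : ℤ) : ℝ) / (2 * k + 1) - rep u =
      -(((2 * (k : ℝ) + 1) * rep u - ((round ((2 * (k : ℝ) + 1) * rep u) : ℤ) : ℝ)) / (2 * k + 1)) := by
    field_simp
    ring
  rw [e2, abs_neg, abs_div, abs_of_pos hM, div_le_iff₀ hM]
  refine (abs_sub_round _).trans ?_
  rw [div_lt_iff₀ hδ] at hk
  nlinarith

variable {N : ℕ}

/-- two distinct coordinates at distance `< 2 r` can be merged -/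
theorem merge (F : X N → X N) (th : ℝ) (hth : 0 < th)
    (hF : ∀ x : X N, (Finset.univ.image (F x)).card ≤ (Finset.univ.image x).card)
    (U : Set (X N)) (hU : HU F th U) (c : X N) (r : ℝ) (hb : box c r ⊆ U) (i j : Fin N)
    (hij : c i ≠ c j) (hd : ‖c i - c j‖ < 2 * r) :
    ∃ (c' : X N) (r' : ℝ), 0 < r' ∧ (Finset.univ.image c').card < (Finset.univ.image c).card ∧
      box c' r' ⊆ U := by
  obtain ⟨t, h1, h2, h3⟩ := exists_rep (c i - c j)
  have ht : |t| < 2 * r := by rw [← h3]; exact hd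
  obtain ⟨f, η, hη, hf1, hf2⟩ := rounding ((r - |t| / 2) / 2) (by linarith)
  set w : UnitAddCircle := c j + ((t / 2 : ℝ) : UnitAddCircle) with hw
  set m : UnitAddCircle → UnitAddCircle := fun x => if x = c i ∨ x = c j then w else x with hm
  have hmi : m (c i) = w := if_pos (Or.inl rfl)
  have hmj : m (c j) = w := if_pos (Or.inr rfl)
  have hw1 : ‖w - c j‖ ≤ |t| / 2 := by
    rw [hw, add_sub_cancel_left]
    refine (norm_coe_le _).trans (le_of_eq ?_)
    rw [abs_div, abs_of_pos (by norm_num : (0 : ℝ) < 2)]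
  have hw2 : ‖w - c i‖ ≤ |t| / 2 := by
    have e : w - c i = ((-(t / 2) : ℝ) : UnitAddCircle) := by
      have e1 : w - c i = ((t / 2 : ℝ) : UnitAddCircle) - (c i - c j) := by rw [hw]; abel
      rw [e1, ← h1, ← AddCircle.coe_sub]
      congr 1
      ring
    rw [e]
    refine (norm_coe_le _).trans (le_of_eq ?_)
    rw [abs_neg, abs_div, abs_of_pos (by norm_num : (0 : ℝ) < 2)]
  have hm1 : ∀ x, ‖m x - x‖ ≤ |t| / 2 := by
    intro x
    by_cases hx : x = c i ∨ x = c j
    · have e : m x = w := if_pos hx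
      rw [e]
      rcases hx with rfl | rfl
      · exact hw2
      · exact hw1
    · have e : m x = x := if_neg hx
      rw [e, sub_self, norm_zero]
      positivity
  set p : ℝ := min ((r - |t| / 2) / 2) (η / 2) with hp
  have hp0 : 0 < p := lt_min (by linarith) (by linarith)
  refine ⟨F (fun l => f (m (c l))), th * p, by positivity, ?_, ?_⟩
  · refine lt_of_le_of_lt ((hF _).trans (card_comp (fun l => m (c l)) f)) ?_
    refine lt_of_le_of_ne (card_comp c m) fun hcard => hij ?_
    have e : Finset.univ.image (fun l => m (c l)) = (Finset.univ.image c).image m := by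
      rw [Finset.image_image]; rfl
    rw [e, Finset.card_image_iff] at hcard
    exact hcard (by simp) (by simp) (hmi.trans hmj.symm)
  · apply hU c _ r _ hb
    · intro l
      have e : f (m (c l)) - c l = (f (m (c l)) - m (c l)) + (m (c l) - c l) := by abel
      have h4 := norm_add_le (f (m (c l)) - m (c l)) (m (c l) - c l)
      rw [← e] at h4
      have h5 := hf1 (m (c l))
      have h6 := hm1 (c l)
      have h7 : p ≤ (r - |t| / 2) / 2 := min_le_left _ _
      linarith
    · intro l l'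
      have h5 := hf2 (m (c l)) (m (c l'))
      have h7 : p ≤ η / 2 := min_le_right _ _
      linarith

/-- the antipode of zero -/
noncomputable abbrev hh : UnitAddCircle := ((1 / 2 : ℝ) : UnitAddCircle)

theorem hh_neg : -hh = hh := by
  have h : hh + hh = 0 := by
    rw [← AddCircle.coe_add]
    have : (1 / 2 + 1 / 2 : ℝ) = 1 := by norm_num
    rw [this, AddCircle.coe_period]
  exact neg_eq_of_add_eq_zero_left h

theorem g_neg {u : UnitAddCircle} (hu : ‖u‖ < 1 / 2) : g (-u) = -g u := by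
  obtain ⟨t, h1, -, h3⟩ := exists_rep u
  rw [h3] at hu
  rw [← h1, ← AddCircle.coe_neg, g_coe hu, g_coe (by rw [abs_neg]; exact hu)]

/-- the offset of a near antipodal pair -/
noncomputable def tt (u a : UnitAddCircle) : ℝ := g (u - a - hh)

open Classical in
/-- the direction in which `u` is moved away from `a + 1/2` -/
noncomputable def sg (u a : UnitAddCircle) : ℝ :=
  if 0 < tt u a ∨ (tt u a = 0 ∧ rep u < rep a) then 1 else -1

theorem sub_swap (u a : UnitAddCircle) : a - u - hh = -(u - a - hh) := by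
  have : a - u - hh = -(u - a - -hh) := by abel
  rw [this, hh_neg]

theorem tt_swap {u a : UnitAddCircle} (h : ‖u - a - hh‖ < 1 / 2) : tt a u = -tt u a := by
  unfold tt
  rw [sub_swap, g_neg h]

theorem rep_inj {u a : UnitAddCircle} (h : rep u = rep a) : u = a := by
  rw [← coe_rep u, h, coe_rep]

theorem sg_swap {u a : UnitAddCircle} (h : ‖u - a - hh‖ < 1 / 2) (hne : u ≠ a) : sg a u = -sg u a := by
  unfold sg
  rw [tt_swap h]
  rcases lt_trichotomy (tt u a) 0 with h1 | h1 | h1
  · rw [if_pos (Or.inl (by linarith)), if_neg]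
    · norm_num
    · rintro (h2 | ⟨h2, -⟩) <;> linarith
  · rcases lt_trichotomy (rep u) (rep a) with h2 | h2 | h2
    · rw [if_neg, if_pos (Or.inr ⟨h1, h2⟩)]
      rintro (h3 | ⟨-, h3⟩) <;> linarith
    · exact absurd (rep_inj h2) hne
    · rw [if_pos (Or.inr ⟨by linarith, h2⟩), if_neg]
      · norm_num
      · rintro (h3 | ⟨-, h3⟩) <;> linarith
  · rw [if_neg, if_pos (Or.inl h1)]
    rintro (h2 | ⟨h2, -⟩) <;> linarith

theorem sg_abs (u a : UnitAddCircle) : |sg u a| = 1 := by
  unfold sg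
  split_ifs <;> norm_num

theorem tt_eq (u a : UnitAddCircle) : tt u a = sg u a * |tt u a| := by
  unfold sg
  split_ifs with h
  · rw [one_mul, abs_of_nonneg]
    rcases h with h | ⟨h, -⟩
    · exact h.le
    · exact h.ge
  · push Not at h
    rw [abs_of_nonpos h.1]
    ring

theorem abs_tt {u a : UnitAddCircle} (h : ‖u - a - hh‖ < 1 / 2) : |tt u a| = ‖u - a - hh‖ := abs_g h

theorem coe_tt {u a : UnitAddCircle} (h : ‖u - a - hh‖ < 1 / 2) :
    ((tt u a : ℝ) : UnitAddCircle) = u - a - hh := coe_g h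

/-- the displacement of `u` in the pair `(u, a)` -/
noncomputable def dd (r : ℝ) (u a : UnitAddCircle) : ℝ := sg u a * ((r - |tt u a|) / 2)

theorem dd_swap {r : ℝ} {u a : UnitAddCircle} (h : ‖u - a - hh‖ < 1 / 2) (hne : u ≠ a) :
    dd r a u = -dd r u a := by
  unfold dd
  rw [sg_swap h hne, tt_swap h, abs_neg]
  ring

theorem dd_abs {r : ℝ} {u a : UnitAddCircle} (h : |tt u a| ≤ r) : |dd r u a| = (r - |tt u a|) / 2 := by
  unfold dd
  rw [abs_mul, sg_abs, one_mul, abs_of_nonneg (by linarith)]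

/-- after the move, `u` is still close to `a + 1/2` -/
theorem dd_close {r : ℝ} {u a : UnitAddCircle} (h : ‖u - a - hh‖ < 1 / 2) (hr : 0 ≤ r) :
    ‖u + ((dd r u a : ℝ) : UnitAddCircle) - a - hh‖ ≤ (r + |tt u a|) / 2 := by
  have e : u + ((dd r u a : ℝ) : UnitAddCircle) - a - hh =
      ((sg u a * ((r + |tt u a|) / 2) : ℝ) : UnitAddCircle) := by
    have e1 : u + ((dd r u a : ℝ) : UnitAddCircle) - a - hh =
        ((tt u a + dd r u a : ℝ) : UnitAddCircle) := by
      rw [AddCircle.coe_add, coe_tt h]; abel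
    rw [e1]
    congr 1
    have e2 := tt_eq u a
    unfold dd
    linear_combination e2
  rw [e]
  refine (norm_coe_le _).trans (le_of_eq ?_)
  rw [abs_mul, sg_abs, one_mul, abs_of_nonneg (by positivity)]

/-- after the move, the pair is at distance `r` from being antipodal -/
theorem dd_pair {r : ℝ} {u a : UnitAddCircle} (h : ‖u - a - hh‖ < 1 / 2) (hne : u ≠ a) (hr : 0 ≤ r)
    (hr2 : r ≤ 1 / 2) :
    ‖u + ((dd r u a : ℝ) : UnitAddCircle) - (a + ((dd r a u : ℝ) : UnitAddCircle)) - hh‖ = r := by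
  have e : u + ((dd r u a : ℝ) : UnitAddCircle) - (a + ((dd r a u : ℝ) : UnitAddCircle)) - hh =
      ((sg u a * r : ℝ) : UnitAddCircle) := by
    have e1 : u + ((dd r u a : ℝ) : UnitAddCircle) - (a + ((dd r a u : ℝ) : UnitAddCircle)) - hh =
        ((tt u a + dd r u a - dd r a u : ℝ) : UnitAddCircle) := by
      rw [AddCircle.coe_sub, AddCircle.coe_add, coe_tt h]; abel
    rw [e1, dd_swap h hne]
    congr 1
    have e2 := tt_eq u a
    unfold dd
    linear_combination e2
  have e3 : |sg u a * r| = r := by rw [abs_mul, sg_abs, one_mul, abs_of_nonneg hr]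
  rw [e, norm_coe (by rw [e3]; exact hr2), e3]

open Classical in
/-- the growth step -/
theorem grow (F : X N → X N) (th : ℝ) (U : Set (X N)) (hU : HU F th U) (c : X N) (r : ℝ) (hr : 0 < r)
    (hr2 : r ≤ 1 / 2) (hb : box c r ⊆ U) (hsep : ∀ i j, c i ≠ c j → 2 * r ≤ ‖c i - c j‖) :
    ∃ f : UnitAddCircle → UnitAddCircle, box (F (fun i => f (c i))) (th * (r / 2)) ⊆ U := by
  -- partners
  set P : UnitAddCircle → UnitAddCircle → Prop :=
    fun u a => a ∈ Set.range c ∧ ‖u - a - hh‖ < r with hP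
  have hsep' : ∀ u ∈ Set.range c, ∀ v ∈ Set.range c, u ≠ v → 2 * r ≤ ‖u - v‖ := by
    rintro _ ⟨i, rfl⟩ _ ⟨j, rfl⟩ h
    exact hsep i j h
  have huniq : ∀ u a b, P u a → P u b → a = b := by
    intro u a b ha hb'
    by_contra hne
    have h1 := hsep' a ha.1 b hb'.1 hne
    have e : a - b = (u - b - hh) - (u - a - hh) := by abel
    have h2 := norm_sub_le (u - b - hh) (u - a - hh)
    rw [← e] at h2
    linarith [ha.2, hb'.2]
  set e : UnitAddCircle → ℝ := fun u => if h : ∃ a, P u a then dd r u h.choose else 0 with he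
  set τ : UnitAddCircle → ℝ := fun u => if h : ∃ a, P u a then |tt u h.choose| else r with hτ
  have hmatch : ∀ u a, P u a → e u = dd r u a ∧ τ u = |tt u a| := by
    intro u a ha
    have hex : ∃ a, P u a := ⟨a, ha⟩
    have h1 : hex.choose = a := huniq u _ _ hex.choose_spec ha
    constructor
    · rw [he]; simp only [dif_pos hex, h1]
    · rw [hτ]; simp only [dif_pos hex, h1]
  have hun : ∀ u, (¬ ∃ a, P u a) → e u = 0 ∧ τ u = r := by
    intro u hu
    constructor
    · rw [he]; simp only [dif_neg hu]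
    · rw [hτ]; simp only [dif_neg hu]
  have hτr : ∀ u a, P u a → τ u < r := by
    intro u a ha
    rw [(hmatch u a ha).2, abs_tt (by linarith [ha.2])]
    exact ha.2
  have habs : ∀ u, |e u| = (r - τ u) / 2 := by
    intro u
    by_cases h : ∃ a, P u a
    · obtain ⟨a, ha⟩ := h
      have h1 := hτr u a ha
      rw [(hmatch u a ha).2] at h1
      rw [(hmatch u a ha).1, (hmatch u a ha).2]
      exact dd_abs h1.le
    · rw [(hun u h).1, (hun u h).2]
      simp
  have hτ0 : ∀ u, 0 ≤ τ u := by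
    intro u
    by_cases h : ∃ a, P u a
    · obtain ⟨a, ha⟩ := h
      rw [(hmatch u a ha).2]
      exact abs_nonneg _
    · rw [(hun u h).2]; exact hr.le
  -- the main estimate
  have main : ∀ u ∈ Set.range c, ∀ v ∈ Set.range c, u ≠ v → τ u ≤ τ v →
      r ≤ ‖u + ((e u : ℝ) : UnitAddCircle) - (v + ((e v : ℝ) : UnitAddCircle)) - hh‖ := by
    intro u hu v hv huv hle
    by_cases hPuv : P u v
    · have hPvu : P v u := by
        refine ⟨hu, ?_⟩
        rw [sub_swap, norm_neg]
        exact hPuv.2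
      rw [(hmatch u v hPuv).1, (hmatch v u hPvu).1]
      exact (dd_pair (by linarith [hPuv.2]) huv hr.le hr2).ge
    · by_cases h : ∃ a, P u a
      · obtain ⟨a, ha⟩ := h
        have hav : a ≠ v := by
          rintro rfl
          exact hPuv ha
        have h1 := hsep' a ha.1 v hv hav
        have h2 := dd_close (r := r) (u := u) (a := a) (by linarith [ha.2]) hr.le
        rw [← (hmatch u a ha).1, ← (hmatch u a ha).2] at h2
        have h3 : ‖((e v : ℝ) : UnitAddCircle)‖ ≤ (r - τ v) / 2 :=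
          (norm_coe_le _).trans (habs v).le
        have e4 : a - v = (u + ((e u : ℝ) : UnitAddCircle) - (v + ((e v : ℝ) : UnitAddCircle)) - hh) -
            (u + ((e u : ℝ) : UnitAddCircle) - a - hh) + ((e v : ℝ) : UnitAddCircle) := by abel
        have h5 := norm_add_le ((u + ((e u : ℝ) : UnitAddCircle) -
          (v + ((e v : ℝ) : UnitAddCircle)) - hh) - (u + ((e u : ℝ) : UnitAddCircle) - a - hh))
          ((e v : ℝ) : UnitAddCircle)
        rw [← e4] at h5
        have h6 := norm_sub_le (u + ((e u : ℝ) : UnitAddCircle) -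
          (v + ((e v : ℝ) : UnitAddCircle)) - hh) (u + ((e u : ℝ) : UnitAddCircle) - a - hh)
        linarith
      · have h1 := hun u h
        have h2 : ¬ ∃ a, P v a := by
          rintro ⟨b, hb'⟩
          have := hτr v b hb'
          linarith [h1.2]
        rw [h1.1, (hun v h2).1]
        have h3 : r ≤ ‖u - v - hh‖ := by
          by_contra hlt
          exact hPuv ⟨hv, not_le.mp hlt⟩
        simpa using h3
  have main2 : ∀ u ∈ Set.range c, ∀ v ∈ Set.range c, u ≠ v →
      r ≤ ‖u + ((e u : ℝ) : UnitAddCircle) - (v + ((e v : ℝ) : UnitAddCircle)) - hh‖ := by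
    intro u hu v hv huv
    rcases le_total (τ u) (τ v) with h | h
    · exact main u hu v hv huv h
    · have h1 := main v hv u hu (Ne.symm huv) h
      rw [sub_swap, norm_neg] at h1
      exact h1
  refine ⟨fun u => u + ((e u : ℝ) : UnitAddCircle), ?_⟩
  apply hU c _ r _ hb
  · intro i
    have h1 : c i + ((e (c i) : ℝ) : UnitAddCircle) - c i = ((e (c i) : ℝ) : UnitAddCircle) := by abel
    simp only [h1]
    have h2 := (norm_coe_le (e (c i))).trans (habs (c i)).le
    have h3 := hτ0 (c i)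
    linarith
  · intro i j
    by_cases hij : c i = c j
    · rw [hij, sub_self, norm_zero]
      linarith
    · have h1 := main2 (c i) ⟨i, rfl⟩ (c j) ⟨j, rfl⟩ hij
      have h2 := CSM.norm_sub_half (c i + ((e (c i) : ℝ) : UnitAddCircle) -
        (c j + ((e (c j) : ℝ) : UnitAddCircle)))
      simp only
      linarith

end MG2Aux

open MGAux MG2Aux in
theorem specMG2 : SpecMG2 := by
  intro N F th hth hF U hU
  have hU' : HU F th U := hU
  have key : ∀ k : ℕ, ∀ (c₀ : X N) (r : ℝ), 0 < r → (Finset.univ.image c₀).card = k →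
      box c₀ r ⊆ U → U = Set.univ := by
    intro k
    induction k using Nat.strong_induction_on with
    | _ k ih =>
      intro c₀ r hr hk hb
      by_contra hne
      have huniv : ∀ (c : X N) (s : ℝ), 1 / 2 < s → ¬ box c s ⊆ U := by
        intro c s hs hsub
        apply hne
        apply Set.eq_univ_of_univ_subset
        intro y _
        apply hsub
        intro i
        exact lt_of_le_of_lt (norm_le_half _) hs
      have hno : ∀ (c : X N) (s : ℝ), 0 < s → (Finset.univ.image c).card < k → ¬ box c s ⊆ U := by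
        intro c s hs hc hsub
        exact hne (ih _ hc c s hs rfl hsub)
      have hgrow : ∀ n : ℕ, ∃ c : X N, (Finset.univ.image c).card = k ∧ box c ((th / 2) ^ n * r) ⊆ U := by
        intro n
        induction n with
        | zero => exact ⟨c₀, hk, by simpa using hb⟩
        | succ n ihn =>
          obtain ⟨c, h1, h2⟩ := ihn
          set s : ℝ := (th / 2) ^ n * r with hs
          have hs0 : 0 < s := by
            have : 0 < th / 2 := by linarith
            positivity
          have hs2 : s ≤ 1 / 2 := by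
            by_contra hcon
            exact huniv c s (not_le.mp hcon) h2
          have hsep : ∀ i j, c i ≠ c j → 2 * s ≤ ‖c i - c j‖ := by
            intro i j hij
            by_contra hlt
            obtain ⟨c', r', h3, h4, h5⟩ := merge F th (by linarith) hF U hU' c s h2 i j hij
              (not_le.mp hlt)
            exact hno c' r' h3 (by omega) h5
          obtain ⟨f, hf⟩ := grow F th U hU' c s hs0 hs2 h2 hsep
          refine ⟨F (fun i => f (c i)), ?_, ?_⟩
          · by_contra hcard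
            have h6 : (Finset.univ.image (F (fun i => f (c i)))).card ≤ (Finset.univ.image c).card :=
              (hF _).trans (card_comp c f)
            exact hno _ _ (by positivity) (by omega) hf
          · have e : (th / 2) ^ (n + 1) * r = th * (s / 2) := by
              rw [pow_succ, hs]; ring
            rw [e]
            exact hf
      obtain ⟨n, hn⟩ := pow_unbounded_of_one_lt (1 / 2 / r) (show 1 < th / 2 by linarith)
      obtain ⟨c, -, h2⟩ := hgrow n
      refine huniv c _ ?_ h2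
      rw [div_lt_iff₀ hr] at hn
      exact hn
  intro c₀ r hr hb
  exact key _ c₀ r hr rfl hb

end Pool.Agent.Lib.MP_f738c8_an.GC
end

section
/-!
# MP_f738c8_an, hive GC: forward invariant sets are null or full, and the theorem, for `|D| ≥ 3`

The proofs are those of `ER`, `FIN` with `SpecMG2` in place of `SpecMG`.
-/
set_option autoImplicit false

namespace Pool.Agent.Lib.MP_f738c8_an.GC

open MeasureTheory

/-- forward invariant sets are null or full -/
def SpecER2 : Prop :=
  ∀ (D : ℤ) (c : UnitAddCircle) (eps : ℝ) (N : ℕ), 1 ≤ N → 0 ≤ eps → eps < 1 →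
    2 < |(D : ℝ)| * (1 - eps) / (1 + eps) → ∀ S : Set (X N), MeasurableSet S →
      volume (S \ Fm D c eps N ⁻¹' S) = 0 → volume S = 0 ∨ volume Sᶜ = 0

/-- the theorem -/
def SpecMain2 : Prop :=
  ∀ (D : ℤ) (c : UnitAddCircle) (eps : ℝ) (N : ℕ), 1 ≤ N → 3 ≤ |D| → 0 ≤ eps →
    eps < (|(D : ℝ)| - 2) / (|(D : ℝ)| + 2) → ∃! mu : Measure (X N), IsAcim (Fm D c eps N) mu

open ACAux ERAux

theorem specER2 (hSY : SpecSY) (hTR : SpecTR) (hGD : SpecGD) (hPF : SpecPF) (hOB : SpecOB)
    (hLOC : SpecLOC) (hBX : SpecBX) (hMG : SpecMG2) : SpecER2 := by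
  intro D c eps N hN he0 he1 hth S hS hinv
  have hth1 : 1 < |(D : ℝ)| * (1 - eps) / (1 + eps) := by linarith
  have hD : D ≠ 0 := by
    rintro rfl
    norm_num at hth1
  set F := Fm D c eps N with hF
  by_cases hS0 : volume S = 0
  · exact Or.inl hS0
  right
  obtain ⟨C1, hS1⟩ := hSY D c eps N hN he0 he1 hth1 1 le_rfl
  have hmeas : Measurable F := by simpa using hS1.meas
  have huac : UAC (volume : Measure (X N)) F := specAC hSY hTR hGD hPF D c eps N hN he0 he1 hth1
  obtain ⟨m, C, L, th, K, hm, hK, hSys, hg⟩ := goodAll hSY hTR hGD D c eps N hN he0 he1 hth1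
  have hne : (Full S).Nonempty := by
    refine hOB _ _ L th C hSys K hK hg S hS hS0 fun n => ?_
    rw [← Function.iterate_mul]
    exact iter_null hmeas huac hS hinv (m * n)
  obtain ⟨x, r, hr, hx⟩ := hne
  have hbox : box x (r / 2) ⊆ Full S := by
    intro y hy
    refine ⟨r / 2, by linarith, measure_mono_null ?_ hx⟩
    refine Set.sdiff_subset_sdiff_left (box_subset_box ?_)
    have e : r - r / 2 = r / 2 := by ring
    rw [e]; exact hy
  have hU : Full S = Set.univ :=
    hMG F _ hth (card_image_Fm D c eps N) (Full S)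
      (hBX D c eps N hD he0 he1 (Full S) (hLOC D c eps N hD he0 he1 S hS hinv)) x (r / 2)
      (by linarith) hbox
  refine measure_null_of_locally_null _ fun y _ => ?_
  obtain ⟨s, hs, hy⟩ : y ∈ Full S := by rw [hU]; exact Set.mem_univ y
  refine ⟨box y s \ S, ?_, hy⟩
  rw [Set.sdiff_eq, Set.inter_comm]
  exact inter_mem_nhdsWithin _ ((box_isOpen y s).mem_nhds (mem_box_self y hs))


theorem specMain2 (hSY : SpecSY) (hTR : SpecTR) (hGD : SpecGD) (hPF : SpecPF) (hOB : SpecOB)
    (hLOC : SpecLOC) (hBX : SpecBX) (hMG : SpecMG2) (hUL : SpecUL) (hUQ : SpecUQ) : SpecMain2 := by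
  intro D c eps N hN hD he0 he
  have hD' : (3 : ℝ) ≤ |(D : ℝ)| := by
    rw [← Int.cast_abs]
    exact_mod_cast hD
  have hDp : 0 < |(D : ℝ)| + 2 := by linarith
  have he' : eps * (|(D : ℝ)| + 2) < |(D : ℝ)| - 2 := by rwa [lt_div_iff₀ hDp] at he
  have he1 : eps < 1 := by
    by_contra h
    push Not at h
    nlinarith
  have hth : 2 < |(D : ℝ)| * (1 - eps) / (1 + eps) := by
    rw [lt_div_iff₀ (by linarith)]
    linarith
  have hth1 : 1 < |(D : ℝ)| * (1 - eps) / (1 + eps) := by linarith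
  obtain ⟨C1, hS1⟩ := hSY D c eps N hN he0 he1 hth1 1 le_rfl
  have hmeas : Measurable (Fm D c eps N) := by simpa using hS1.meas
  obtain ⟨mu, h1, h2, h3⟩ := hUL (volume : Measure (X N)) (Fm D c eps N) hmeas
    (specAC hSY hTR hGD hPF D c eps N hN he0 he1 hth1)
  refine ⟨mu, ⟨h1, h2, h3⟩, ?_⟩
  rintro nu ⟨h4, h5, h6⟩
  exact hUQ (volume : Measure (X N)) (Fm D c eps N) hmeas
    (specER2 hSY hTR hGD hPF hOB hLOC hBX hMG D c eps N hN he0 he1 hth) nu mu h4 h1 h5 h2 h6 h3

end Pool.Agent.Lib.MP_f738c8_an.GC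
end

section
/-!
# MP_f738c8_an: module GD, the good sets
-/
set_option autoImplicit false

namespace Pool.Agent.Lib.MP_f738c8_an.GC

open MeasureTheory

namespace GDAux

theorem iterate_meas {α : Type} [MeasurableSpace α] {H : α → α} (hH : Measurable H) (q : ℕ) :
    Measurable H^[q] := hH.iterate q

theorem near_meas {N : ℕ} {H : X N → X N} (hH : Measurable H) (C : Finset UnitAddCircle) (q : ℕ)
    (e : ℝ) : MeasurableSet (Near H C q e) := by
  have hI : Measurable H^[q] := hH.iterate q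
  have h1 : Near H C q e = ⋃ (i : Fin N), ⋃ (j : Fin N), ⋃ (_ : i ≠ j), ⋃ c ∈ C,
      {x : X N | ‖(H^[q] x) i - (H^[q] x) j - c‖ ≤ e} := by
    ext x
    simp only [Near, Set.mem_setOf_eq, Set.mem_iUnion, exists_prop]
  rw [h1]
  refine MeasurableSet.iUnion fun i => MeasurableSet.iUnion fun j => MeasurableSet.iUnion fun _ =>
    Finset.measurableSet_biUnion C fun c _ => ?_
  have h2 : Measurable fun x : X N => ‖(H^[q] x) i - (H^[q] x) j - c‖ := by
    have hi : Measurable fun x : X N => (H^[q] x) i := (measurable_pi_apply i).comp hI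
    have hj : Measurable fun x : X N => (H^[q] x) j := (measurable_pi_apply j).comp hI
    exact ((hi.sub hj).sub_const c).norm
  exact measurableSet_le h2 measurable_const

theorem geom_sum {L : ℝ} (hL : 1 < L) (b : ℕ) :
    ∑ q ∈ Finset.range b, 1 / L ^ (b - q) ≤ 1 / (L - 1) := by
  have h0 : 0 < L := by linarith
  have h1 : 0 < L - 1 := by linarith
  induction b with
  | zero => simp only [Finset.range_zero, Finset.sum_empty]; positivity
  | succ b ih =>
    rw [Finset.sum_range_succ]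
    have h2 : ∑ q ∈ Finset.range b, 1 / L ^ (b + 1 - q) =
        (∑ q ∈ Finset.range b, 1 / L ^ (b - q)) / L := by
      rw [Finset.sum_div]
      refine Finset.sum_congr rfl fun q hq => ?_
      have h3 : b + 1 - q = (b - q) + 1 := by
        have := Finset.mem_range.mp hq
        omega
      rw [h3, pow_succ, div_div]
    have h4 : b + 1 - b = 1 := by omega
    rw [h2, h4, pow_one]
    have h5 : (∑ q ∈ Finset.range b, 1 / L ^ (b - q)) / L ≤ 1 / (L - 1) / L :=
      div_le_div_of_nonneg_right ih h0.le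
    calc (∑ q ∈ Finset.range b, 1 / L ^ (b - q)) / L + 1 / L ≤ 1 / (L - 1) / L + 1 / L := by linarith
      _ = 1 / (L - 1) := by field_simp; ring

end GDAux

/-- MODULE GD -/
theorem specGD (hIT : SpecIT) : SpecGD := by
  intro N H B L th C hS K b hK hq d hd
  have hL0 : 0 < L := by linarith [hS.one_lt_L]
  refine ⟨⋃ q ∈ Finset.range b, Near H C q (2 * d / L ^ (b - q)),
    Finset.measurableSet_biUnion _ fun q _ => GDAux.near_meas hS.meas C q _, ?_, ?_⟩
  · calc volume.real (⋃ q ∈ Finset.range b, Near H C q (2 * d / L ^ (b - q)))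
        ≤ ∑ q ∈ Finset.range b, volume.real (Near H C q (2 * d / L ^ (b - q))) :=
          measureReal_biUnion_finset_le _ _
      _ ≤ ∑ q ∈ Finset.range b, K * (2 * d / L ^ (b - q)) := by
          refine Finset.sum_le_sum fun q hqb => hq q (Finset.mem_range.mp hqb) _ ?_
          positivity
      _ = 2 * K * d * ∑ q ∈ Finset.range b, 1 / L ^ (b - q) := by
          rw [Finset.mul_sum]
          refine Finset.sum_congr rfl fun q _ => ?_
          ring
      _ ≤ 2 * K * d * (1 / (L - 1)) :=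
          mul_le_mul_of_nonneg_left (GDAux.geom_sum hS.one_lt_L b) (by positivity)
      _ = 2 * K / (L - 1) * d := by ring
  · intro x hx v hv
    refine hIT H B L th C hS b x v fun q hqb i j => ?_
    by_cases hij : i = j
    · left; rw [hij]
    · right
      intro c hc
      have hx' : x ∉ Near H C q (2 * d / L ^ (b - q)) := fun hmem =>
        hx (Set.mem_iUnion₂.mpr ⟨q, Finset.mem_range.mpr hqb, hmem⟩)
      have h1 : ¬ ‖(H^[q] x) i - (H^[q] x) j - c‖ ≤ 2 * d / L ^ (b - q) := fun hle =>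
        hx' ⟨i, j, hij, c, hc, hle⟩
      have h2 : |v i - v j| ≤ 2 * d := by
        have h3 := abs_sub (v i) (v j)
        have h4 := hv i
        have h5 := hv j
        linarith
      have hp : 0 < L ^ (b - q) := by positivity
      exact lt_of_le_of_lt (div_le_div_of_nonneg_right h2 hp.le) (not_le.mp h1)

end Pool.Agent.Lib.MP_f738c8_an.GC
end

section
/-!
# MP_f738c8_an, hive GC: iteration of local affinity
-/
set_option autoImplicit false

namespace Pool.Agent.Lib.MP_f738c8_an.GC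

open MeasureTheory

namespace ITAux

theorem diff_iter {N : ℕ} {H : X N → X N} {B : (Fin N → ℝ) → (Fin N → ℝ)} {L th : ℝ}
    {C : Finset UnitAddCircle} (hS : Sys H B L th C) (b : ℕ) (v : Fin N → ℝ) (i j : Fin N) :
    |B^[b] v i - B^[b] v j| = |v i - v j| / L ^ b := by
  have hL : L ≠ 0 := by have := hS.one_lt_L; positivity
  induction b with
  | zero => simp
  | succ b ih =>
    rw [Function.iterate_succ_apply', hS.diff, ih, pow_succ]
    field_simp

end ITAux

open ITAux

theorem specIT : SpecIT := by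
  intro N H B L th C hS b
  have hL : L ≠ 0 := by have := hS.one_lt_L; positivity
  induction b with
  | zero => intro x v _; simp
  | succ b ih =>
    intro x v h
    rw [Function.iterate_succ_apply' B, Function.iterate_succ_apply, Function.iterate_succ_apply]
    rw [hS.loc x (B^[b] v), ih (H x) v]
    · intro q hq i j
      rcases h (q + 1) (by omega) i j with h1 | h1
      · exact Or.inl h1
      · right
        intro c hc
        have h2 := h1 c hc
        rw [Function.iterate_succ_apply] at h2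
        have e : b + 1 - (q + 1) = b - q := by omega
        rwa [e] at h2
    · intro i j
      rcases h 0 (Nat.succ_pos b) i j with h1 | h1
      · left
        have h2 := diff_iter hS (b + 1) v i j
        rw [h1, sub_self, abs_zero, zero_div, abs_eq_zero, sub_eq_zero, Function.iterate_succ_apply'] at h2
        exact h2
      · right
        intro c hc
        have h2 := h1 c hc
        have h3 := diff_iter hS (b + 1) v i j
        rw [Function.iterate_succ_apply'] at h3
        rw [h3]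
        simpa using h2

end Pool.Agent.Lib.MP_f738c8_an.GC
end

section
/-!
# Hive GC, module LOC: the local lemma for `Full S`
-/
set_option autoImplicit false

namespace Pool.Agent.Lib.MP_f738c8_an.GC

open MeasureTheory

namespace LOCAux

/-- the half open cube -/
def cube (N : ℕ) : Set (Fin N → ℝ) :=
  Set.pi Set.univ fun _ => Set.Ioc (-(1 / 2) : ℝ) (-(1 / 2) + 1)

theorem Q_eq (N : ℕ) : Q N = (volume : Measure (Fin N → ℝ)).restrict (cube N) := by
  unfold Q cube
  rw [volume_pi, Measure.restrict_pi_pi]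

theorem nullMeas_cube (N : ℕ) : NullMeasurableSet (cube N) (volume : Measure (Fin N → ℝ)) :=
  (MeasurableSet.pi Set.countable_univ fun _ _ => measurableSet_Ioc).nullMeasurableSet

theorem abs_le_of_mem_cube {N : ℕ} {v : Fin N → ℝ} (hv : v ∈ cube N) (i : Fin N) : |v i| ≤ 1 / 2 := by
  have h := hv i (Set.mem_univ i)
  rw [abs_le]
  exact ⟨h.1.le, by linarith [h.2]⟩

theorem mem_cube_of_lt {N : ℕ} {v : Fin N → ℝ} (hv : ∀ i, |v i| < 1 / 2) : v ∈ cube N := by
  intro i _
  have h := abs_lt.mp (hv i)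
  exact ⟨h.1, by linarith [h.2]⟩

/-- pull back of a null set of the torus -/
theorem null_pull {N : ℕ} (y : X N) {E : Set (X N)} (hE : volume E = 0) :
    volume ({v : Fin N → ℝ | y + pr v ∈ E} ∩ cube N) = 0 := by
  have h1 : Q N {v : Fin N → ℝ | y + pr v ∈ E} = 0 := by
    have h2 : volume ((fun z : X N => y + z) ⁻¹' E) = 0 := by
      rw [measure_preimage_add]
      exact hE
    exact (pr_mp N).quasiMeasurePreserving.preimage_null h2
  rw [Q_eq, Measure.restrict_apply₀' (nullMeas_cube N)] at h1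
  exact h1

theorem measurable_box {N : ℕ} (x : X N) (r : ℝ) : MeasurableSet (box x r) := by
  have : box x r = ⋂ i, {y : X N | ‖y i - x i‖ < r} := by
    ext y; simp [box]
  rw [this]
  refine MeasurableSet.iInter fun i => ?_
  have hm : Measurable fun y : X N => ‖y i - x i‖ := by
    have hc : Continuous fun y : X N => ‖y i - x i‖ := by fun_prop
    exact hc.measurable
  exact measurableSet_lt hm measurable_const

/-- push forward: if the set of bad vectors is null, the bad part of the box is null -/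
theorem null_push {N : ℕ} (z : X N) {ρ : ℝ} {S : Set (X N)} (hS : MeasurableSet S)
    (h : volume {w : Fin N → ℝ | (∀ i, |w i| < ρ) ∧ z + pr w ∉ S} = 0) :
    volume (box z ρ \ S) = 0 := by
  have hM : MeasurableSet (box z ρ \ S) := (measurable_box z ρ).diff hS
  have h2 : volume ((fun x : X N => z + x) ⁻¹' (box z ρ \ S)) = volume (box z ρ \ S) :=
    measure_preimage_add _ _ _
  rw [← h2, ← (pr_mp N).measure_preimage ((measurable_const_add z hM).nullMeasurableSet), Q_eq,
    Measure.restrict_apply₀' (nullMeas_cube N)]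
  refine measure_mono_null ?_ h
  rintro v ⟨⟨h3, h4⟩, h5⟩
  refine ⟨fun i => ?_, h4⟩
  have h6 := h3 i
  have h7 : (z + pr v) i - z i = ((v i : ℝ) : UnitAddCircle) := by
    simp [pr]
  rw [h7, norm_coe (abs_le_of_mem_cube h5 i)] at h6
  exact h6

end LOCAux

open LOCAux in
theorem specLOC : SpecLOC := by
  intro D c eps N hD he0 he1 S hS hinv y hy hclose
  obtain ⟨r, hr, hnull⟩ := hy
  rcases Nat.eq_zero_or_pos N with rfl | hNpos
  · have : Fm D c eps 0 y = y := by
      funext i; exact i.elim0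
    rw [this]
    exact ⟨r, hr, hnull⟩
  have hN0 : N ≠ 0 := hNpos.ne'
  have : Nonempty (Fin N) := ⟨⟨0, hNpos⟩⟩
  -- choose rho
  obtain ⟨m, hm1, hm2⟩ : ∃ m : ℝ, m < 1 / 2 ∧ ∀ i j, ‖y i - y j‖ ≤ m := by
    obtain ⟨p, hp⟩ := Finite.exists_max fun q : Fin N × Fin N => ‖y q.1 - y q.2‖
    exact ⟨_, hclose p.1 p.2, fun i j => hp (i, j)⟩
  have hm0 : 0 ≤ m := (norm_nonneg _).trans (hm2 ⟨0, hNpos⟩ ⟨0, hNpos⟩)
  set ρ : ℝ := min r ((1 / 2 - m) / 4) with hρ
  have hρ0 : 0 < ρ := lt_min hr (by linarith)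
  have hρr : ρ ≤ r := min_le_left _ _
  have hρm : ρ ≤ (1 / 2 - m) / 4 := min_le_right _ _
  have hDR : (D : ℝ) ≠ 0 := by exact_mod_cast hD
  have hDp : 0 < |(D : ℝ)| := abs_pos.mpr hDR
  have h1e : 0 < 1 - eps := by linarith
  set κ : ℝ := (1 + eps) / (|(D : ℝ)| * (1 - eps)) with hκ
  have hκ0 : 0 < κ := by rw [hκ]; positivity
  set ρ' : ℝ := ρ / (2 * κ) with hρ'
  have hρ'0 : 0 < ρ' := by rw [hρ']; positivity
  have hκρ : κ * ρ' < ρ := by
    rw [hρ']
    have : κ * (ρ / (2 * κ)) = ρ / 2 := by field_simp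
    rw [this]; linarith
  set E : Set (X N) := (box y r \ S) ∪ (S \ Fm D c eps N ⁻¹' S) with hE
  have hE0 : volume E = 0 := measure_union_null hnull hinv
  have hT := null_pull y hE0
  have hTA : volume (Al (D : ℝ) eps '' ({v : Fin N → ℝ | y + pr v ∈ E} ∩ cube N)) = 0 := by
    apply addHaar_image_eq_zero_of_differentiableOn_of_addHaar_eq_zero _ _ hT
    apply Differentiable.differentiableOn
    unfold Al
    fun_prop
  refine ⟨ρ', hρ'0, null_push _ hS (measure_mono_null ?_ hTA)⟩
  rintro w ⟨hw1, hw2⟩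
  have hv : ∀ i, |Ai (D : ℝ) eps w i| < ρ := fun i =>
    (Ai_abs hDR he0 he1 w (fun j => (hw1 j).le) i).trans_lt hκρ
  have hAl : Al (D : ℝ) eps (Ai (D : ℝ) eps w) = w := Al_Ai hDR (by linarith) hN0 w
  have hF : Fm D c eps N (y + pr (Ai (D : ℝ) eps w)) = Fm D c eps N y + pr w := by
    rw [Fm_add, hAl]
    intro i j
    right
    have h1 := abs_sub (Ai (D : ℝ) eps w i) (Ai (D : ℝ) eps w j)
    have h2 := hv i
    have h3 := hv j
    have h4 := hm2 i j
    linarith
  refine ⟨Ai (D : ℝ) eps w, ⟨?_, mem_cube_of_lt fun i => (hv i).trans_le (by linarith)⟩, hAl⟩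
  show y + pr (Ai (D : ℝ) eps w) ∈ E
  by_cases hxS : y + pr (Ai (D : ℝ) eps w) ∈ S
  · right
    refine ⟨hxS, ?_⟩
    intro h
    apply hw2
    rw [← hF]
    exact h
  · left
    refine ⟨fun i => ?_, hxS⟩
    have h7 : (y + pr (Ai (D : ℝ) eps w)) i - y i = ((Ai (D : ℝ) eps w i : ℝ) : UnitAddCircle) := by
      simp [pr]
    rw [h7]
    exact (norm_coe_le _).trans_lt ((hv i).trans_le hρr)

end Pool.Agent.Lib.MP_f738c8_an.GC
end

section
/-!
# MP_f738c8_an: globally coupled circle maps. Module OB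

A forward invariant set of positive measure contains an open box up to a null set.
-/
set_option autoImplicit false

namespace Pool.Agent.Lib.MP_f738c8_an.GC

open MeasureTheory Filter Topology
open scoped ENNReal symmDiff

namespace OBAux

theorem contr_iter {N : ℕ} {B : (Fin N → ℝ) → (Fin N → ℝ)} {th : ℝ}
    (h : ∀ (v : Fin N → ℝ) (r : ℝ), (∀ i, |v i| ≤ r) → ∀ i, |B v i| ≤ r / th) :
    ∀ (n : ℕ) (v : Fin N → ℝ) (r : ℝ), (∀ i, |v i| ≤ r) → ∀ i, |(B^[n] v) i| ≤ r / th ^ n := by
  intro n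
  induction n with
  | zero => intro v r hv i; simpa using hv i
  | succ n ih =>
    intro v r hv i
    rw [Function.iterate_succ_apply]
    have h1 := ih (B v) (r / th) (h v r hv) i
    rw [div_div, ← pow_succ'] at h1
    exact h1

theorem measurable_pr {N : ℕ} : Measurable (pr : (Fin N → ℝ) → X N) := (pr_mp N).measurable

theorem norm_pr_lt {N : ℕ} {v : Fin N → ℝ} {δ : ℝ} (hδ : 0 < δ) (hv : ∀ i, |v i| < δ) :
    ‖(pr v : X N)‖ < δ := by
  rw [pi_norm_lt_iff hδ]
  intro i
  exact (norm_coe_le (v i)).trans_lt (hv i)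

theorem isOpen_box {N : ℕ} (x : X N) (r : ℝ) : IsOpen (box x r) := by
  have : box x r = ⋂ i, {y : X N | ‖y i - x i‖ < r} := by
    ext y; simp [box]
  rw [this]
  refine isOpen_iInter_of_finite fun i => ?_
  exact isOpen_lt (by fun_prop) continuous_const

/-- continuity of translations in measure -/
theorem tendsto_translate {N : ℕ} {S : Set (X N)} (hS : MeasurableSet S) :
    Tendsto (fun a : X N => (volume : Measure (X N)) (S \ {x | x + a ∈ S})) (𝓝 0) (𝓝 0) := by
  let h : C(X N × X N, X N) := ⟨fun p => p.2 + p.1, by fun_prop⟩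
  let f : X N → C(X N, X N) := fun a => h.curry a
  have hf : Tendsto f (𝓝 0) (𝓝 (f 0)) := h.curry.continuous.tendsto 0
  have hmp : ∀ a, MeasurePreserving (f a) (volume : Measure (X N)) volume := by
    intro a
    exact measurePreserving_add_right volume a
  have h1 := tendsto_measure_symmDiff_preimage_nhds_zero (μ := (volume : Measure (X N)))
    (ν := (volume : Measure (X N))) (s := S) hf (Eventually.of_forall hmp) (hmp 0)
    hS.nullMeasurableSet (measure_ne_top _ _)
  refine tendsto_of_tendsto_of_tendsto_of_le_of_le tendsto_const_nhds h1 (fun _ => bot_le) ?_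
  intro a
  apply measure_mono
  rintro x ⟨hx1, hx2⟩
  refine Or.inr ⟨?_, ?_⟩
  · change x + 0 ∈ S
    rw [add_zero]; exact hx1
  · exact hx2

theorem ae_Q (N : ℕ) : ∀ᵐ v ∂(Q N), ∀ i, |v i| ≤ 1 / 2 := by
  have h : Q N = (volume : Measure (Fin N → ℝ)).restrict
      (Set.univ.pi fun _ : Fin N => Set.Ioc (-(1 / 2) : ℝ) (-(1 / 2) + 1)) := by
    unfold Q
    rw [volume_pi, Measure.restrict_pi_pi]
  rw [h]
  filter_upwards [ae_restrict_mem (MeasurableSet.univ_pi fun _ => measurableSet_Ioc)] with v hv i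
  have := hv i (Set.mem_univ i)
  rw [abs_le]
  constructor <;> linarith [this.1, this.2]

theorem box_le {N : ℕ} {S : Set (X N)} (hS : MeasurableSet S) (y : X N) (d : ℝ) :
    (volume : Measure (X N)) (box y d \ S) ≤ (Q N) {v | (∀ i, |v i| ≤ d) ∧ y + pr v ∉ S} := by
  have hmp : MeasurePreserving (fun v : Fin N → ℝ => y + (pr v : X N)) (Q N) volume :=
    (measurePreserving_add_left (volume : Measure (X N)) y).comp (pr_mp N)
  have hm : MeasurableSet (box y d \ S) := (isOpen_box y d).measurableSet.diff hS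
  rw [← hmp.measure_preimage hm.nullMeasurableSet]
  apply measure_mono_ae
  filter_upwards [ae_Q N] with v hv hv2
  refine ⟨fun i => ?_, hv2.2⟩
  have h1 : ‖(y + pr v) i - y i‖ < d := hv2.1 i
  have h2 : (y + pr v) i - y i = (v i : UnitAddCircle) := by
    simp [pr]
  rw [h2, norm_coe (hv i)] at h1
  exact h1.le

/-- the key step: boxes of size `d` in which the complement of `S` is arbitrarily small -/
theorem key {N : ℕ} {H : X N → X N} {B : (Fin N → ℝ) → (Fin N → ℝ)} {th : ℝ} (hth : 1 < th)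
    (hH : Measurable H)
    (hB : ∀ (v : Fin N → ℝ) (r : ℝ), (∀ i, |v i| ≤ r) → ∀ i, |B v i| ≤ r / th)
    {S : Set (X N)} (hS : MeasurableSet S) (hinv : ∀ n : ℕ, volume (S \ H^[n] ⁻¹' S) = 0)
    {d : ℝ} (c : ℝ≥0∞) (hc : c ≠ 0)
    (hZ : ∀ b : ℕ, ∃ Z : Set (X N), MeasurableSet Z ∧ c ≤ volume (S \ Z) ∧
      ∀ x, x ∉ Z → Good H B b d x) (e : ℝ≥0∞) (he : e ≠ 0) :
    ∃ y : X N, volume (box y d \ S) ≤ e := by
  by_contra hcon
  push Not at hcon
  have he1 : e ≠ ⊤ := ((hcon 0).trans_le le_top).ne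
  obtain ⟨b0, -, hb0, -⟩ := hZ 0
  have hc1 : c ≠ ⊤ := (hb0.trans_lt (measure_lt_top _ _)).ne
  have hec : e * c ≠ 0 := mul_ne_zero he hc
  have hec1 : e * c ≠ ⊤ := ENNReal.mul_ne_top he1 hc1
  -- the translation radius
  have h1 : ∀ᶠ a in 𝓝 (0 : X N), (volume : Measure (X N)) (S \ {x | x + a ∈ S}) < e * c / 2 :=
    (tendsto_translate hS).eventually (gt_mem_nhds (ENNReal.half_pos hec))
  obtain ⟨δ, hδ, hδ2⟩ := Metric.eventually_nhds_iff_ball.mp h1
  have h2 : Tendsto (fun n : ℕ => d / th ^ n) atTop (𝓝 0) := by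
    have := (tendsto_pow_atTop_nhds_zero_of_lt_one (r := th⁻¹) (by positivity)
      (inv_lt_one_of_one_lt₀ hth)).const_mul d
    rw [mul_zero] at this
    refine this.congr fun n => ?_
    rw [inv_pow, div_eq_mul_inv]
  obtain ⟨n, hn⟩ := (h2.eventually (gt_mem_nhds hδ)).exists
  obtain ⟨Z, hZm, hZ1, hZ2⟩ := hZ n
  have hHn : Measurable (H^[n]) := hH.iterate n
  -- the product set
  let W : Set (X N × (Fin N → ℝ)) :=
    {p | p.1 ∈ S \ Z ∧ (∀ i, |p.2 i| ≤ d) ∧ H^[n] p.1 + pr p.2 ∉ S}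
  have hWm : MeasurableSet W := by
    have m1 : MeasurableSet {p : X N × (Fin N → ℝ) | p.1 ∈ S \ Z} :=
      measurable_fst (hS.diff hZm)
    have m2 : MeasurableSet {p : X N × (Fin N → ℝ) | ∀ i, |p.2 i| ≤ d} := by
      have : {p : X N × (Fin N → ℝ) | ∀ i, |p.2 i| ≤ d} = ⋂ i, {p | |p.2 i| ≤ d} := by
        ext p; simp
      rw [this]
      refine MeasurableSet.iInter fun i => ?_
      exact measurableSet_le (by fun_prop) measurable_const
    have m3 : Measurable fun p : X N × (Fin N → ℝ) => H^[n] p.1 + (pr p.2 : X N) :=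
      (hHn.comp measurable_fst).add (measurable_pr.comp measurable_snd)
    exact m1.inter (m2.inter (m3 hS).compl)
  have hlow : e * c ≤ ((volume : Measure (X N)).prod (Q N)) W := by
    rw [Measure.prod_apply hWm]
    calc e * c ≤ e * volume (S \ Z) := by gcongr
      _ = ∫⁻ _ in S \ Z, e ∂(volume : Measure (X N)) := by
          rw [setLIntegral_const]
      _ ≤ ∫⁻ x in S \ Z, (Q N) (Prod.mk x ⁻¹' W) ∂(volume : Measure (X N)) := by
          apply setLIntegral_mono' (hS.diff hZm)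
          intro x hx
          have h3 := (hcon (H^[n] x)).le.trans (box_le hS (H^[n] x) d)
          refine h3.trans (measure_mono ?_)
          intro v hv
          exact ⟨hx, hv.1, hv.2⟩
      _ ≤ ∫⁻ x, (Q N) (Prod.mk x ⁻¹' W) ∂(volume : Measure (X N)) := setLIntegral_le_lintegral _ _
  have hup : ((volume : Measure (X N)).prod (Q N)) W < e * c := by
    rw [Measure.prod_apply_symm hWm]
    have h3 : ∀ v : Fin N → ℝ,
        (volume : Measure (X N)) ((fun x => (x, v)) ⁻¹' W) ≤ e * c / 2 := by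
      intro v
      by_cases hv : ∀ i, |v i| ≤ d
      · have h4 : ∀ i, |(B^[n] v) i| < δ := fun i => (contr_iter hB n v d hv i).trans_lt hn
        have h5 : (pr (B^[n] v) : X N) ∈ Metric.ball (0 : X N) δ := by
          rw [mem_ball_zero_iff]
          exact norm_pr_lt hδ h4
        have h6 := (hδ2 _ h5).le
        refine le_trans ?_ h6
        have h7 : (volume : Measure (X N))
            ((fun x : X N => x + pr (B^[n] v)) ⁻¹' (S \ H^[n] ⁻¹' S)) = 0 := by
          rw [(measurePreserving_add_right (volume : Measure (X N)) (pr (B^[n] v))).measure_preimage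
            (hS.diff (hHn hS)).nullMeasurableSet]
          exact hinv n
        calc (volume : Measure (X N)) ((fun x => (x, v)) ⁻¹' W)
            ≤ (volume : Measure (X N)) ((S \ {x | x + pr (B^[n] v) ∈ S}) ∪
              (fun x : X N => x + pr (B^[n] v)) ⁻¹' (S \ H^[n] ⁻¹' S)) := by
              apply measure_mono
              intro x hx
              have hx1 : x ∈ S \ Z := hx.1
              have hx2 : H^[n] x + pr v ∉ S := hx.2.2
              have hg := hZ2 x hx1.2 v hv
              by_cases h8 : x + pr (B^[n] v) ∈ S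
              · refine Or.inr ⟨h8, ?_⟩
                intro h9
                have h10 : H^[n] (x + pr (B^[n] v)) ∈ S := h9
                rw [hg] at h10
                exact hx2 h10
              · exact Or.inl ⟨hx1.1, h8⟩
          _ ≤ _ := measure_union_le _ _
          _ = (volume : Measure (X N)) (S \ {x | x + pr (B^[n] v) ∈ S}) := by
              rw [h7, add_zero]
      · have h4 : (fun x => (x, v)) ⁻¹' W = (∅ : Set (X N)) := by
          ext x
          simp only [Set.mem_preimage, Set.mem_empty_iff_false, iff_false]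
          exact fun h => hv h.2.1
        rw [h4, measure_empty]
        exact bot_le
    calc ∫⁻ v, (volume : Measure (X N)) ((fun x => (x, v)) ⁻¹' W) ∂(Q N)
        ≤ ∫⁻ _, e * c / 2 ∂(Q N) := lintegral_mono h3
      _ = e * c / 2 := by rw [lintegral_const, measure_univ, mul_one]
      _ < e * c := ENNReal.half_lt_self hec hec1
  exact absurd (hlow.trans_lt hup) (lt_irrefl _)

/-- compactness -/
theorem full_of_key {N : ℕ} {S : Set (X N)} {d : ℝ} (hd : 0 < d)
    (h : ∀ e : ℝ≥0∞, e ≠ 0 → ∃ y : X N, volume (box y d \ S) ≤ e) : (Full S).Nonempty := by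
  have h1 : ∀ n : ℕ, ∃ y : X N, volume (box y d \ S) ≤ (n : ℝ≥0∞)⁻¹ := fun n =>
    h _ (ENNReal.inv_ne_zero.2 (ENNReal.natCast_ne_top n))
  choose y hy using h1
  obtain ⟨z, φ, hφ, hz⟩ := CompactSpace.tendsto_subseq y
  refine ⟨z, d / 2, by positivity, ?_⟩
  have h2 : ∀ᶠ n in atTop, dist (y (φ n)) z < d / 2 :=
    hz.eventually (Metric.ball_mem_nhds z (by positivity))
  have h3 : ∀ᶠ n : ℕ in atTop, volume (box z (d / 2) \ S) ≤ (φ n : ℝ≥0∞)⁻¹ := by
    filter_upwards [h2] with n hn
    refine le_trans (measure_mono ?_) (hy (φ n))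
    rintro x ⟨hx1, hx2⟩
    refine ⟨fun i => ?_, hx2⟩
    have h4 : ‖x i - z i‖ < d / 2 := hx1 i
    have h5 : ‖z i - y (φ n) i‖ ≤ dist (y (φ n)) z := by
      rw [← dist_eq_norm, dist_comm]
      exact dist_le_pi_dist _ _ i
    calc ‖x i - y (φ n) i‖ = ‖(x i - z i) + (z i - y (φ n) i)‖ := by congr 1; abel
      _ ≤ ‖x i - z i‖ + ‖z i - y (φ n) i‖ := norm_add_le _ _
      _ < d := by linarith
  have h4 : Tendsto (fun n : ℕ => (φ n : ℝ≥0∞)⁻¹) atTop (𝓝 0) :=
    ENNReal.tendsto_inv_nat_nhds_zero.comp hφ.tendsto_atTop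
  exact le_antisymm (ge_of_tendsto h4 h3) bot_le

end OBAux

open OBAux in
theorem specOB : SpecOB := by
  intro N H B L th C hsys K hK hgood S hS hS0 hinv
  have hs : 0 < (volume : Measure (X N)).real S := by
    rw [Measure.real, ENNReal.toReal_pos_iff]
    exact ⟨pos_iff_ne_zero.mpr hS0, measure_lt_top _ _⟩
  set s := (volume : Measure (X N)).real S with hsdef
  have hd : 0 < s / (2 * K) := by positivity
  refine full_of_key hd fun e he => ?_
  refine key hsys.one_lt_th hsys.meas hsys.contr hS hinv (ENNReal.ofReal (s / 2))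
    (by rw [Ne, ENNReal.ofReal_eq_zero]; linarith) ?_ e he
  intro b
  obtain ⟨Z, hZ1, hZ2, hZ3⟩ := hgood b (s / (2 * K)) hd
  refine ⟨Z, hZ1, ?_, hZ3⟩
  have h1 : K * (s / (2 * K)) = s / 2 := by field_simp
  rw [h1] at hZ2
  rw [ENNReal.ofReal_le_iff_le_toReal (measure_ne_top _ _)]
  have h2 : (volume : Measure (X N)).real S ≤
      (volume : Measure (X N)).real (S \ Z) + (volume : Measure (X N)).real Z := by
    refine le_trans (measureReal_mono ?_) (measureReal_union_le _ _)
    intro x hx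
    by_cases hz : x ∈ Z
    · exact Or.inr hz
    · exact Or.inl ⟨hx, hz⟩
  have h3 : s ≤ (volume : Measure (X N)).real (S \ Z) + s / 2 := by linarith
  change s / 2 ≤ (volume : Measure (X N)).real (S \ Z)
  linarith

end Pool.Agent.Lib.MP_f738c8_an.GC
end

section
/-!
# Module PF: density bound for the image of the good part
-/
set_option autoImplicit false

namespace Pool.Agent.Lib.MP_f738c8_an.GC

open MeasureTheory
open scoped ENNReal

namespace PFAux

theorem meas_box (N : ℕ) (d : ℝ) : MeasurableSet {v : Fin N → ℝ | ∀ i, |v i| ≤ d} := by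
  have h : {v : Fin N → ℝ | ∀ i, |v i| ≤ d} = ⋂ i, {v : Fin N → ℝ | |v i| ≤ d} := by
    ext v
    simp
  rw [h]
  refine MeasurableSet.iInter fun i => ?_
  exact measurableSet_le (measurable_pi_apply i).abs measurable_const

theorem box_pos (N : ℕ) {d : ℝ} (hd : 0 < d) : 0 < (Q N).real {v : Fin N → ℝ | ∀ i, |v i| ≤ d} := by
  have h : {v : Fin N → ℝ | ∀ i, |v i| ≤ d} = Set.univ.pi fun _ : Fin N => Set.Icc (-d) d := by
    ext v
    simp only [Set.mem_ofPred_eq, Set.mem_univ_pi, Set.mem_Icc, abs_le]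
  have h1 : 0 < Q N {v : Fin N → ℝ | ∀ i, |v i| ≤ d} := by
    rw [h, Q, Measure.pi_pi]
    rw [pos_iff_ne_zero, Finset.prod_ne_zero_iff]
    intro i _
    rw [Measure.restrict_apply measurableSet_Icc]
    have h2 : Set.Icc (0 : ℝ) (min d (1 / 2)) ⊆ Set.Icc (-d) d ∩ Set.Ioc (-(1 / 2) : ℝ) (-(1 / 2) + 1) := by
      intro t ht
      have h3 := ht.2.trans (min_le_left _ _)
      have h4 := ht.2.trans (min_le_right _ _)
      have h5 := ht.1
      exact ⟨⟨by linarith, h3⟩, by linarith, by linarith⟩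
    have h3 : (0 : ℝ≥0∞) < volume (Set.Icc (0 : ℝ) (min d (1 / 2))) := by
      rw [Real.volume_Icc, ENNReal.ofReal_pos, sub_zero]
      exact lt_min hd (by norm_num)
    exact (h3.trans_le (measure_mono h2)).ne'
  rw [measureReal_def]
  exact ENNReal.toReal_pos h1.ne' (measure_ne_top _ _)

theorem sub_left {N : ℕ} (y : X N) {A : Set (X N)} (hA : MeasurableSet A) :
    Q N {v | y - pr v ∈ A} = volume A := by
  have : (volume : Measure (X N)).IsNegInvariant :=
    Measure.IsAddHaarMeasure.isNegInvariant_of_regular _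
  have h1 : MeasurePreserving (fun u : X N => y - u) volume volume :=
    Measure.measurePreserving_sub_left volume y
  have h2 : {v : Fin N → ℝ | y - pr v ∈ A} = pr ⁻¹' ((fun u : X N => y - u) ⁻¹' A) := rfl
  rw [h2, (pr_mp N).measure_preimage (h1.measurable hA).nullMeasurableSet,
    h1.measure_preimage hA.nullMeasurableSet]

theorem main {N : ℕ} {d : ℝ} {H : X N → X N} {B : (Fin N → ℝ) → (Fin N → ℝ)} {b : ℕ}
    {Z A : Set (X N)} (hH : Measurable H) (hA : MeasurableSet A)
    (hG : ∀ x, x ∉ Z → Good H B b d x) :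
    volume (Zᶜ ∩ H^[b] ⁻¹' A) * Q N {v : Fin N → ℝ | ∀ i, |v i| ≤ d} ≤ volume A := by
  have hHb : Measurable H^[b] := hH.iterate b
  have hle : ∀ v ∈ {v : Fin N → ℝ | ∀ i, |v i| ≤ d},
      volume (Zᶜ ∩ H^[b] ⁻¹' A) ≤ volume {x : X N | H^[b] x - pr v ∈ A} := by
    intro v hv
    have h1 : volume (Zᶜ ∩ H^[b] ⁻¹' A) =
        volume ((fun x : X N => x + -(pr (B^[b] v))) ⁻¹' (Zᶜ ∩ H^[b] ⁻¹' A)) := by
      rw [measure_preimage_add_right]
    rw [h1]
    refine measure_mono ?_
    rintro x ⟨hx1, hx2⟩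
    have h2 := hG _ hx1 v hv
    have h3 : x + -(pr (B^[b] v)) + pr (B^[b] v) = x := by abel
    rw [h3] at h2
    have h4 : H^[b] (x + -(pr (B^[b] v))) = H^[b] x - pr v := by rw [h2]; abel
    have h5 : H^[b] (x + -(pr (B^[b] v))) ∈ A := hx2
    rw [h4] at h5
    exact h5
  let S : Set ((Fin N → ℝ) × X N) := {q | H^[b] q.2 - pr q.1 ∈ A}
  have hS : MeasurableSet S := by
    have h1 : Measurable fun q : (Fin N → ℝ) × X N => H^[b] q.2 - pr q.1 :=
      (hHb.comp measurable_snd).sub ((pr_mp N).measurable.comp measurable_fst)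
    exact h1 hA
  calc volume (Zᶜ ∩ H^[b] ⁻¹' A) * Q N {v : Fin N → ℝ | ∀ i, |v i| ≤ d}
      = ∫⁻ _v in {v : Fin N → ℝ | ∀ i, |v i| ≤ d}, volume (Zᶜ ∩ H^[b] ⁻¹' A) ∂(Q N) := by
        rw [setLIntegral_const]
    _ ≤ ∫⁻ v in {v : Fin N → ℝ | ∀ i, |v i| ≤ d}, volume {x : X N | H^[b] x - pr v ∈ A} ∂(Q N) :=
        setLIntegral_mono' (meas_box N d) hle
    _ ≤ ∫⁻ v, volume {x : X N | H^[b] x - pr v ∈ A} ∂(Q N) := setLIntegral_le_lintegral _ _
    _ = ∫⁻ v, volume (Prod.mk v ⁻¹' S) ∂(Q N) := rfl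
    _ = (Q N).prod volume S := (Measure.prod_apply hS).symm
    _ = ∫⁻ x : X N, Q N ((fun v => (v, x)) ⁻¹' S) ∂volume := Measure.prod_apply_symm hS
    _ = ∫⁻ _x : X N, volume A ∂volume := by
        refine lintegral_congr fun x => ?_
        exact sub_left (H^[b] x) hA
    _ = volume A := by rw [lintegral_const, measure_univ, mul_one]

end PFAux

open PFAux

theorem specPF : SpecPF := by
  intro N d hd
  have hq := box_pos N hd
  refine ⟨1 / (Q N).real {v : Fin N → ℝ | ∀ i, |v i| ≤ d}, by positivity, ?_⟩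
  intro H B b Z A hH hZ hA hG
  have h1 := main hH hA hG
  have h2 : volume.real (Zᶜ ∩ H^[b] ⁻¹' A) * (Q N).real {v : Fin N → ℝ | ∀ i, |v i| ≤ d} ≤
      volume.real A := by
    rw [measureReal_def, measureReal_def, measureReal_def, ← ENNReal.toReal_mul]
    exact ENNReal.toReal_mono (measure_ne_top _ _) h1
  have h3 : volume.real (H^[b] ⁻¹' A) ≤ volume.real (Zᶜ ∩ H^[b] ⁻¹' A) + volume.real Z := by
    refine (measureReal_mono ?_ (measure_ne_top _ _)).trans (measureReal_union_le _ _)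
    intro x hx
    by_cases h : x ∈ Z
    · exact Or.inr h
    · exact Or.inl ⟨h, hx⟩
  have h4 : volume.real (Zᶜ ∩ H^[b] ⁻¹' A) ≤
      1 / (Q N).real {v : Fin N → ℝ | ∀ i, |v i| ≤ d} * volume.real A := by
    rw [one_div, inv_mul_eq_div, le_div_iff₀ hq]
    exact h2
  linarith

end Pool.Agent.Lib.MP_f738c8_an.GC
end

section
/-!
# MP_f738c8_an, hive GC: module SY

The iterates of the coupled map are expanding systems which are locally affine off finitely many cuts.
-/
set_option autoImplicit false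

namespace Pool.Agent.Lib.MP_f738c8_an.GC

open MeasureTheory

namespace SYAux

theorem measurable_g : Measurable g := by
  unfold g
  refine Measurable.ite (measurableSet_singleton _) measurable_const ?_
  exact measurable_subtype_coe.comp
    (AddCircle.measurableEquivIoc (1 : ℝ) (-(1 / 2))).measurable

theorem measurable_Fm (D : ℤ) (c : UnitAddCircle) (eps : ℝ) (N : ℕ) : Measurable (Fm D c eps N) := by
  refine measurable_pi_lambda _ fun i => ?_
  unfold Fm coupled
  have h1 : Measurable fun x : Fin N → UnitAddCircle => (eps / N * ∑ j, g (x j - x i) : ℝ) := by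
    refine Measurable.const_mul ?_ _
    refine Finset.measurable_sum _ fun j _ => ?_
    exact measurable_g.comp ((measurable_pi_apply j).sub (measurable_pi_apply i))
  have h2 : Measurable fun x : Fin N → UnitAddCircle =>
      ((eps / N * ∑ j, g (x j - x i) : ℝ) : UnitAddCircle) :=
    (AddCircle.continuous_mk' (1 : ℝ)).measurable.comp h1
  have h3 : Measurable fun x : Fin N → UnitAddCircle =>
      x i + ((eps / N * ∑ j, g (x j - x i) : ℝ) : UnitAddCircle) := (measurable_pi_apply i).add h2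
  have h4 : Measurable fun z : UnitAddCircle => D • z + c :=
    ((continuous_zsmul D).add continuous_const).measurable
  exact h4.comp h3

theorem iter_diff (D eps : ℝ) {N : ℕ} (m : ℕ) (v : Fin N → ℝ) (i j : Fin N) :
    (Ai D eps)^[m] v i - (Ai D eps)^[m] v j = (v i - v j) / (D * (1 - eps)) ^ m := by
  induction m with
  | zero => simp
  | succ m ih =>
    rw [Function.iterate_succ_apply', Ai_sub, ih, pow_succ, div_div]

theorem iter_contr {D eps : ℝ} (hD : D ≠ 0) (he0 : 0 ≤ eps) (he : eps < 1) {N : ℕ} (m : ℕ)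
    (v : Fin N → ℝ) (r : ℝ) (hv : ∀ i, |v i| ≤ r) (i : Fin N) :
    |(Ai D eps)^[m] v i| ≤ r / (|D| * (1 - eps) / (1 + eps)) ^ m := by
  induction m generalizing i with
  | zero => simpa using hv i
  | succ m ih =>
    rw [Function.iterate_succ_apply']
    have h := Ai_abs hD he0 he ((Ai D eps)^[m] v) ih i
    refine h.trans (le_of_eq ?_)
    have h1 : 0 < 1 - eps := by linarith
    have h2 : 0 < |D| := abs_pos.mpr hD
    have h3 : 0 < 1 + eps := by linarith
    rw [pow_succ]
    field_simp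

theorem Al_Ai_iter {D eps : ℝ} (hD : D ≠ 0) (he : eps ≠ 1) {N : ℕ} (hN : N ≠ 0) (m : ℕ)
    (v : Fin N → ℝ) : (Al D eps)^[m] ((Ai D eps)^[m] v) = v :=
  (Function.LeftInverse.iterate (g := Al D eps) (f := Ai D eps) (Al_Ai hD he hN) m) v

theorem iter_CS (h : SpecCS) (D : ℤ) (c : UnitAddCircle) (eps : ℝ) (N : ℕ)
    (hD : (D : ℝ) * (1 - eps) ≠ 0) (m : ℕ) : ∃ C : Finset UnitAddCircle, ∀ (x : X N) (w : Fin N → ℝ),
      NoCut C x w → (Fm D c eps N)^[m] (x + pr w) = (Fm D c eps N)^[m] x + pr ((Al (D : ℝ) eps)^[m] w) := by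
  induction m with
  | zero => exact ⟨∅, fun x w _ => rfl⟩
  | succ m ih =>
    obtain ⟨C, hC⟩ := ih
    obtain ⟨C', hC'⟩ := h D c eps N hD C
    refine ⟨C', fun x w hw => ?_⟩
    obtain ⟨h1, h2⟩ := hC' x w hw
    rw [Function.iterate_succ_apply, Function.iterate_succ_apply, Function.iterate_succ_apply, h1,
      hC _ _ h2]

end SYAux

theorem specSY (h : SpecCS) : SpecSY := by
  intro D c eps N hN he0 he hth m hm
  have h1e : 0 < 1 - eps := by linarith
  have h1e' : 0 < 1 + eps := by linarith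
  have hD : (D : ℝ) ≠ 0 := by
    intro h0
    rw [h0, abs_zero, zero_mul, zero_div] at hth
    linarith
  have hDe : (D : ℝ) * (1 - eps) ≠ 0 := mul_ne_zero hD h1e.ne'
  have hL : 1 < |(D : ℝ)| * (1 - eps) := by
    rw [lt_div_iff₀ h1e'] at hth
    linarith
  obtain ⟨C, hC⟩ := SYAux.iter_CS h D c eps N hDe m
  refine ⟨C, ?_, ?_, ?_, ?_, ?_, ?_⟩
  · exact (SYAux.measurable_Fm D c eps N).iterate m
  · exact one_lt_pow₀ hL (by omega)
  · exact one_lt_pow₀ hth (by omega)
  · intro v i j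
    rw [SYAux.iter_diff, abs_div, abs_pow, abs_mul, abs_of_pos h1e]
  · intro v r hv i
    exact SYAux.iter_contr hD he0 he m v r hv i
  · intro x v hx
    rw [hC x _ hx, SYAux.Al_Ai_iter hD he.ne (by omega) m v]

end Pool.Agent.Lib.MP_f738c8_an.GC
end

section
/-!
# MP_f738c8_an, hive GC, module TR: the trace bound
-/
set_option autoImplicit false

namespace Pool.Agent.Lib.MP_f738c8_an.GC

open MeasureTheory

namespace TRAux

theorem geo {L : ℝ} (hL : 1 < L) (b : ℕ) :
    ∑ q ∈ Finset.range b, 1 / L ^ (b - q) ≤ 1 / (L - 1) := by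
  have h0 : 0 < L - 1 := by linarith
  have hL0 : 0 < L := by linarith
  induction b with
  | zero => simp; linarith
  | succ b ih =>
    rw [Finset.sum_range_succ]
    have h1 : ∑ q ∈ Finset.range b, 1 / L ^ (b + 1 - q) =
        (1 / L) * ∑ q ∈ Finset.range b, 1 / L ^ (b - q) := by
      rw [Finset.mul_sum]
      refine Finset.sum_congr rfl fun q hq => ?_
      rw [Finset.mem_range] at hq
      have h2 : b + 1 - q = (b - q) + 1 := by omega
      rw [h2, pow_succ, div_mul_div_comm, one_mul, mul_comm]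
    have h3 : b + 1 - b = 1 := by omega
    rw [h1, h3, pow_one]
    calc (1 / L) * ∑ q ∈ Finset.range b, 1 / L ^ (b - q) + 1 / L
        ≤ (1 / L) * (1 / (L - 1)) + 1 / L := by
          have : (0 : ℝ) ≤ 1 / L := by positivity
          nlinarith [mul_le_mul_of_nonneg_left ih this]
      _ = 1 / (L - 1) := by field_simp; ring

theorem exists_min_pos {α : Type} (S : Finset α) (f : α → ℝ) (hf : ∀ x ∈ S, 0 < f x) :
    ∃ d : ℝ, 0 < d ∧ ∀ x ∈ S, d ≤ f x := by
  by_cases hS : S.Nonempty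
  · obtain ⟨x, hx, hm⟩ := S.exists_min_image f hS
    exact ⟨f x, hf x hx, hm⟩
  · rw [Finset.not_nonempty_iff_eq_empty] at hS
    exact ⟨1, one_pos, fun x hx => by simp [hS] at hx⟩

theorem exists_sep (C : Finset UnitAddCircle) :
    ∃ r : ℝ, 0 < r ∧ r ≤ 1 / 16 ∧ ∀ c ∈ C, ∀ c' ∈ C, c ≠ c' → 8 * r ≤ ‖c - c'‖ := by
  obtain ⟨d, hd, h⟩ := exists_min_pos C.offDiag (fun p => ‖p.1 - p.2‖) (by
    intro p hp
    rw [Finset.mem_offDiag] at hp
    exact norm_pos_iff.mpr (sub_ne_zero.mpr hp.2.2))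
  refine ⟨min (1 / 16) (d / 8), by positivity, min_le_left _ _, fun c hc c' hc' hne => ?_⟩
  have h1 := h (c, c') (Finset.mem_offDiag.mpr ⟨hc, hc', hne⟩)
  have h2 := min_le_right (1 / 16) (d / 8)
  simp only at h1
  linarith

/-- the averaging argument -/
theorem window {α : Type} [MeasurableSpace α] (μ : Measure α) [IsProbabilityMeasure μ] (W : ℕ → Set α)
    (E : Set α) (q0 : ℕ) (hq : 1 ≤ q0) (hW : ∀ p, MeasurableSet (W p)) (hE : MeasurableSet E)
    (hd : ∀ p, p < q0 → ∀ p', p' < q0 → p ≠ p' → Disjoint (W p) (W p'))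
    (hstep : ∀ p, μ.real (W p \ E) ≤ μ.real (W (p + 1))) : μ.real (W 0) ≤ 1 / q0 + μ.real E := by
  have h1 : ∀ p, μ.real (W p) ≤ μ.real (W (p + 1)) + μ.real (W p ∩ E) := by
    intro p
    have h2 : μ.real (W p) ≤ μ.real (W p \ E) + μ.real (W p ∩ E) := by
      refine le_trans (measureReal_mono ?_) (measureReal_union_le _ _)
      rw [Set.sdiff_union_inter]
    linarith [hstep p]
  have h2 : ∀ p, μ.real (W 0) ≤ μ.real (W p) + ∑ k ∈ Finset.range p, μ.real (W k ∩ E) := by
    intro p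
    induction p with
    | zero => simp
    | succ p ih =>
      rw [Finset.sum_range_succ]
      linarith [h1 p]
  have h3 : ∀ p, p < q0 → ∑ k ∈ Finset.range p, μ.real (W k ∩ E) ≤ μ.real E := by
    intro p hp
    rw [← measureReal_biUnion_finset (s := Finset.range p) (f := fun k => W k ∩ E)]
    · exact measureReal_mono (Set.iUnion₂_subset fun k _ => Set.inter_subset_right)
    · intro k hk k' hk' hne
      simp only [Finset.coe_range, Set.mem_Iio] at hk hk'
      exact (hd k (hk.trans hp) k' (hk'.trans hp) hne).mono Set.inter_subset_left Set.inter_subset_left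
    · exact fun k _ => (hW k).inter hE
  have h4 : ∑ p ∈ Finset.range q0, μ.real (W p) ≤ 1 := by
    refine (sum_measureReal_le_measureReal_univ (fun p _ => hW p) ?_).trans (by simp)
    intro k hk k' hk' hne
    simp only [Finset.coe_range, Set.mem_Iio] at hk hk'
    exact hd k hk k' hk' hne
  have h5 : ∑ _p ∈ Finset.range q0, μ.real (W 0) ≤
      ∑ p ∈ Finset.range q0, (μ.real (W p) + μ.real E) := by
    refine Finset.sum_le_sum fun p hp => ?_
    rw [Finset.mem_range] at hp
    linarith [h2 p, h3 p hp]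
  rw [Finset.sum_add_distrib, Finset.sum_const, Finset.sum_const, Finset.card_range, nsmul_eq_mul,
    nsmul_eq_mul] at h5
  have hq' : (0 : ℝ) < q0 := by exact_mod_cast hq
  have h6 : (q0 : ℝ) * (μ.real (W 0) - μ.real E) ≤ 1 := by linarith
  have h7 : μ.real (W 0) - μ.real E ≤ 1 / q0 := by
    rw [le_div_iff₀ hq']; linarith
  linarith

section sets

variable {N : ℕ} (H : X N → X N) (C : Finset UnitAddCircle)

/-- the windows -/
def W (b : ℕ) (i j : Fin N) (e : ℝ) (p : ℕ) : Set (X N) :=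
  {x | ∃ c ∈ C, ‖(H^[b] x) i - (H^[b] x) j - c - ((3 * e * p : ℝ) : UnitAddCircle)‖ ≤ e}

theorem meas_one (hH : Measurable H) (b : ℕ) (i j : Fin N) (c : UnitAddCircle) (e : ℝ) :
    MeasurableSet {x : X N | ‖(H^[b] x) i - (H^[b] x) j - c‖ ≤ e} := by
  have h1 : Measurable fun x : X N => (H^[b] x) i := (measurable_pi_apply i).comp (hH.iterate b)
  have h2 : Measurable fun x : X N => (H^[b] x) j := (measurable_pi_apply j).comp (hH.iterate b)
  exact measurableSet_le (((h1.sub h2).sub measurable_const).norm) measurable_const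

theorem meas_W (hH : Measurable H) (b : ℕ) (i j : Fin N) (e : ℝ) (p : ℕ) :
    MeasurableSet (W H C b i j e p) := by
  have h : W H C b i j e p = ⋃ c ∈ C, {x : X N | ‖(H^[b] x) i - (H^[b] x) j -
      (c + ((3 * e * p : ℝ) : UnitAddCircle))‖ ≤ e} := by
    ext x
    simp only [W, Set.mem_ofPred_eq, Set.mem_iUnion, exists_prop, sub_sub, add_assoc]
  rw [h]
  exact Finset.measurableSet_biUnion C fun c _ => meas_one H hH b i j _ e

theorem near_eq (b : ℕ) (e : ℝ) : Near H C b e =
    ⋃ p ∈ (Finset.univ : Finset (Fin N × Fin N)).filter (fun p => p.1 ≠ p.2), W H C b p.1 p.2 e 0 := by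
  ext x
  simp only [Near, W, Set.mem_ofPred_eq, Set.mem_iUnion, exists_prop, Finset.mem_filter,
    Finset.mem_univ, true_and, Nat.cast_zero, mul_zero, AddCircle.coe_zero, sub_zero, Prod.exists]

theorem meas_near (hH : Measurable H) (b : ℕ) (e : ℝ) : MeasurableSet (Near H C b e) := by
  rw [near_eq]
  exact Finset.measurableSet_biUnion _ fun p _ => meas_W H C hH b p.1 p.2 e 0

theorem near_le (b : ℕ) (e K1 : ℝ) (hK : 0 ≤ K1)
    (h : ∀ i j : Fin N, i ≠ j → volume.real (W H C b i j e 0) ≤ K1) :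
    volume.real (Near H C b e) ≤ (N : ℝ) ^ 2 * K1 := by
  rw [near_eq]
  refine (measureReal_biUnion_finset_le _ _).trans ?_
  refine (Finset.sum_le_card_nsmul _ _ K1 fun p hp => ?_).trans ?_
  · exact h p.1 p.2 (Finset.mem_filter.mp hp).2
  · rw [nsmul_eq_mul]
    refine mul_le_mul_of_nonneg_right ?_ hK
    have h1 : ((Finset.univ : Finset (Fin N × Fin N)).filter (fun p => p.1 ≠ p.2)).card ≤ N ^ 2 := by
      refine (Finset.card_filter_le _ _).trans ?_
      rw [Finset.card_univ, Fintype.card_prod, Fintype.card_fin, sq]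
    exact_mod_cast h1

/-- disjointness of the windows -/
theorem disj_W {r e : ℝ} (hr : 0 < r) (hr1 : r ≤ 1 / 16)
    (hsep : ∀ c ∈ C, ∀ c' ∈ C, c ≠ c' → 8 * r ≤ ‖c - c'‖) (he : 0 < e) (q0 : ℕ) (hq : (q0 : ℝ) * e ≤ r)
    (her : e ≤ r) (b : ℕ) (i j : Fin N) : ∀ p, p < q0 → ∀ p', p' < q0 → p < p' →
      Disjoint (W H C b i j e p) (W H C b i j e p') := by
  intro p hp p' hp' hlt
  rw [Set.disjoint_left]
  rintro x ⟨c, hc, h1⟩ ⟨c', hc', h2⟩
  set u := (H^[b] x) i - (H^[b] x) j with hu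
  have hcast : ((p' : ℝ) - p) * e ≤ r := by
    have h3 : ((p' : ℝ)) ≤ q0 := by exact_mod_cast hp'.le
    have h4 : (0 : ℝ) ≤ p := Nat.cast_nonneg p
    nlinarith
  have hge : (1 : ℝ) ≤ (p' : ℝ) - p := by
    have : (p : ℝ) + 1 ≤ p' := by exact_mod_cast hlt
    linarith
  -- the difference
  have h5 : ‖(c - c') - ((3 * e * (p' - p) : ℝ) : UnitAddCircle)‖ ≤ 2 * e := by
    have h6 : (c - c') - ((3 * e * (p' - p) : ℝ) : UnitAddCircle) =
        (u - c' - ((3 * e * p' : ℝ) : UnitAddCircle)) - (u - c - ((3 * e * p : ℝ) : UnitAddCircle)) := by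
      have h7 : (3 * e * (p' - p) : ℝ) = 3 * e * p' - 3 * e * p := by ring
      rw [h7, AddCircle.coe_sub]
      abel
    rw [h6]
    calc _ ≤ ‖u - c' - ((3 * e * p' : ℝ) : UnitAddCircle)‖ + ‖u - c - ((3 * e * p : ℝ) : UnitAddCircle)‖ :=
          norm_sub_le _ _
      _ ≤ e + e := add_le_add h2 h1
      _ = 2 * e := by ring
  have hpos : 0 ≤ 3 * e * ((p' : ℝ) - p) := by positivity
  by_cases hcc : c = c'
  · rw [hcc, sub_self, zero_sub, norm_neg, norm_coe, abs_of_nonneg hpos] at h5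
    · nlinarith
    · rw [abs_of_nonneg hpos]; nlinarith
  · have h8 := hsep c hc c' hc' hcc
    have h9 : ‖c - c'‖ ≤ ‖(c - c') - ((3 * e * (p' - p) : ℝ) : UnitAddCircle)‖ +
        ‖((3 * e * (p' - p) : ℝ) : UnitAddCircle)‖ := by
      have := norm_add_le ((c - c') - ((3 * e * (p' - p) : ℝ) : UnitAddCircle))
        (((3 * e * (p' - p) : ℝ) : UnitAddCircle))
      rwa [sub_add_cancel] at this
    have h10 := norm_coe_le (3 * e * ((p' : ℝ) - p))
    rw [abs_of_nonneg hpos] at h10
    nlinarith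

theorem shift (hIT : SpecIT) {B : (Fin N → ℝ) → (Fin N → ℝ)} {L th : ℝ} (hS : Sys H B L th C) (b : ℕ)
    {i j : Fin N} (hij : i ≠ j) {e : ℝ} (he : 0 < e) (p : ℕ) (x : X N) (hx : x ∈ W H C b i j e p)
    (hE : ∀ q, q < b → x ∉ Near H C q (3 * e / L ^ (b - q))) :
    x + pr (B^[b] (Pi.single i (3 * e))) ∈ W H C b i j e (p + 1) := by
  have hL : 0 < L := by linarith [hS.one_lt_L]
  have hv : ∀ i' j' : Fin N, |(Pi.single i (3 * e) : Fin N → ℝ) i' - (Pi.single i (3 * e) : Fin N → ℝ) j'| ≤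
      3 * e := by
    intro i' j'
    simp only [Pi.single_apply]
    split_ifs
    · rw [sub_self, abs_zero]; positivity
    · rw [sub_zero, abs_of_pos (by positivity)]
    · rw [zero_sub, abs_neg, abs_of_pos (by positivity)]
    · rw [sub_self, abs_zero]; positivity
  have key : H^[b] (x + pr (B^[b] (Pi.single i (3 * e)))) = H^[b] x + pr (Pi.single i (3 * e)) := by
    refine hIT H B L th C hS b x _ fun q hq i' j' => ?_
    by_cases h : i' = j'
    · left; rw [h]
    · right
      intro c hc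
      have h1 : ¬ ‖(H^[q] x) i' - (H^[q] x) j' - c‖ ≤ 3 * e / L ^ (b - q) := fun h2 =>
        hE q hq ⟨i', j', h, c, hc, h2⟩
      exact lt_of_le_of_lt (div_le_div_of_nonneg_right (hv i' j') (by positivity)) (not_le.mp h1)
  obtain ⟨c, hc, h⟩ := hx
  refine ⟨c, hc, ?_⟩
  rw [key]
  have h1 : (H^[b] x + pr (Pi.single i (3 * e))) i - (H^[b] x + pr (Pi.single i (3 * e))) j - c -
      ((3 * e * ((p + 1 : ℕ) : ℝ) : ℝ) : UnitAddCircle) =
      (H^[b] x) i - (H^[b] x) j - c - ((3 * e * p : ℝ) : UnitAddCircle) := by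
    have h2 : (3 * e * ((p + 1 : ℕ) : ℝ) : ℝ) = 3 * e * p + 3 * e := by push_cast; ring
    have h3 : (pr (Pi.single i (3 * e)) : X N) i = ((3 * e : ℝ) : UnitAddCircle) := by
      simp only [pr, Pi.single_eq_same]
    have h4 : (pr (Pi.single i (3 * e)) : X N) j = 0 := by
      simp only [pr, Pi.single_eq_of_ne (Ne.symm hij), AddCircle.coe_zero]
    rw [Pi.add_apply, Pi.add_apply, h3, h4, h2, AddCircle.coe_add]
    abel
  rw [h1]
  exact h

theorem step (hIT : SpecIT) {B : (Fin N → ℝ) → (Fin N → ℝ)} {L th : ℝ} (hS : Sys H B L th C) (b : ℕ)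
    {i j : Fin N} (hij : i ≠ j) {e : ℝ} (he : 0 < e) (p : ℕ) :
    volume.real (W H C b i j e p \ ⋃ q ∈ Finset.range b, Near H C q (3 * e / L ^ (b - q))) ≤
      volume.real (W H C b i j e (p + 1)) := by
  have h1 : W H C b i j e p \ (⋃ q ∈ Finset.range b, Near H C q (3 * e / L ^ (b - q))) ⊆
      (fun x => x + pr (B^[b] (Pi.single i (3 * e)))) ⁻¹' W H C b i j e (p + 1) := by
    rintro x ⟨hx, hx2⟩
    refine shift H C hIT hS b hij he p x hx fun q hq h2 => hx2 ?_
    exact Set.mem_biUnion (Finset.mem_coe.mpr (Finset.mem_range.mpr hq)) h2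
  refine (measureReal_mono h1).trans (le_of_eq ?_)
  rw [measureReal_def, measureReal_def, measure_preimage_add_right]

theorem pair_bound (hIT : SpecIT) {B : (Fin N → ℝ) → (Fin N → ℝ)} {L th : ℝ} (hS : Sys H B L th C) {r : ℝ}
    (hr : 0 < r) (hr1 : r ≤ 1 / 16) (hsep : ∀ c ∈ C, ∀ c' ∈ C, c ≠ c' → 8 * r ≤ ‖c - c'‖) (b : ℕ)
    {i j : Fin N} (hij : i ≠ j) {e : ℝ} (he : 0 < e) (M : ℝ)
    (hE : volume.real (⋃ q ∈ Finset.range b, Near H C q (3 * e / L ^ (b - q))) ≤ M)
    (hM2 : M ≤ 2 / r * e) : volume.real (W H C b i j e 0) ≤ 4 / r * e := by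
  by_cases her : e ≤ r
  · have hq1 : 1 ≤ r / e := by rwa [le_div_iff₀ he, one_mul]
    have hq2 : 1 ≤ ⌊r / e⌋₊ := Nat.le_floor (by exact_mod_cast hq1)
    have hq3 : (⌊r / e⌋₊ : ℝ) ≤ r / e := Nat.floor_le (by positivity)
    have hq4 : r / e < ⌊r / e⌋₊ + 1 := Nat.lt_floor_add_one _
    have hq5 : (1 : ℝ) ≤ ⌊r / e⌋₊ := by exact_mod_cast hq2
    have hq6 : (⌊r / e⌋₊ : ℝ) * e ≤ r := by rwa [le_div_iff₀ he] at hq3
    have hd := disj_W H C hr hr1 hsep he ⌊r / e⌋₊ hq6 her b i j
    have h1 := window volume (W H C b i j e) (⋃ q ∈ Finset.range b, Near H C q (3 * e / L ^ (b - q)))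
      ⌊r / e⌋₊ hq2 (meas_W H C hS.meas b i j e)
      (Finset.measurableSet_biUnion _ fun q _ => meas_near H C hS.meas q _)
      (by
        intro p hp p' hp' hne
        rcases lt_or_gt_of_ne hne with h | h
        · exact hd p hp p' hp' h
        · exact (hd p' hp' p hp h).symm)
      (step H C hIT hS b hij he)
    have h2 : 1 / (⌊r / e⌋₊ : ℝ) ≤ 2 / r * e := by
      rw [div_le_iff₀ (by linarith)]
      have h3 : r / e ≤ 2 * ⌊r / e⌋₊ := by linarith
      rw [div_le_iff₀ he] at h3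
      have h4 : 2 / r * e * (⌊r / e⌋₊ : ℝ) = (2 * ⌊r / e⌋₊ * e) / r := by field_simp
      rw [h4, le_div_iff₀ hr]
      linarith
    calc volume.real (W H C b i j e 0) ≤ 1 / (⌊r / e⌋₊ : ℝ) + _ := h1
      _ ≤ 2 / r * e + 2 / r * e := add_le_add h2 (hE.trans hM2)
      _ = 4 / r * e := by ring
  · have h1 : volume.real (W H C b i j e 0) ≤ 1 := measureReal_le_one
    have h2 : 4 ≤ 4 / r * e := by
      rw [div_mul_eq_mul_div, le_div_iff₀ hr]
      linarith [not_le.mp her]
    linarith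

end sets

end TRAux

theorem specTR (hIT : SpecIT) : SpecTR := by
  intro N H B L th C hS
  obtain ⟨r, hr, hr1, hsep⟩ := TRAux.exists_sep C
  have hL := hS.one_lt_L
  have hL0 : 0 < L := by linarith
  rcases Nat.eq_zero_or_pos N with rfl | hN
  · have h0 : ∀ (b : ℕ) (e : ℝ), Near H C b e = ∅ := by
      intro b e
      ext x
      simp only [Near, Set.mem_ofPred_eq, Set.mem_empty_iff_false, iff_false]
      rintro ⟨i, -⟩
      exact i.elim0
    refine ⟨1, one_pos, fun e he => ?_, fun _ b e he => ?_⟩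
    · rw [h0, measureReal_empty]; linarith
    · rw [h0, measureReal_empty]; linarith
  have hN' : (1 : ℝ) ≤ N := by exact_mod_cast hN
  have hN2 : (1 : ℝ) ≤ (N : ℝ) ^ 2 := one_le_pow₀ hN'
  have hbase : ∀ e : ℝ, 0 < e → volume.real (Near H C 0 e) ≤ (N : ℝ) ^ 2 * (4 / r) * e := by
    intro e he
    rw [mul_assoc]
    refine TRAux.near_le H C 0 e _ (by positivity) fun i j hij => ?_
    refine TRAux.pair_bound H C hIT hS hr hr1 hsep 0 hij he 0 ?_ (by positivity)
    simp
  refine ⟨(N : ℝ) ^ 2 * (4 / r), by positivity, hbase, fun hL6 b => ?_⟩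
  induction b using Nat.strong_induction_on with
  | _ b ih =>
    intro e he
    rw [mul_assoc]
    refine TRAux.near_le H C b e _ (by positivity) fun i j hij => ?_
    refine TRAux.pair_bound H C hIT hS hr hr1 hsep b hij he (2 / r * e) ?_ le_rfl
    calc volume.real (⋃ q ∈ Finset.range b, Near H C q (3 * e / L ^ (b - q)))
        ≤ ∑ q ∈ Finset.range b, volume.real (Near H C q (3 * e / L ^ (b - q))) :=
          measureReal_biUnion_finset_le _ _
      _ ≤ ∑ q ∈ Finset.range b, (N : ℝ) ^ 2 * (4 / r) * (3 * e / L ^ (b - q)) :=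
          Finset.sum_le_sum fun q hq => ih q (Finset.mem_range.mp hq) _ (by positivity)
      _ = (N : ℝ) ^ 2 * (4 / r) * (3 * e) * ∑ q ∈ Finset.range b, 1 / L ^ (b - q) := by
          rw [Finset.mul_sum]
          exact Finset.sum_congr rfl fun q _ => by ring
      _ ≤ (N : ℝ) ^ 2 * (4 / r) * (3 * e) * (1 / (L - 1)) :=
          mul_le_mul_of_nonneg_left (TRAux.geo hL b) (by positivity)
      _ ≤ 2 / r * e := by
          have h1 : 6 * (N : ℝ) ^ 2 ≤ L - 1 := by linarith
          have h2 : 0 < L - 1 := by linarith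
          have h3 : (N : ℝ) ^ 2 * (4 / r) * (3 * e) * (1 / (L - 1)) =
              (2 / r * e) * (6 * (N : ℝ) ^ 2 / (L - 1)) := by ring
          rw [h3]
          have h4 : 6 * (N : ℝ) ^ 2 / (L - 1) ≤ 1 := by rwa [div_le_one h2]
          calc (2 / r * e) * (6 * (N : ℝ) ^ 2 / (L - 1)) ≤ (2 / r * e) * 1 :=
                mul_le_mul_of_nonneg_left h4 (by positivity)
            _ = 2 / r * e := mul_one _

end Pool.Agent.Lib.MP_f738c8_an.GC
end
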