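import Pool.Agent.Lib.MP_f738c8_an.GC.Spec
import Pool.Agent.Lib.MP_f738c8_an.GC.TR

section
/-!
# MP_f738c8_an, hive GC: module UL
-/
set_option autoImplicit false

namespace Pool.Agent.Lib.MP_f738c8_an.GC

open MeasureTheory Filter Topology

namespace ULAux

variable {α : Type} [MeasurableSpace α] (vol : Measure α) [IsProbabilityMeasure vol] (F : α → α)

/-- averages -/
noncomputable def av (n : ℕ) (A : Set α) : ℝ :=
  (∑ k ∈ Finset.range (n + 1), vol.real (F^[k] ⁻¹' A)) / ((n : ℝ) + 1)

theorem npos (n : ℕ) : (0 : ℝ) < (n : ℝ) + 1 := by positivity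

theorem av_nonneg (n : ℕ) (A : Set α) : 0 ≤ av vol F n A := by
  unfold av
  exact div_nonneg (Finset.sum_nonneg fun k _ => measureReal_nonneg) (npos n).le

theorem av_le_of (n : ℕ) (A : Set α) (e : ℝ) (h : ∀ k, vol.real (F^[k] ⁻¹' A) ≤ e) :
    av vol F n A ≤ e := by
  unfold av
  rw [div_le_iff₀ (npos n)]
  calc ∑ k ∈ Finset.range (n + 1), vol.real (F^[k] ⁻¹' A)
      ≤ ∑ _k ∈ Finset.range (n + 1), e := Finset.sum_le_sum fun k _ => h k
    _ = e * ((n : ℝ) + 1) := by
      rw [Finset.sum_const, Finset.card_range, nsmul_eq_mul]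
      push_cast
      ring

theorem av_mem (n : ℕ) (A : Set α) : av vol F n A ∈ Set.Icc (0 : ℝ) 1 :=
  ⟨av_nonneg vol F n A, av_le_of vol F n A 1 fun _ => measureReal_le_one⟩

theorem exists_lim (A : Set α) :
    ∃ x : ℝ, Tendsto (fun n => av vol F n A) (hyperfilter ℕ : Filter ℕ) (𝓝 x) := by
  have h1 : (((hyperfilter ℕ).map (fun n => av vol F n A) : Ultrafilter ℝ) : Filter ℝ) ≤
      𝓟 (Set.Icc (0 : ℝ) 1) := by
    rw [le_principal_iff]
    exact Filter.mem_map.2 (Filter.univ_mem' fun n => av_mem vol F n A)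
  obtain ⟨x, -, hx⟩ := (isCompact_Icc (a := (0 : ℝ)) (b := 1)).ultrafilter_le_nhds _ h1
  exact ⟨x, hx⟩

/-- the limit of the averages -/
noncomputable def L (A : Set α) : ℝ := Classical.choose (exists_lim vol F A)

theorem L_tendsto (A : Set α) :
    Tendsto (fun n => av vol F n A) (hyperfilter ℕ : Filter ℕ) (𝓝 (L vol F A)) :=
  Classical.choose_spec (exists_lim vol F A)

theorem L_nonneg (A : Set α) : 0 ≤ L vol F A :=
  ge_of_tendsto' (L_tendsto vol F A) fun n => av_nonneg vol F n A

theorem L_le_of (A : Set α) (e : ℝ) (h : ∀ k, vol.real (F^[k] ⁻¹' A) ≤ e) : L vol F A ≤ e :=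
  le_of_tendsto' (L_tendsto vol F A) fun n => av_le_of vol F n A e h

theorem L_empty : L vol F ∅ = 0 := by
  refine le_antisymm (L_le_of vol F ∅ 0 fun k => ?_) (L_nonneg vol F ∅)
  simp

theorem L_univ : L vol F Set.univ = 1 := by
  refine tendsto_nhds_unique (L_tendsto vol F Set.univ) ?_
  have h : (fun n => av vol F n Set.univ) = fun _ => (1 : ℝ) := by
    funext n
    unfold av
    simp only [Set.preimage_univ, probReal_univ, Finset.sum_const, Finset.card_range,
      nsmul_eq_mul, mul_one]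
    have := npos n
    push_cast
    field_simp
  rw [h]
  exact tendsto_const_nhds

theorem L_union (hF : Measurable F) (A B : Set α) (hB : MeasurableSet B) (hd : Disjoint A B) :
    L vol F (A ∪ B) = L vol F A + L vol F B := by
  refine tendsto_nhds_unique (L_tendsto vol F (A ∪ B)) ?_
  have h : (fun n => av vol F n (A ∪ B)) = fun n => av vol F n A + av vol F n B := by
    funext n
    unfold av
    rw [← add_div, ← Finset.sum_add_distrib]
    congr 1
    refine Finset.sum_congr rfl fun k _ => ?_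
    rw [Set.preimage_union]
    exact measureReal_union (hd.preimage _) ((hF.iterate k) hB)
  rw [h]
  exact (L_tendsto vol F A).add (L_tendsto vol F B)

theorem L_inv (A : Set α) : L vol F (F ⁻¹' A) = L vol F A := by
  have h1 : Tendsto (fun n => av vol F n (F ⁻¹' A) - av vol F n A) (hyperfilter ℕ : Filter ℕ)
      (𝓝 (L vol F (F ⁻¹' A) - L vol F A)) := (L_tendsto vol F _).sub (L_tendsto vol F _)
  have h2 : Tendsto (fun n => av vol F n (F ⁻¹' A) - av vol F n A) atTop (𝓝 0) := by
    have h3 : ∀ n : ℕ, |av vol F n (F ⁻¹' A) - av vol F n A| ≤ 1 / ((n : ℝ) + 1) := by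
      intro n
      have h4 : av vol F n (F ⁻¹' A) - av vol F n A =
          (vol.real (F^[n + 1] ⁻¹' A) - vol.real (F^[0] ⁻¹' A)) / ((n : ℝ) + 1) := by
        unfold av
        rw [← sub_div, ← Finset.sum_sub_distrib]
        congr 1
        have h5 : ∀ k, F^[k] ⁻¹' (F ⁻¹' A) = F^[k + 1] ⁻¹' A := by
          intro k
          rw [← Set.preimage_comp, Function.iterate_succ']
        simp only [h5]
        exact Finset.sum_range_sub (fun k => vol.real (F^[k] ⁻¹' A)) (n + 1)
      rw [h4, abs_div, abs_of_pos (npos n)]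
      apply div_le_div_of_nonneg_right _ (npos n).le
      have a1 : 0 ≤ vol.real (F^[n + 1] ⁻¹' A) := measureReal_nonneg
      have a2 : vol.real (F^[n + 1] ⁻¹' A) ≤ 1 := measureReal_le_one
      have a3 : 0 ≤ vol.real (F^[0] ⁻¹' A) := measureReal_nonneg
      have a4 : vol.real (F^[0] ⁻¹' A) ≤ 1 := measureReal_le_one
      rw [abs_le]
      constructor <;> linarith
    exact squeeze_zero_norm h3 tendsto_one_div_add_atTop_nhds_zero_nat
  have h3 := tendsto_nhds_unique h1 (h2.mono_left Nat.hyperfilter_le_atTop)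
  linarith

theorem L_iUnion_lt (hF : Measurable F) (f : ℕ → Set α) (hf : ∀ i, MeasurableSet (f i))
    (hd : Pairwise (Function.onFun Disjoint f)) (n : ℕ) :
    L vol F (⋃ i ∈ Finset.range n, f i) = ∑ i ∈ Finset.range n, L vol F (f i) := by
  induction n with
  | zero => simp [L_empty]
  | succ n ih =>
    have h1 : (⋃ i ∈ Finset.range (n + 1), f i) = (⋃ i ∈ Finset.range n, f i) ∪ f n := by
      rw [Finset.range_add_one, Finset.set_biUnion_insert, Set.union_comm]
    rw [h1, L_union vol F hF _ _ (hf n), ih, Finset.sum_range_succ]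
    rw [Set.disjoint_iUnion₂_left]
    intro i hi
    exact hd (ne_of_lt (Finset.mem_range.1 hi))

theorem L_hasSum (hF : Measurable F) (hU : UAC vol F) (f : ℕ → Set α)
    (hf : ∀ i, MeasurableSet (f i)) (hd : Pairwise (Function.onFun Disjoint f)) :
    HasSum (fun i => L vol F (f i)) (L vol F (⋃ i, f i)) := by
  rw [hasSum_iff_tendsto_nat_of_nonneg (fun i => L_nonneg vol F (f i))]
  have hvol : Tendsto (fun n => vol.real (⋃ i ≥ n, f i)) atTop (𝓝 0) := by
    have h1 := tendsto_measure_biUnion_Ici_zero_of_pairwise_disjoint (μ := vol)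
      (fun i => (hf i).nullMeasurableSet) hd
    have h2 := (ENNReal.tendsto_toReal ENNReal.zero_ne_top).comp h1
    rw [ENNReal.toReal_zero] at h2
    exact h2
  have hsplit : ∀ n, L vol F (⋃ i, f i) =
      ∑ i ∈ Finset.range n, L vol F (f i) + L vol F (⋃ i ≥ n, f i) := by
    intro n
    rw [← L_iUnion_lt vol F hF f hf hd n, ← L_union vol F hF]
    · congr 1
      ext x
      simp only [Set.mem_iUnion, Set.mem_union, Finset.mem_range, exists_prop]
      constructor
      · rintro ⟨i, hi⟩
        rcases lt_or_ge i n with h | h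
        · exact Or.inl ⟨i, h, hi⟩
        · exact Or.inr ⟨i, h, hi⟩
      · rintro (⟨i, -, hi⟩ | ⟨i, -, hi⟩) <;> exact ⟨i, hi⟩
    · exact MeasurableSet.iUnion fun i => MeasurableSet.iUnion fun _ => hf i
    · rw [Set.disjoint_iUnion₂_left]
      intro i hi
      rw [Set.disjoint_iUnion₂_right]
      intro j hj
      have h3 : i ≠ j := by
        have := Finset.mem_range.1 hi
        omega
      exact hd h3
  rw [Metric.tendsto_atTop]
  intro e he
  obtain ⟨d, hd0, hd1⟩ := hU (e / 2) (by linarith)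
  obtain ⟨n0, hn0⟩ := (Metric.tendsto_atTop.1 hvol) d hd0
  refine ⟨n0, fun n hn => ?_⟩
  have h1 := hn0 n hn
  rw [Real.dist_eq, sub_zero] at h1
  have h2 : vol.real (⋃ i ≥ n, f i) ≤ d := (le_abs_self _).trans h1.le
  have h3 : L vol F (⋃ i ≥ n, f i) ≤ e / 2 := by
    refine L_le_of vol F _ _ fun k => hd1 k _ ?_ h2
    exact MeasurableSet.iUnion fun i => MeasurableSet.iUnion fun _ => hf i
  have h4 := L_nonneg vol F (⋃ i ≥ n, f i)
  rw [Real.dist_eq, hsplit n, abs_sub_comm, add_sub_cancel_left, abs_of_nonneg h4]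
  linarith

end ULAux

open ULAux in
theorem specUL : SpecUL := by
  intro α _ vol _ F hF hU
  refine ⟨Measure.ofMeasurable (fun A _ => ENNReal.ofReal (L vol F A)) ?_ ?_, ?_, ?_, ?_⟩
  · rw [L_empty, ENNReal.ofReal_zero]
  · intro f hf hd
    have h := L_hasSum vol F hF hU f hf hd
    rw [← h.tsum_eq]
    exact ENNReal.ofReal_tsum_of_nonneg (fun i => L_nonneg vol F (f i)) h.summable
  · refine ⟨?_⟩
    rw [Measure.ofMeasurable_apply _ MeasurableSet.univ, L_univ, ENNReal.ofReal_one]
  · refine Measure.AbsolutelyContinuous.mk fun A hA hA0 => ?_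
    rw [Measure.ofMeasurable_apply _ hA, ENNReal.ofReal_eq_zero]
    refine le_of_forall_pos_le_add fun e he => ?_
    rw [zero_add]
    obtain ⟨d, hd0, hd1⟩ := hU e he
    refine L_le_of vol F _ _ fun k => hd1 k _ hA ?_
    have h1 : vol.real A = 0 := by
      unfold Measure.real
      rw [hA0, ENNReal.toReal_zero]
    rw [h1]
    exact hd0.le
  · intro A hA
    rw [Measure.ofMeasurable_apply _ (hF hA), Measure.ofMeasurable_apply _ hA, L_inv]

end Pool.Agent.Lib.MP_f738c8_an.GC
end

section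
/-!
# MP_f738c8_an, hive GC: module UQ
-/
set_option autoImplicit false

namespace Pool.Agent.Lib.MP_f738c8_an.GC

open MeasureTheory

namespace UQAux

theorem diff_swap {α : Type} [MeasurableSpace α] (m : Measure α) [IsProbabilityMeasure m]
    {S T : Set α} (hS : MeasurableSet S) (hT : MeasurableSet T) (h : m T = m S) :
    m (S \ T) = m (T \ S) := by
  have h1 := measure_inter_add_sdiff (μ := m) S hT
  have h2 := measure_inter_add_sdiff (μ := m) T hS
  rw [Set.inter_comm T S] at h2
  rw [← h, ← h2] at h1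
  exact (ENNReal.add_right_inj (measure_ne_top m _)).1 h1

end UQAux

theorem specUQ : SpecUQ := by
  intro α _ vol _ F hF hE mu nu hmu hnu hmv hnv himu hinu
  haveI := hmu
  haveI := hnu
  set h1 := mu.rnDeriv vol with hh1
  set h2 := nu.rnDeriv vol with hh2
  have hm1 : Measurable h1 := Measure.measurable_rnDeriv _ _
  have hm2 : Measurable h2 := Measure.measurable_rnDeriv _ _
  have e1 : ∀ A : Set α, mu A = ∫⁻ x in A, h1 x ∂vol := fun A =>
    (Measure.setLIntegral_rnDeriv hmv A).symm
  have e2 : ∀ A : Set α, nu A = ∫⁻ x in A, h2 x ∂vol := fun A =>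
    (Measure.setLIntegral_rnDeriv hnv A).symm
  set S := {x | h2 x < h1 x} with hSdef
  have hSm : MeasurableSet S := measurableSet_lt hm2 hm1
  have hFS : MeasurableSet (F ⁻¹' S) := hF hSm
  have hle : ∀ A, A ⊆ Sᶜ → mu A ≤ nu A := by
    intro A hAS
    rw [e1 A, e2 A]
    exact setLIntegral_mono hm2 (fun x hx => not_lt.1 (hAS hx))
  have hz : ∀ A, MeasurableSet A → A ⊆ S → mu A ≤ nu A → vol A = 0 := by
    intro A hA hAS hle
    by_contra h0
    have h3 : nu A < mu A := by
      have hfin : ∫⁻ x in A, h2 x ∂vol ≠ ⊤ := by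
        rw [← e2 A]
        exact measure_ne_top nu A
      rw [e1 A, e2 A]
      exact setLIntegral_strict_mono hA h0 hm1 hfin (ae_of_all _ (fun x hx => hAS hx))
    exact absurd hle (not_le.2 h3)
  have hS0 : vol (S \ F ⁻¹' S) = 0 := by
    refine hz _ (hSm.diff hFS) Set.sdiff_subset ?_
    rw [UQAux.diff_swap mu hSm hFS (himu S hSm), UQAux.diff_swap nu hSm hFS (hinu S hSm)]
    exact hle _ (fun x hx => hx.2)
  rcases hE S hSm hS0 with h | h
  · refine Measure.eq_of_le_of_isProbabilityMeasure (Measure.le_iff.2 fun A hA => ?_)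
    have h3 : mu S = 0 := hmv h
    have h4 : mu A ≤ mu (A \ S) + mu S := by
      calc mu A ≤ mu (A \ S ∪ S) := measure_mono (fun x hx => by
            by_cases hxS : x ∈ S
            · exact Or.inr hxS
            · exact Or.inl ⟨hx, hxS⟩)
        _ ≤ mu (A \ S) + mu S := measure_union_le _ _
    rw [h3, add_zero] at h4
    exact h4.trans ((hle _ (fun x hx => hx.2)).trans (measure_mono Set.sdiff_subset))
  · symm
    refine Measure.eq_of_le_of_isProbabilityMeasure (Measure.le_iff.2 fun A hA => ?_)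
    have h3 : nu Sᶜ = 0 := hnv h
    have h4 : nu A ≤ nu (A ∩ S) + nu Sᶜ := by
      calc nu A ≤ nu (A ∩ S ∪ Sᶜ) := measure_mono (fun x hx => by
            by_cases hxS : x ∈ S
            · exact Or.inl ⟨hx, hxS⟩
            · exact Or.inr hxS)
        _ ≤ nu (A ∩ S) + nu Sᶜ := measure_union_le _ _
    rw [h3, add_zero] at h4
    refine h4.trans (le_trans (b := mu (A ∩ S)) ?_ (measure_mono Set.inter_subset_left))
    rw [e1 (A ∩ S), e2 (A ∩ S)]
    exact setLIntegral_mono hm1 (fun x hx => le_of_lt hx.2)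

end Pool.Agent.Lib.MP_f738c8_an.GC
end

section
/-!
# MP_f738c8_an, hive GC: the theorem for `|D| ≥ 3`
-/
set_option autoImplicit false

namespace Pool.Agent.Lib.MP_f738c8_an.GC

open MeasureTheory

/-- forward invariant sets are null or full -/
theorem zeroOne2 : SpecER2 :=
  specER2 (specSY specCS) (specTR specIT) (specGD specIT) specPF specOB specLOC specBX specMG2

/-- exactly one acim -/
theorem main2 : SpecMain2 :=
  specMain2 (specSY specCS) (specTR specIT) (specGD specIT) specPF specOB specLOC specBX specMG2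
    specUL specUQ

/-- exactly one acim, and it is equivalent to Lebesgue measure -/
theorem main_equiv2 (D : ℤ) (c : UnitAddCircle) (eps : ℝ) (N : ℕ) (hN : 1 ≤ N) (hD : 3 ≤ |D|)
    (he0 : 0 ≤ eps) (he : eps < (|(D : ℝ)| - 2) / (|(D : ℝ)| + 2)) :
    ∃ mu : Measure (X N), IsAcim (Fm D c eps N) mu ∧ volume ≪ mu ∧
      ∀ nu : Measure (X N), IsAcim (Fm D c eps N) nu → nu = mu := by
  obtain ⟨mu, hmu, huniq⟩ := main2 D c eps N hN hD he0 he
  refine ⟨mu, hmu, ?_, fun nu hnu => huniq nu hnu⟩
  have hD' : (3 : ℝ) ≤ |(D : ℝ)| := by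
    rw [← Int.cast_abs]
    exact_mod_cast hD
  have hDp : 0 < |(D : ℝ)| + 2 := by linarith
  have he' : eps * (|(D : ℝ)| + 2) < |(D : ℝ)| - 2 := by rwa [lt_div_iff₀ hDp] at he
  have he1 : eps < 1 := by
    by_contra h
    push Not at h
    nlinarith
  have hth : 2 < |(D : ℝ)| * (1 - eps) / (1 + eps) := by
    rw [lt_div_iff₀ (by linarith)]
    linarith
  exact equiv_of_trivial volume (Fm D c eps N) (zeroOne2 D c eps N hN he0 he1 hth) mu hmu.1 hmu.2.1 hmu.2.2

end Pool.Agent.Lib.MP_f738c8_an.GC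
end
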