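import Pool.Agent.Lib.MP_f738c8_an.GC.Spec

/-!
# MP_f738c8_an, hive GC, module PH: pigeonhole on the circle
-/

set_option autoImplicit false

namespace Pool.Agent.Lib.MP_f738c8_an.GC

open MeasureTheory

theorem specPH : SpecPH := by
  intro G rho hrho hG
  by_contra hcon
  push Not at hcon
  have h2 : rho < 1 / 2 := by
    obtain ⟨a, -, ha⟩ := hcon 0
    exact lt_of_lt_of_le ha (norm_le_half _)
  have hcov : (Set.univ : Set UnitAddCircle) ⊆ ⋃ a ∈ G, (Metric.closedBall a rho)ᶜ := by
    intro s _
    obtain ⟨a, ha, has⟩ := hcon s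
    simp only [Set.mem_iUnion, Set.mem_compl_iff, Metric.mem_closedBall, not_le]
    refine ⟨a, ha, ?_⟩
    rw [dist_comm, dist_eq_norm]
    exact has
  have hball : ∀ a : UnitAddCircle, volume.real (Metric.closedBall a rho)ᶜ = 1 - 2 * rho := by
    intro a
    rw [probReal_compl_eq_one_sub Metric.isClosed_closedBall.measurableSet]
    congr 1
    rw [Measure.real, AddCircle.volume_closedBall, min_eq_right (by linarith),
      ENNReal.toReal_ofReal (by linarith)]
  have h1 : (1 : ℝ) ≤ G.card * (1 - 2 * rho) := by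
    calc (1 : ℝ) = volume.real (Set.univ : Set UnitAddCircle) := by rw [probReal_univ]
      _ ≤ volume.real (⋃ a ∈ G, (Metric.closedBall a rho)ᶜ) :=
        measureReal_mono hcov (measure_ne_top _ _)
      _ ≤ ∑ a ∈ G, volume.real (Metric.closedBall a rho)ᶜ := measureReal_biUnion_finset_le _ _
      _ = G.card * (1 - 2 * rho) := by
        rw [Finset.sum_congr rfl (fun a _ => hball a), Finset.sum_const, nsmul_eq_mul]
  linarith

end Pool.Agent.Lib.MP_f738c8_an.GC
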