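import Pool.Agent.Lib.MP_f738c8_an.GC.TR
import Pool.Agent.Lib.MP_f738c8_an.GC.All2
import Pool.Agent.Lib.MP_f738c8_an.GC.PH

/-!
# MP_f738c8_an, hive GC: the theorem
-/

set_option autoImplicit false

namespace Pool.Agent.Lib.MP_f738c8_an.GC

open MeasureTheory

/-- forward invariant sets are null or full -/
theorem zeroOne : SpecER :=
  specER (specSY specCS) (specTR specIT) (specGD specIT) specPF specOB specLOC specBX (specMG specPH)

/-- exactly one acim -/
theorem main : SpecMain :=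
  specMain (specSY specCS) (specTR specIT) (specGD specIT) specPF specOB specLOC specBX (specMG specPH)
    specUL specUQ

/-- exactly one acim, and it is equivalent to Lebesgue measure -/
theorem main_equiv (D : ℤ) (c : UnitAddCircle) (eps : ℝ) (N : ℕ) (hN : 1 ≤ N) (hD : 4 ≤ |D|)
    (he0 : 0 ≤ eps) (he : eps < (|(D : ℝ)| - 3) / (|(D : ℝ)| + 3)) :
    ∃ mu : Measure (X N), IsAcim (Fm D c eps N) mu ∧ volume ≪ mu ∧
      ∀ nu : Measure (X N), IsAcim (Fm D c eps N) nu → nu = mu := by
  obtain ⟨mu, hmu, huniq⟩ := main D c eps N hN hD he0 he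
  refine ⟨mu, hmu, ?_, fun nu hnu => huniq nu hnu⟩
  have hD' : (4 : ℝ) ≤ |(D : ℝ)| := by
    rw [← Int.cast_abs]
    exact_mod_cast hD
  have hDp : 0 < |(D : ℝ)| + 3 := by linarith
  have he' : eps * (|(D : ℝ)| + 3) < |(D : ℝ)| - 3 := by rwa [lt_div_iff₀ hDp] at he
  have he1 : eps < 1 := by
    by_contra h
    push Not at h
    nlinarith
  have hth : 3 < |(D : ℝ)| * (1 - eps) / (1 + eps) := by
    rw [lt_div_iff₀ (by linarith)]
    linarith
  exact equiv_of_trivial volume (Fm D c eps N) (zeroOne D c eps N hN he0 he1 hth) mu hmu.1 hmu.2.1 hmu.2.2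

end Pool.Agent.Lib.MP_f738c8_an.GC
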