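import Mathlib

/-!
# MP_f738c8_an: globally coupled circle maps. Definitions and local affinity
-/

set_option autoImplicit false

namespace Pool.Agent.Lib.MP_f738c8_an.GC

open MeasureTheory

/-- the coupling function: the representative of `u` in `(-1/2, 1/2)`, and `g (1/2) = 0` -/
noncomputable def g (u : UnitAddCircle) : ℝ :=
  if u = ((1 / 2 : ℝ) : UnitAddCircle) then 0 else
    ((AddCircle.equivIoc (1 : ℝ) (-(1 / 2)) u : Set.Ioc (-(1 / 2) : ℝ) (-(1 / 2) + 1)) : ℝ)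

/-- the globally coupled map `x_i ↦ T (x_i + (eps / N) ∑_j g (x_j - x_i))` -/
noncomputable def coupled (T : UnitAddCircle → UnitAddCircle) (N : ℕ) (eps : ℝ)
    (x : Fin N → UnitAddCircle) : Fin N → UnitAddCircle :=
  fun i => T (x i + ((eps / N * ∑ j, g (x j - x i) : ℝ) : UnitAddCircle))

/-- absolutely continuous invariant probability measure -/
def IsAcim {N : ℕ} (F : (Fin N → UnitAddCircle) → (Fin N → UnitAddCircle))
    (mu : Measure (Fin N → UnitAddCircle)) : Prop :=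
  IsProbabilityMeasure mu ∧ mu ≪ volume ∧ ∀ A, MeasurableSet A → mu (F ⁻¹' A) = mu A

/-! ### The function `g` -/

theorem g_coe {t : ℝ} (ht : |t| < 1 / 2) : g (t : UnitAddCircle) = t := by
  rw [abs_lt] at ht
  have hmem : t ∈ Set.Ioc (-(1 / 2) : ℝ) (-(1 / 2) + 1) := ⟨ht.1, by linarith⟩
  have hmem2 : (1 / 2 : ℝ) ∈ Set.Ioc (-(1 / 2) : ℝ) (-(1 / 2) + 1) := ⟨by norm_num, by norm_num⟩
  unfold g
  rw [if_neg]
  · rw [AddCircle.equivIoc_coe_of_mem hmem]
  · intro h
    have h1 := (AddCircle.equivIoc_coe_of_mem hmem)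
    have h2 := (AddCircle.equivIoc_coe_of_mem hmem2)
    rw [h] at h1
    rw [h1] at h2
    linarith

theorem g_half : g ((1 / 2 : ℝ) : UnitAddCircle) = 0 := if_pos rfl

theorem exists_rep (u : UnitAddCircle) : ∃ t : ℝ, (t : UnitAddCircle) = u ∧ |t| ≤ 1 / 2 ∧ ‖u‖ = |t| := by
  obtain ⟨s, rfl⟩ := QuotientAddGroup.mk_surjective u
  refine ⟨s - round s, ?_, ?_, ?_⟩
  · have h : ((s - round s : ℝ) : UnitAddCircle) = (s : UnitAddCircle) - ((round s : ℝ) : UnitAddCircle) :=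
      AddCircle.coe_sub 1 _ _
    have h2 : (((round s : ℤ) : ℝ) : UnitAddCircle) = 0 := by
      rw [AddCircle.coe_eq_zero_iff]
      exact ⟨round s, by simp⟩
    rw [h, h2, sub_zero]
  · exact abs_sub_round s
  · exact UnitAddCircle.norm_eq (x := s)

theorem norm_le_half (u : UnitAddCircle) : ‖u‖ ≤ 1 / 2 := by
  obtain ⟨t, -, h2, h3⟩ := exists_rep u
  rw [h3]; exact h2

theorem norm_coe_le (t : ℝ) : ‖(t : UnitAddCircle)‖ ≤ |t| := by
  rw [UnitAddCircle.norm_eq]
  exact round_le t 0 |>.trans (by simp)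

theorem norm_coe {t : ℝ} (ht : |t| ≤ 1 / 2) : ‖(t : UnitAddCircle)‖ = |t| := by
  rw [AddCircle.norm_coe_eq_abs_iff (p := (1 : ℝ)) one_ne_zero]
  simpa using ht

theorem coe_g {u : UnitAddCircle} (hu : ‖u‖ < 1 / 2) : ((g u : ℝ) : UnitAddCircle) = u := by
  obtain ⟨t, h1, -, h3⟩ := exists_rep u
  rw [← h1, g_coe (by rw [← h3]; exact hu)]

theorem abs_g {u : UnitAddCircle} (hu : ‖u‖ < 1 / 2) : |g u| = ‖u‖ := by
  obtain ⟨t, h1, -, h3⟩ := exists_rep u
  rw [h3, ← h1, g_coe (by rw [← h3]; exact hu)]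

theorem eq_half {u : UnitAddCircle} (hu : ¬ ‖u‖ < 1 / 2) : u = ((1 / 2 : ℝ) : UnitAddCircle) := by
  obtain ⟨t, h1, h2, h3⟩ := exists_rep u
  have h4 : |t| = 1 / 2 := le_antisymm h2 (by rw [← h3]; exact not_lt.mp hu)
  rcases abs_cases t with ⟨h5, -⟩ | ⟨h5, -⟩
  · rw [← h1, ← h5, h4]
  · rw [← h1]
    have : t = -(1 / 2) := by linarith
    rw [this]
    have h6 : ((1 / 2 : ℝ) : UnitAddCircle) = ((-(1 / 2) + 1 : ℝ) : UnitAddCircle) := by norm_num
    rw [h6, AddCircle.coe_add, AddCircle.coe_period, add_zero]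

theorem norm_half : ‖((1 / 2 : ℝ) : UnitAddCircle)‖ = 1 / 2 := by
  rw [norm_coe (by rw [abs_of_pos (by norm_num)]), abs_of_pos (by norm_num)]

theorem abs_g_le (u : UnitAddCircle) : |g u| ≤ 1 / 2 := by
  by_cases hu : ‖u‖ < 1 / 2
  · rw [abs_g hu]; exact hu.le
  · rw [eq_half hu, g_half]; norm_num

/-- `2 g(u) = 2 u` on the circle, also for `u = 1/2` -/
theorem two_g (u : UnitAddCircle) : ((2 * g u : ℝ) : UnitAddCircle) = u + u := by
  by_cases hu : ‖u‖ < 1 / 2
  · rw [two_mul, AddCircle.coe_add, coe_g hu]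
  · rw [eq_half hu, g_half, mul_zero, ← AddCircle.coe_add]
    have : (1 / 2 + 1 / 2 : ℝ) = 1 := by norm_num
    rw [this, AddCircle.coe_period]
    rfl

theorem g_add {u : UnitAddCircle} {t : ℝ} (h : ‖u‖ + |t| < 1 / 2) :
    g (u + (t : UnitAddCircle)) = g u + t := by
  have hu : ‖u‖ < 1 / 2 := by linarith [abs_nonneg t]
  have h1 : u + (t : UnitAddCircle) = ((g u + t : ℝ) : UnitAddCircle) := by
    rw [AddCircle.coe_add, coe_g hu]
  rw [h1, g_coe]
  calc |g u + t| ≤ |g u| + |t| := abs_add_le _ _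
    _ < 1 / 2 := by rw [abs_g hu]; exact h

/-! ### The maps -/

/-- projection of vectors to the torus -/
noncomputable def pr {N : ℕ} (v : Fin N → ℝ) : Fin N → UnitAddCircle := fun i => (v i : UnitAddCircle)

/-- the linear part -/
noncomputable def Al (D eps : ℝ) {N : ℕ} (v : Fin N → ℝ) : Fin N → ℝ :=
  fun i => D * ((1 - eps) * v i + eps * ((∑ j, v j) / N))

/-- the inverse of the linear part -/
noncomputable def Ai (D eps : ℝ) {N : ℕ} (v : Fin N → ℝ) : Fin N → ℝ :=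
  fun i => (v i - eps * ((∑ j, v j) / N)) / (D * (1 - eps))

/-- the coupled map for `T x = D x + c` -/
noncomputable def Fm (D : ℤ) (c : UnitAddCircle) (eps : ℝ) (N : ℕ) :
    (Fin N → UnitAddCircle) → (Fin N → UnitAddCircle) :=
  coupled (fun z => D • z + c) N eps

theorem pr_add {N : ℕ} (v w : Fin N → ℝ) : pr (v + w) = pr v + pr w := by
  funext i
  simp [pr]

theorem pr_zero {N : ℕ} : pr (0 : Fin N → ℝ) = 0 := by
  funext i
  simp [pr]

theorem Al_sub (D eps : ℝ) {N : ℕ} (v : Fin N → ℝ) (i j : Fin N) :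
    Al D eps v i - Al D eps v j = D * (1 - eps) * (v i - v j) := by
  unfold Al; ring

theorem Ai_sub (D eps : ℝ) {N : ℕ} (v : Fin N → ℝ) (i j : Fin N) :
    Ai D eps v i - Ai D eps v j = (v i - v j) / (D * (1 - eps)) := by
  unfold Ai; ring

theorem Al_Ai {D eps : ℝ} (hD : D ≠ 0) (he : eps ≠ 1) {N : ℕ} (hN : N ≠ 0) (v : Fin N → ℝ) :
    Al D eps (Ai D eps v) = v := by
  have h1 : (1 - eps) ≠ 0 := sub_ne_zero.mpr (Ne.symm he)
  have hN' : (N : ℝ) ≠ 0 := by exact_mod_cast hN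
  have hs : ∑ j, Ai D eps v j = (∑ j, v j) / D := by
    unfold Ai
    rw [← Finset.sum_div, Finset.sum_sub_distrib, Finset.sum_const, Finset.card_univ, Fintype.card_fin,
      nsmul_eq_mul]
    field_simp
  funext i
  unfold Al
  rw [hs]
  unfold Ai
  field_simp
  ring

theorem Ai_abs {D eps : ℝ} (hD : D ≠ 0) (he0 : 0 ≤ eps) (he : eps < 1) {N : ℕ} (v : Fin N → ℝ) {r : ℝ}
    (hv : ∀ i, |v i| ≤ r) (i : Fin N) : |Ai D eps v i| ≤ (1 + eps) / (|D| * (1 - eps)) * r := by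
  have hN : N ≠ 0 := by rintro rfl; exact i.elim0
  have hN' : (0 : ℝ) < N := by exact_mod_cast Nat.pos_of_ne_zero hN
  have hm : |(∑ j, v j) / N| ≤ r := by
    rw [abs_div, abs_of_pos hN', div_le_iff₀ hN']
    calc |∑ j, v j| ≤ ∑ j, |v j| := Finset.abs_sum_le_sum_abs _ _
      _ ≤ ∑ _j : Fin N, r := Finset.sum_le_sum fun j _ => hv j
      _ = r * N := by rw [Finset.sum_const, Finset.card_univ, Fintype.card_fin, nsmul_eq_mul]; ring
  have h1 : 0 < 1 - eps := by linarith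
  have h2 : 0 < |D| := abs_pos.mpr hD
  unfold Ai
  rw [abs_div, abs_mul, abs_of_pos h1, div_mul_eq_mul_div]
  apply div_le_div_of_nonneg_right _ (by positivity)
  calc |v i - eps * ((∑ j, v j) / N)| ≤ |v i| + |eps * ((∑ j, v j) / N)| := abs_sub _ _
    _ ≤ r + eps * r := by
      rw [abs_mul, abs_of_nonneg he0]
      exact add_le_add (hv i) (mul_le_mul_of_nonneg_left hm he0)
    _ = (1 + eps) * r := by ring

/-- local affinity -/
theorem Fm_add {D : ℤ} {c : UnitAddCircle} {eps : ℝ} {N : ℕ} (x : Fin N → UnitAddCircle) (v : Fin N → ℝ)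
    (h : ∀ i j, v i = v j ∨ ‖x i - x j‖ + |v i - v j| < 1 / 2) :
    Fm D c eps N (x + pr v) = Fm D c eps N x + pr (Al D eps v) := by
  funext i
  have hN : N ≠ 0 := by rintro rfl; exact i.elim0
  have hN' : (N : ℝ) ≠ 0 := by exact_mod_cast hN
  have h1 : ∀ j, g ((x + pr v) j - (x + pr v) i) = g (x j - x i) + (v j - v i) := by
    intro j
    have e : (x + pr v) j - (x + pr v) i = (x j - x i) + ((v j - v i : ℝ) : UnitAddCircle) := by
      simp only [Pi.add_apply, pr, AddCircle.coe_sub]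
      abel
    rw [e]
    rcases h j i with h2 | h2
    · rw [h2]; simp
    · exact g_add h2
  unfold Fm coupled
  simp only [h1]
  rw [Finset.sum_add_distrib]
  have h3 : ∑ j, (v j - v i) = (∑ j, v j) - N * v i := by
    rw [Finset.sum_sub_distrib, Finset.sum_const, Finset.card_univ, Fintype.card_fin, nsmul_eq_mul]
  rw [h3]
  have h4 : (eps / N * (∑ j, g (x j - x i) + ((∑ j, v j) - N * v i)) : ℝ) =
      eps / N * ∑ j, g (x j - x i) + (eps * ((∑ j, v j) / N) - eps * v i) := by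
    field_simp
  rw [h4]
  simp only [Pi.add_apply, pr]
  have h5 : x i + (v i : UnitAddCircle) + ((eps / N * ∑ j, g (x j - x i) +
      (eps * ((∑ j, v j) / N) - eps * v i) : ℝ) : UnitAddCircle) =
      (x i + ((eps / N * ∑ j, g (x j - x i) : ℝ) : UnitAddCircle)) +
        (((1 - eps) * v i + eps * ((∑ j, v j) / N) : ℝ) : UnitAddCircle) := by
    rw [add_assoc, ← AddCircle.coe_add, add_assoc (x i), ← AddCircle.coe_add]
    congr 2
    ring
  rw [h5, smul_add]
  have h6 : D • ((((1 - eps) * v i + eps * ((∑ j, v j) / N) : ℝ)) : UnitAddCircle) =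
      ((Al (D : ℝ) eps v i : ℝ) : UnitAddCircle) := by
    rw [← AddCircle.coe_zsmul]
    congr 1
    unfold Al
    rw [zsmul_eq_mul]
  rw [h6]
  abel

end Pool.Agent.Lib.MP_f738c8_an.GC
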