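import Pool.Agent.Lib.MP_f738c8_an.GC.Base

/-!
# MP_f738c8_an: globally coupled affine circle maps, uniform in the size. Spec of the hive GC

THEOREM. For `D : ℤ`, `4 ≤ |D|`, `0 ≤ eps < (|D| - 3)/(|D| + 3)`, every `c` and every `N ≥ 1`, the coupled
map `Fm D c eps N` of the torus has exactly one acim.

All measures are `volume` on `X N = Fin N → UnitAddCircle` (a probability measure, translation invariant).
Real valued measures `volume.real` are used.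
-/

set_option autoImplicit false

namespace Pool.Agent.Lib.MP_f738c8_an.GC

open MeasureTheory

/-- the torus -/
abbrev X (N : ℕ) : Type := Fin N → UnitAddCircle

instance isProb_circle : IsProbabilityMeasure (volume : Measure UnitAddCircle) :=
  ⟨UnitAddCircle.measure_univ⟩

instance (N : ℕ) : IsProbabilityMeasure (volume : Measure (X N)) :=
  inferInstanceAs (IsProbabilityMeasure (Measure.pi fun _ : Fin N => (volume : Measure UnitAddCircle)))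

instance (N : ℕ) : (volume : Measure (X N)).IsAddRightInvariant := inferInstance

/-- Lebesgue measure on the cube `(-1/2, 1/2]^N` -/
noncomputable def Q (N : ℕ) : Measure (Fin N → ℝ) :=
  Measure.pi fun _ : Fin N => volume.restrict (Set.Ioc (-(1 / 2) : ℝ) (-(1 / 2) + 1))

theorem pr_mp (N : ℕ) : MeasurePreserving (pr : (Fin N → ℝ) → X N) (Q N) volume :=
  measurePreserving_pi (fun _ : Fin N => volume.restrict (Set.Ioc (-(1 / 2) : ℝ) (-(1 / 2) + 1)))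
    (fun _ : Fin N => (volume : Measure UnitAddCircle))
    (fun _ => UnitAddCircle.measurePreserving_mk (-(1 / 2)))

instance (N : ℕ) : IsProbabilityMeasure (Q N) := by
  refine ⟨?_⟩
  have h := (pr_mp N).measure_preimage (s := Set.univ) MeasurableSet.univ.nullMeasurableSet
  rw [Set.preimage_univ] at h
  rw [h, measure_univ]

/-! ### 1. Affinity of the iterates -/

/-- moving `x` by `w` crosses none of the cuts `x i - x j = c`, `c ∈ C` -/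
def NoCut {N : ℕ} (C : Finset UnitAddCircle) (x : X N) (w : Fin N → ℝ) : Prop :=
  ∀ i j, w i = w j ∨ ∀ c ∈ C, |w i - w j| < ‖x i - x j - c‖

/-- MODULE CS. Proof: (a) `‖u - 1/2‖ = 1/2 - ‖u‖`, so with `1/2 ∈ C'` the hypothesis of `Fm_add` holds.
(b) if `x i - x j ≠ 1/2`, `z := g (x i - x j)`, then for all `k`,
`2 (g (x k - x i) - g (x k - x j) + z) ∈ ℤ` by `two_g`, with absolute value `≤ 3` by `abs_g_le`. Sum over `k`:
`(F x) i - (F x) j = ↑(κ z + D eps q / (2 N))` with `q ∈ ℤ`, `|q| ≤ 3 N`, `κ = D (1 - eps)`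
(if `N = 0` there is nothing to prove). (c) `‖↑(κ z + β) - c‖ = |κ z + β - c₀ - n|` for `c₀` a real
representative of `c` (`exists_rep`) and `n` the nearest integer, so it is `|κ| |z - t|`, `t = (c₀ + n - β)/κ`
and `|z - t| ≥ ‖x i - x j - ↑t‖ > |w i - w j|` if `↑t ∈ C'` (`norm_coe_le`); finitely many `t` since
`|z| ≤ 1/2`, `|q| ≤ 3 N`, `|c₀| ≤ 1/2`. (d) `Al_sub`. `C' = {1/2} ∪ {those ↑t}`. -/
def SpecCS : Prop :=
  ∀ (D : ℤ) (c : UnitAddCircle) (eps : ℝ) (N : ℕ), (D : ℝ) * (1 - eps) ≠ 0 →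
    ∀ C : Finset UnitAddCircle, ∃ C' : Finset UnitAddCircle, ∀ (x : X N) (w : Fin N → ℝ), NoCut C' x w →
      Fm D c eps N (x + pr w) = Fm D c eps N x + pr (Al D eps w) ∧
        NoCut C (Fm D c eps N x) (Al D eps w)

/-- an expanding map `H`, locally affine off the cuts `x i - x j ∈ C`, with inverse linear part `B` -/
structure Sys {N : ℕ} (H : X N → X N) (B : (Fin N → ℝ) → (Fin N → ℝ)) (L th : ℝ)
    (C : Finset UnitAddCircle) : Prop where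
  meas : Measurable H
  one_lt_L : 1 < L
  one_lt_th : 1 < th
  diff : ∀ (v : Fin N → ℝ) (i j : Fin N), |B v i - B v j| = |v i - v j| / L
  contr : ∀ (v : Fin N → ℝ) (r : ℝ), (∀ i, |v i| ≤ r) → ∀ i, |B v i| ≤ r / th
  loc : ∀ (x : X N) (v : Fin N → ℝ), NoCut C x (B v) → H (x + pr (B v)) = H x + pr v

/-- MODULE SY. All iterates of `Fm` are such systems. Contains `Measurable (Fm D c eps N)`
(`g` is measurable: `AddCircle.measurableEquivIoc`), the iterate of `SpecCS` (induction on `m`: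
`∃ C, ∀ x w, NoCut C x w → F^[m] (x + pr w) = F^[m] x + pr ((Al D eps)^[m] w)`), `Al_Ai`, `Ai_sub`,
`Ai_abs`. -/
def SpecSY : Prop :=
  ∀ (D : ℤ) (c : UnitAddCircle) (eps : ℝ) (N : ℕ), 1 ≤ N → 0 ≤ eps → eps < 1 →
    1 < |(D : ℝ)| * (1 - eps) / (1 + eps) → ∀ m : ℕ, 1 ≤ m →
      ∃ C : Finset UnitAddCircle, Sys (Fm D c eps N)^[m] (Ai (D : ℝ) eps)^[m]
        ((|(D : ℝ)| * (1 - eps)) ^ m) ((|(D : ℝ)| * (1 - eps) / (1 + eps)) ^ m) C

/-! ### 2. The trace bound -/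

/-- the points whose image under `H^[b]` is `e`-close to a cut -/
def Near {N : ℕ} (H : X N → X N) (C : Finset UnitAddCircle) (b : ℕ) (e : ℝ) : Set (X N) :=
  {x | ∃ i j, i ≠ j ∧ ∃ c ∈ C, ‖(H^[b] x) i - (H^[b] x) j - c‖ ≤ e}

/-- `H^[b]` is affine near `x`, and the image of a neighbourhood is the `d`-box -/
def Good {N : ℕ} (H : X N → X N) (B : (Fin N → ℝ) → (Fin N → ℝ)) (b : ℕ) (d : ℝ) (x : X N) : Prop :=
  ∀ v : Fin N → ℝ, (∀ i, |v i| ≤ d) → H^[b] (x + pr (B^[b] v)) = H^[b] x + pr v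

/-- MODULE IT. Iteration of `Sys.loc`: `b` steps, if the points `H^[q] x`, `q < b`, are far from the cuts.
Induction on `b` for all `x`: `H^[b+1] (x + pr (B^[b+1] v)) = H^[b] (H (x + pr (B (B^[b] v))))
= H^[b] (H x + pr (B^[b] v))`. -/
def SpecIT : Prop :=
  ∀ {N : ℕ} (H : X N → X N) (B : (Fin N → ℝ) → (Fin N → ℝ)) (L th : ℝ) (C : Finset UnitAddCircle),
    Sys H B L th C → ∀ (b : ℕ) (x : X N) (v : Fin N → ℝ),
      (∀ q, q < b → ∀ i j, v i = v j ∨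
        ∀ c ∈ C, |v i - v j| / L ^ (b - q) < ‖(H^[q] x) i - (H^[q] x) j - c‖) →
      H^[b] (x + pr (B^[b] v)) = H^[b] x + pr v

/-- MODULE TR (the heart). Proof: let `‖c - c'‖ ≥ 8 r₀` for distinct `c, c' ∈ C`, `0 < r₀ ≤ 1/16`,
`K₁ = (4 + |C|)/r₀`. CLAIM: for all `b`, `i ≠ j`, `η > 0` (for `b = 0`, or if `6 N² + 1 ≤ L`)
`∑ c ∈ C, volume.real {x | ‖(H^[b] x) i - (H^[b] x) j - c‖ ≤ η} ≤ K₁ η`; then `K = N² K₁`.
Strong induction on `b`. If `η > r₀` trivial. Else `q₀ = ⌊r₀/η⌋₊ ≥ 1`, `1/q₀ ≤ 2η/r₀`;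
`W p = {x | ∃ c ∈ C, ‖(H^[b] x) i - (H^[b] x) j - c - ↑(3 η p)‖ ≤ η}`, `p < q₀`: these sets are disjoint for
different `p`, and `W 0` is the disjoint union over `c`. Let `v = 3 η e_i` (`Pi.single i (3 η)`),
`E = ⋃ q < b, Near H C q (3 η / L^(b-q))`. Off `E`, by `SpecIT`, `H^[b] (x + pr (B^[b] v)) = H^[b] x + pr v`,
so `x ∈ W p \ E → x + pr (B^[b] v) ∈ W (p+1)`, and by translation invariance
`vol (W p) ≤ vol (W (p+1)) + vol (E ∩ W p)`; hence `vol (W 0) ≤ vol (W p) + vol E` for `p < q₀`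
(disjointness), and averaging `vol (W 0) ≤ 1/q₀ + vol E ≤ 2η/r₀ + N² K₁ 3 η ∑_{q<b} L^{-(b-q)}
≤ 2η/r₀ + 3 N² K₁ η / (L - 1) ≤ K₁ η`. -/
def SpecTR : Prop :=
  ∀ {N : ℕ} (H : X N → X N) (B : (Fin N → ℝ) → (Fin N → ℝ)) (L th : ℝ) (C : Finset UnitAddCircle),
    Sys H B L th C → ∃ K : ℝ, 0 < K ∧ (∀ e : ℝ, 0 < e → volume.real (Near H C 0 e) ≤ K * e) ∧
      (6 * (N : ℝ) ^ 2 + 1 ≤ L → ∀ (b : ℕ) (e : ℝ), 0 < e → volume.real (Near H C b e) ≤ K * e)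

/-- MODULE GD. `Z = ⋃ q < b, Near H C q (2 d / L^(b-q))` (measurable) and `SpecIT`; geometric sum
`∑_{q<b} L^{-(b-q)} ≤ 1/(L-1)`. -/
def SpecGD : Prop :=
  ∀ {N : ℕ} (H : X N → X N) (B : (Fin N → ℝ) → (Fin N → ℝ)) (L th : ℝ) (C : Finset UnitAddCircle),
    Sys H B L th C → ∀ (K : ℝ) (b : ℕ), 0 < K →
      (∀ q, q < b → ∀ e : ℝ, 0 < e → volume.real (Near H C q e) ≤ K * e) →
      ∀ d : ℝ, 0 < d → ∃ Z : Set (X N), MeasurableSet Z ∧ volume.real Z ≤ 2 * K / (L - 1) * d ∧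
        ∀ x, x ∉ Z → Good H B b d x

/-- MODULE PF. Density bound for the image of the good part. Proof: `Cd = 1 / (Q N).real {v | ∀ i, |v i| ≤ d}`
(positive). With `G = Zᶜ`: for `v` in the box, translation invariance gives
`vol (G ∩ H^[b] ⁻¹' A) = ∫⁻ x, 1_{G ∩ H^{-b} A} (x - pr (B^[b] v)) ≤ ∫⁻ x, 1_A (H^[b] x - pr v)`
(if `y = x - pr (B^[b] v) ∈ G` and `H^[b] y ∈ A` then `H^[b] x = H^[b] y + pr v`). Integrate over `v` in the
box with respect to `Q`, swap (`lintegral_lintegral_swap`), and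
`∫⁻ v, 1_A (y - pr v) ∂Q = vol {u | y - u ∈ A} = vol A` by `pr_mp`. -/
def SpecPF : Prop :=
  ∀ (N : ℕ) (d : ℝ), 0 < d → ∃ Cd : ℝ, 0 < Cd ∧
    ∀ (H : X N → X N) (B : (Fin N → ℝ) → (Fin N → ℝ)) (b : ℕ) (Z A : Set (X N)), Measurable H →
      MeasurableSet Z → MeasurableSet A → (∀ x, x ∉ Z → Good H B b d x) →
      volume.real (H^[b] ⁻¹' A) ≤ Cd * volume.real A + volume.real Z

/-! ### 3. General ergodic theory -/

/-- uniform absolute continuity of the images of the measure `vol` -/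
def UAC {α : Type} [MeasurableSpace α] (vol : Measure α) (F : α → α) : Prop :=
  ∀ e : ℝ, 0 < e → ∃ d : ℝ, 0 < d ∧ ∀ (n : ℕ) (A : Set α), MeasurableSet A → vol.real A ≤ d →
    vol.real (F^[n] ⁻¹' A) ≤ e

/-- MODULE UL. Existence. Proof: `ν_n A = (1/n) ∑_{k<n} vol.real (F^[k] ⁻¹' A) ∈ [0,1]`, limit along
`Filter.hyperfilter ℕ` (compactness of `[0,1]`), finitely additive, `≤ e` if `vol.real A ≤ d`, hence countably
additive (`Measure.ofMeasurable`), invariant since `|ν_n (F⁻¹ A) - ν_n A| ≤ 1/n`. -/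
def SpecUL : Prop :=
  ∀ {α : Type} [MeasurableSpace α] (vol : Measure α) [IsProbabilityMeasure vol] (F : α → α),
    Measurable F → UAC vol F →
      ∃ mu : Measure α, IsProbabilityMeasure mu ∧ mu ≪ vol ∧ ∀ A, MeasurableSet A → mu (F ⁻¹' A) = mu A

/-- MODULE UQ. Uniqueness. Proof: densities `h₁, h₂` (`rnDeriv`), `S = {h₂ < h₁}`; from invariance
`(mu - nu)(S \ F⁻¹ S) ≤ 0`, so `vol (S \ F⁻¹ S) = 0`. `vol Sᶜ = 0` is impossible (equal masses); so `h₁ ≤ h₂`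
a.e., and equal masses give `h₁ = h₂` a.e. -/
def SpecUQ : Prop :=
  ∀ {α : Type} [MeasurableSpace α] (vol : Measure α) [IsProbabilityMeasure vol] (F : α → α),
    Measurable F → (∀ S, MeasurableSet S → vol (S \ F ⁻¹' S) = 0 → vol S = 0 ∨ vol Sᶜ = 0) →
      ∀ mu nu : Measure α, IsProbabilityMeasure mu → IsProbabilityMeasure nu → mu ≪ vol → nu ≪ vol →
        (∀ A, MeasurableSet A → mu (F ⁻¹' A) = mu A) → (∀ A, MeasurableSet A → nu (F ⁻¹' A) = nu A) →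
        mu = nu

/-! ### 4. Forward invariant sets contain open boxes -/

/-- open boxes -/
def box {N : ℕ} (x : X N) (r : ℝ) : Set (X N) := {y | ∀ i, ‖y i - x i‖ < r}

/-- the points near which `S` has full measure -/
def Full {N : ℕ} (S : Set (X N)) : Set (X N) := {x | ∃ r : ℝ, 0 < r ∧ volume (box x r \ S) = 0}

/-- MODULE OB. Proof: let `d` with `K d ≤ vol S / 2`. If `Full S = ∅`, take a finite family of boxes `box z (d/4)`
such that every `y` has one of them inside `{y + pr v : |v i| ≤ d}` (compactness of the torus); each has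
`vol (box z (d/4) \ S) > 0`; let `τ > 0` be the minimum, so `τ ≤ (Q N) {v | (∀ i, |v i| ≤ d) ∧ y + pr v ∉ S}` for
all `y`. For `x ∈ S \ Z_n`: `H^[n] x + pr v = H^[n] (x + pr (B^[n] v))`, so, by Tonelli for the measurable
function `1[H^[n] x + pr v ∉ S]`,
`τ vol (S \ Z_n) ≤ ∫_{v ∈ box} vol {x ∈ S \ Z_n | H^[n] (x + pr (B^[n] v)) ∉ S} ≤ ∫_{v ∈ box} vol {x ∈ S | x + pr (B^[n] v) ∉ S}`
(`S \ H^{-n} S` is null) and `|B^[n] v i| ≤ d / th^n → 0`, so the integrand tends to `0` uniformly (continuity of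
translations: `tendsto_measure_symmDiff_preimage_nhds_zero`, or inner/outer regularity). -/
def SpecOB : Prop :=
  ∀ {N : ℕ} (H : X N → X N) (B : (Fin N → ℝ) → (Fin N → ℝ)) (L th : ℝ) (C : Finset UnitAddCircle),
    Sys H B L th C → ∀ K : ℝ, 0 < K →
      (∀ (b : ℕ) (d : ℝ), 0 < d → ∃ Z : Set (X N), MeasurableSet Z ∧ volume.real Z ≤ K * d ∧
        ∀ x, x ∉ Z → Good H B b d x) →
      ∀ S : Set (X N), MeasurableSet S → volume S ≠ 0 → (∀ n : ℕ, volume (S \ H^[n] ⁻¹' S) = 0) →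
        (Full S).Nonempty

/-- MODULE LOC. Proof: `‖y i - y j‖ + 2 ρ < 1/2`, `box y ρ ⊆ S` mod 0, `ρ < 1/2`. By `Fm_add`,
`F (y + pr v) = F y + pr (Al v)` for `|v i| < ρ`. The set `{v | |v i| < ρ, y + pr v ∈ (box y ρ \ S) ∪ (S \ F⁻¹ S)}` is
null for `Q` (`pr_mp`, translation invariance), so for Lebesgue measure on `ℝ^N` (it lies in the open cube); its
image under the invertible linear map `Al` is null; it contains `{w | |w i| < ρ', F y + pr w ∉ S}` for small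
`ρ'` (`Ai_abs`), which is then null for `Q`, so `volume (box (F y) ρ' \ S) = 0`. -/
def SpecLOC : Prop :=
  ∀ (D : ℤ) (c : UnitAddCircle) (eps : ℝ) (N : ℕ), D ≠ 0 → 0 ≤ eps → eps < 1 →
    ∀ S : Set (X N), MeasurableSet S → volume (S \ Fm D c eps N ⁻¹' S) = 0 →
      ∀ y ∈ Full S, (∀ i j, ‖y i - y j‖ < 1 / 2) → Fm D c eps N y ∈ Full S

/-- MODULE BX. Proof: `y ∈ box (F c₁) (θ p)`: `y i - (F c₁) i = ↑(w i)`, `|w i| < θ p` (`exists_rep`);
`v = Ai w`, `|v i| < p` (`Ai_abs` with the maximum of the `|w i|`), `y = F (c₁ + pr v)` by `Fm_add`, `Al_Ai`, and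
`c₁ + pr v ∈ box c₀ r`, `‖(c₁ + pr v) i - (c₁ + pr v) j‖ < 1/2`. -/
def SpecBX : Prop :=
  ∀ (D : ℤ) (c : UnitAddCircle) (eps : ℝ) (N : ℕ), D ≠ 0 → 0 ≤ eps → eps < 1 →
    ∀ U : Set (X N), (∀ y ∈ U, (∀ i j, ‖y i - y j‖ < 1 / 2) → Fm D c eps N y ∈ U) →
      ∀ (c₀ c₁ : X N) (r p : ℝ), box c₀ r ⊆ U → (∀ i, ‖c₁ i - c₀ i‖ + p ≤ r) →
        (∀ i j, ‖c₁ i - c₁ j‖ + 2 * p ≤ 1 / 2) →
        box (Fm D c eps N c₁) (|(D : ℝ)| * (1 - eps) / (1 + eps) * p) ⊆ U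

/-- MODULE PH. Pigeonhole on the circle: the complement of `closedBall γ ρ` has volume `1 - min 1 (2ρ)`
(`AddCircle.volume_closedBall`); they cannot cover. -/
def SpecPH : Prop :=
  ∀ (G : Finset UnitAddCircle) (rho : ℝ), 0 ≤ rho → (G.card : ℝ) * (1 - 2 * rho) < 1 →
    ∃ s : UnitAddCircle, ∀ a ∈ G, ‖a - s‖ ≤ rho

/-- MODULE MG (merging). Write `nv x = (Finset.univ.image x).card`, and (*) for the hypothesis on `U`.
(C) `M ≥ 1` odd, `3/(4M) ≤ r`, `box c₀ r ⊆ U` ⇒ some `c` with `nv c ≤ M`, `box c (th/(4M)) ⊆ U`: `c₁ i` = a nearest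
point `↑(n/M)` to `c₀ i` (a function of `c₀ i`), `p = 1/(4M)`: `‖c₁ i - c₀ i‖ ≤ 1/(2M)`,
`‖↑(n/M) - ↑(n'/M)‖ ≤ 1/2 - 1/(2M)` (`M` odd), `c = F c₁`.
(D) `m ≥ 3` odd, `nv c₀ ≤ m`, `box c₀ r ⊆ U`, `3/(4m) < r < 3/(4(m-2))` ⇒ some `c` with `nv c ≤ m`,
`box c (th r/3) ⊆ U`. Proof: `M = m - 2`, `p = r/3`, `ρ = M r/3 + 1/4`; `m (1 - 2ρ) < 1`, so by PH some `σ` has
`‖M • c₀ i - σ‖ ≤ ρ` for all `i`; with `σ = ↑(M s)`, `c₀ i = ↑(a i)`: `|d i| ≤ ρ/M = r/3 + 1/(4M)` for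
`d i = s + n i / M - a i`, `n i = round (M (a i - s))`; `c₁ i = c₀ i + ↑(clamp)`, clamp of `d i` to `[-2p, 2p]`:
`‖c₁ i - ↑(s + n i / M)‖ ≤ 1/(4M) - p`, so `‖c₁ i - c₁ j‖ ≤ 1/2 - 2p`.
(E) `m ≥ 3` odd, `nv c₀ ≤ m`, `box c₀ r ⊆ U`, `3/(4m) < r` ⇒ some `c`, `r' ≥ 3/(4(m-2))` with `box c r' ⊆ U` (iterate
(D); factor `th/3 > 1`). If `m = 3`, `r' ≥ 3/4 > 1/2` and `U = univ`; otherwise (C) with `M = m - 2` gives
the hypothesis of (E) for `m - 2`. Start: (C) with `M` odd large. -/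
def SpecMG : Prop :=
  ∀ {N : ℕ} (F : X N → X N) (th : ℝ), 3 < th →
    (∀ x : X N, (Finset.univ.image (F x)).card ≤ (Finset.univ.image x).card) →
    ∀ U : Set (X N), (∀ (c₀ c₁ : X N) (r p : ℝ), box c₀ r ⊆ U → (∀ i, ‖c₁ i - c₀ i‖ + p ≤ r) →
        (∀ i j, ‖c₁ i - c₁ j‖ + 2 * p ≤ 1 / 2) → box (F c₁) (th * p) ⊆ U) →
      ∀ (c₀ : X N) (r : ℝ), 0 < r → box c₀ r ⊆ U → U = Set.univ

/-! ### 5. Assembly -/

/-- MODULE AC (helper90): uniform absolute continuity for `Fm`, and the good sets for an iterate. -/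
def SpecAC : Prop :=
  ∀ (D : ℤ) (c : UnitAddCircle) (eps : ℝ) (N : ℕ), 1 ≤ N → 0 ≤ eps → eps < 1 →
    1 < |(D : ℝ)| * (1 - eps) / (1 + eps) → UAC (volume : Measure (X N)) (Fm D c eps N)

/-- MODULE ER (helper90): forward invariant sets are null or full. -/
def SpecER : Prop :=
  ∀ (D : ℤ) (c : UnitAddCircle) (eps : ℝ) (N : ℕ), 1 ≤ N → 0 ≤ eps → eps < 1 →
    3 < |(D : ℝ)| * (1 - eps) / (1 + eps) → ∀ S : Set (X N), MeasurableSet S →
      volume (S \ Fm D c eps N ⁻¹' S) = 0 → volume S = 0 ∨ volume Sᶜ = 0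

/-- the theorem -/
def SpecMain : Prop :=
  ∀ (D : ℤ) (c : UnitAddCircle) (eps : ℝ) (N : ℕ), 1 ≤ N → 4 ≤ |D| → 0 ≤ eps →
    eps < (|(D : ℝ)| - 3) / (|(D : ℝ)| + 3) → ∃! mu : Measure (X N), IsAcim (Fm D c eps N) mu

end Pool.Agent.Lib.MP_f738c8_an.GC
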